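import Mathlib

/-!
Project WV (problem MP_e0c419_co): the spectrum of variance-balanced block designs for all large
`v` and all concurrences `l ≥ 2`. Basic definitions.

Blocks are functions `Fin k → V` (`k` positions); the concurrence of two distinct points `x`, `y`
is the number of triples (block, position of `x`, position of `y`).
-/

set_option autoImplicit false

namespace Pool.Agent.Helper69.WV

/-- Number of triples (block `b`, position `i`, position `j`) with `f b i = x` and `f b j = y`;
for `x ≠ y` this is the concurrence of `x` and `y`. -/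
noncomputable def cc {ι V : Type} {k : ℕ} (f : ι → Fin k → V) (x y : V) : ℕ :=
  Nat.card {p : ι × Fin k × Fin k // f p.1 p.2.1 = x ∧ f p.1 p.2.2 = y}

/-- A group divisible VB design: the groups are the fibres of `γ`; two distinct points of the same
group have concurrence `0`, two points of different groups have concurrence `l`. -/
def DD (k l : ℕ) {V I : Type} (γ : V → I) : Prop :=
  ∃ (ι : Type) (_ : Finite ι) (f : ι → Fin k → V),
    (∀ b, ∃ i j, f b i ≠ f b j) ∧
    (∀ x y, γ x ≠ γ y → cc f x y = l) ∧
    (∀ x y, x ≠ y → γ x = γ y → cc f x y = 0)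

/-- The orders `v` of the VB designs with block size `k` and concurrence `l`. -/
def KS (k l : ℕ) : Set ℕ := {v | DD k l (id : Fin v → Fin v)}

/-- The `n` for which there is a group divisible VB design with `n` groups of size `w`. -/
def RS (k l w : ℕ) : Set ℕ := {n | DD k l (Prod.fst : Fin n × Fin w → Fin n)}

/-- PBD-closed sets. -/
def Closed (K : Set ℕ) : Prop :=
  0 ∈ K ∧ 1 ∈ K ∧ ∀ (V : Type) [Finite V] (B : Set (Set V)),
    (∀ x y : V, x ≠ y → ∃! b : Set V, b ∈ B ∧ x ∈ b ∧ y ∈ b) →
    (∀ b ∈ B, b.ncard ∈ K) → Nat.card V ∈ K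

/-- Orthogonal arrays with `m` columns and strength two over the set `X`. -/
def OA (m : ℕ) (X : Type) : Prop :=
  ∃ B : Set (Fin m → X), ∀ i j, i ≠ j → ∀ a b, ∃! f, f ∈ B ∧ f i = a ∧ f j = b

/-- Transversal designs with `m` groups of size `n`. -/
def TD (m n : ℕ) : Prop := OA m (Fin n)

/-- `K` contains arbitrarily large elements in every unit class. -/
def UnitClasses (K : Set ℕ) : Prop :=
  ∀ N r B : ℕ, 0 < N → Nat.Coprime r N → ∃ m ∈ K, B ≤ m ∧ m ≡ r [MOD N]

/-- A VB design with block size `n + 3` on the point set `V` in which every block is injective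
except that the positions `0` and `1` may hold the same point, and in which every point is doubled
in at least two blocks. -/
def Nice (n l : ℕ) (V : Type) : Prop :=
  ∃ (ι : Type) (_ : Finite ι) (f : ι → Fin (n + 3) → V),
    (∀ b i j, i < j → f b i = f b j → i = 0 ∧ j = 1) ∧
    (∀ x y, x ≠ y → cc f x y = l) ∧
    ∀ a, ∃ b b', b ≠ b' ∧ f b 0 = a ∧ f b 1 = a ∧ f b' 0 = a ∧ f b' 1 = a

end Pool.Agent.Helper69.WV
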