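import Mathlib
import Pool.Agent.Helper69.WV.Defs

/-!
Project WV: transport of designs along equivalences.
-/

set_option autoImplicit false

namespace Pool.Agent.Helper69.WV

/-- Counting along an injective map of the points. -/
theorem cc_comp {ι V V' : Type} {k : ℕ} (f : ι → Fin k → V) (e : V → V')
    (he : Function.Injective e) (x y : V) :
    cc (fun b i => e (f b i)) (e x) (e y) = cc f x y := by
  unfold cc
  refine Nat.card_congr (Equiv.subtypeEquivRight ?_)
  intro p
  simp only [he.eq_iff]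

theorem cc_eq_zero {ι V : Type} {k : ℕ} (f : ι → Fin k → V) (x y : V)
    (h : ∀ b i j, f b i = x → f b j = y → False) : cc f x y = 0 := by
  unfold cc
  have : IsEmpty {p : ι × Fin k × Fin k // f p.1 p.2.1 = x ∧ f p.1 p.2.2 = y} :=
    ⟨fun p => h p.1.1 p.1.2.1 p.1.2.2 p.2.1 p.2.2⟩
  exact Nat.card_of_isEmpty

theorem DD.congr {k l : ℕ} {V I V' I' : Type} {γ : V → I} {γ' : V' → I'} (h : DD k l γ)
    (e : V ≃ V') (he : ∀ x y, γ x = γ y ↔ γ' (e x) = γ' (e y)) : DD k l γ' := by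
  obtain ⟨ι, hι, f, h1, h2, h3⟩ := h
  refine ⟨ι, hι, fun b i => e (f b i), ?_, ?_, ?_⟩
  · intro b
    obtain ⟨i, j, hij⟩ := h1 b
    exact ⟨i, j, fun h => hij (e.injective h)⟩
  · intro x y hxy
    obtain ⟨x, rfl⟩ := e.surjective x
    obtain ⟨y, rfl⟩ := e.surjective y
    rw [cc_comp f e e.injective]
    exact h2 x y fun h => hxy ((he x y).1 h)
  · intro x y hne hxy
    obtain ⟨x, rfl⟩ := e.surjective x
    obtain ⟨y, rfl⟩ := e.surjective y
    rw [cc_comp f e e.injective]
    exact h3 x y (fun h => hne (congrArg e h)) ((he x y).2 hxy)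

/-- Changing the labels of the groups. -/
theorem DD.relabel {k l : ℕ} {V I I' : Type} {γ : V → I} {γ' : V → I'} (h : DD k l γ)
    (he : ∀ x y, γ x = γ y ↔ γ' x = γ' y) : DD k l γ' :=
  h.congr (Equiv.refl V) he

/-- There is nothing to cover. -/
theorem DD.trivial (k l : ℕ) {V I : Type} (γ : V → I) (h : ∀ x y, γ x = γ y) : DD k l γ := by
  refine ⟨Empty, inferInstance, fun b => b.elim, fun b => b.elim, ?_, ?_⟩
  · intro x y hxy
    exact absurd (h x y) hxy
  · intro x y _ _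
    exact cc_eq_zero _ _ _ fun b => b.elim

theorem DD_id_iff (k l : ℕ) {V : Type} [Finite V] : DD k l (id : V → V) ↔ Nat.card V ∈ KS k l := by
  constructor
  · intro h
    exact h.congr (Finite.equivFin V) fun x y => by simp
  · intro h
    exact DD.congr h (Finite.equivFin V).symm fun x y => by simp

theorem DD_fst_iff (k l : ℕ) {V W : Type} [Finite V] [Finite W] :
    DD k l (Prod.fst : V × W → V) ↔ Nat.card V ∈ RS k l (Nat.card W) := by
  constructor
  · intro h
    exact h.congr ((Finite.equivFin V).prodCongr (Finite.equivFin W)) fun x y => by simp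
  · intro h
    exact DD.congr h ((Finite.equivFin V).prodCongr (Finite.equivFin W)).symm fun x y => by simp

theorem OA.congr {m : ℕ} {X Y : Type} (h : OA m X) (e : X ≃ Y) : OA m Y := by
  obtain ⟨B, hB⟩ := h
  refine ⟨{g | (fun i => e.symm (g i)) ∈ B}, ?_⟩
  intro i j hij a b
  obtain ⟨f, ⟨hf, hfa, hfb⟩, huniq⟩ := hB i j hij (e.symm a) (e.symm b)
  refine ⟨fun i => e (f i), ⟨?_, ?_, ?_⟩, ?_⟩
  · simpa using hf
  · simp [hfa]
  · simp [hfb]
  · rintro g ⟨hg, hga, hgb⟩
    have := huniq (fun i => e.symm (g i)) ⟨hg, by simp [hga], by simp [hgb]⟩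
    funext t
    have h2 : e.symm (g t) = f t := congrFun this t
    change g t = e (f t)
    rw [← h2]
    simp

theorem TD_iff {m : ℕ} {X : Type} [Finite X] : OA m X ↔ TD m (Nat.card X) :=
  ⟨fun h => h.congr (Finite.equivFin X), fun h => OA.congr h (Finite.equivFin X).symm⟩

/-- Fewer columns. -/
theorem OA.mono {m m' : ℕ} {X : Type} (h : OA m X) (hm : m' ≤ m) : OA m' X := by
  obtain ⟨B, hB⟩ := h
  refine ⟨{g | ∃ f ∈ B, g = fun i => f (Fin.castLE hm i)}, ?_⟩
  intro i j hij a b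
  have hij' : Fin.castLE hm i ≠ Fin.castLE hm j := fun h => hij (Fin.castLE_injective hm h)
  obtain ⟨f, ⟨hf, hfa, hfb⟩, huniq⟩ := hB _ _ hij' a b
  refine ⟨fun i => f (Fin.castLE hm i), ⟨⟨f, hf, rfl⟩, hfa, hfb⟩, ?_⟩
  rintro g ⟨⟨f', hf', rfl⟩, hga, hgb⟩
  rw [huniq f' ⟨hf', hga, hgb⟩]

end Pool.Agent.Helper69.WV
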