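import Mathlib
import Pool.Agent.Helper69.WV.Defs

/-!
Project WV: the statements of the pieces.
-/

set_option autoImplicit false

namespace Pool.Agent.Helper69.WV

/-! ### Gluing -/

/-- Gluing: a union of designs, edge disjoint. -/
def Glue : Prop :=
  ∀ (k l : ℕ) (V I : Type) (_ : Finite V) (γ : V → I) (B : Type) (_ : Finite B) (W J : B → Type)
    (δ : ∀ b, W b → J b) (e : ∀ b, W b → V),
    (∀ b, Function.Injective (e b)) → (∀ b, DD k l (δ b)) →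
    (∀ x y, γ x ≠ γ y → ∃! b, ∃ x' y', e b x' = x ∧ e b y' = y ∧ δ b x' ≠ δ b y') →
    (∀ b x' y', δ b x' ≠ δ b y' → γ (e b x') ≠ γ (e b y')) → DD k l γ

def ClosedK : Prop := ∀ k l, Closed (KS k l)

def ClosedR : Prop := ∀ k l w, Closed (RS k l w)

/-- Filling the groups. -/
def Fill0 : Prop :=
  ∀ (k l : ℕ) (V I : Type) (_ : Finite V) (γ : V → I), DD k l γ →
    (∀ i, Nat.card {x // γ x = i} ∈ KS k l) → Nat.card V ∈ KS k l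

/-- Filling the groups, with one additional point. -/
def Fill1 : Prop :=
  ∀ (k l : ℕ) (V I : Type) (_ : Finite V) (γ : V → I), DD k l γ →
    (∀ i, Nat.card {x // γ x = i} + 1 ∈ KS k l) → Nat.card V + 1 ∈ KS k l

/-- Wilson's fundamental construction: weight `Y x` for the point `x`. -/
def Wfc : Prop :=
  ∀ (k l : ℕ) (V I : Type) (_ : Finite V) (γ : V → I) (B : Set (Set V)) (Y : V → Type)
    (_ : ∀ x, Finite (Y x)),
    (∀ x y, γ x ≠ γ y → ∃! b : Set V, b ∈ B ∧ x ∈ b ∧ y ∈ b) →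
    (∀ b ∈ B, ∀ x ∈ b, ∀ y ∈ b, x ≠ y → γ x ≠ γ y) →
    (∀ b ∈ B, DD k l (fun p : (Σ x : ↥b, Y x.1) => p.1)) →
    DD k l (fun p : (Σ x : V, Y x) => γ p.1)

/-- Inflation by a transversal design. -/
def Inflate : Prop :=
  ∀ (k l m : ℕ) (V I : Type) (γ : V → I), DD k l γ → TD k m →
    DD k l (fun p : V × Fin m => γ p.1)

/-! ### Transversal designs -/

def OAField : Prop :=
  ∀ (m : ℕ) (F : Type) (_ : Field F) (_ : Finite F), m ≤ Nat.card F → OA m F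

def OAMul : Prop := ∀ (m : ℕ) (X Y : Type), OA m X → OA m Y → OA m (X × Y)

def TDWilson : Prop :=
  ∀ m a t u : ℕ, u ≤ t → TD m a → TD m (a + 1) → TD (m + 1) t → TD m u → TD m (a * t + u)

/-- All prime powers exactly dividing `n` are at least `M` (for odd primes: the primes). -/
def Good (M n : ℕ) : Prop :=
  0 < n ∧ (∀ p, p.Prime → p ∣ n → p = 2 ∨ M ≤ p) ∧
    (2 ∣ n → ∃ i m, n = 2 ^ i * m ∧ M ≤ 2 ^ i ∧ ¬ 2 ∣ m)

def NumberLemma : Prop :=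
  ∀ M : ℕ, ∃ a n0, Good M a ∧ Good M (a + 1) ∧
    ∀ n, n0 ≤ n → ∃ t u, n = a * t + u ∧ u ≤ t ∧ Good M t ∧ Good M u

def TDLarge : Prop := ∀ m, ∃ n0, ∀ n, n0 ≤ n → TD m n

/-! ### Closed sets -/

def CMul : Prop := ∀ K, Closed K → ∀ m t, m ∈ K → t ∈ K → TD m t → m * t ∈ K

def CMul1 : Prop := ∀ K, Closed K → ∀ m t, m ∈ K → t + 1 ∈ K → TD m t → m * t + 1 ∈ K

def CTrunc : Prop :=
  ∀ K, Closed K → ∀ m t u, m ∈ K → m + 1 ∈ K → t ∈ K → u ∈ K → u ≤ t → TD (m + 1) t →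
    m * t + u ∈ K

def MeetsOdd : Prop :=
  ∀ K, Closed K → UnitClasses K → ∀ N r B : ℕ, 0 < N → Even N → Odd r →
    ∃ v ∈ K, B ≤ v ∧ v ≡ r [MOD N]

def MeetsAll : Prop :=
  ∀ K, Closed K → UnitClasses K → ∀ r0, 0 < r0 → Even r0 → r0 ∈ K → ∀ N r B : ℕ, 0 < N →
    ∃ v ∈ K, B ≤ v ∧ v ≡ r [MOD N]

def AllLarge : Prop :=
  ∀ K, Closed K → (∃ q1, ∀ p, p.Prime → q1 ≤ p → p ∈ K) → ∀ r0, 0 < r0 → Even r0 → r0 ∈ K →
    ∃ n1, ∀ n, n1 ≤ n → n ∈ K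

/-! ### Finite fields -/

/-- Points with all differences in prescribed cosets. -/
def Greedy : Prop :=
  ∀ k e : ℕ, 0 < e → ∃ q0, ∀ (F : Type) (_ : Field F) (_ : Finite F) (H : Subgroup Fˣ),
    H.index = e → q0 ≤ Nat.card F → ∀ c : Fin k → Fin k → Fˣ ⧸ H, ∃ x : Fin k → F,
      ∀ i j, i < j → ∃ u : Fˣ, (u : Fˣ ⧸ H) = c i j ∧ x j - x i = u

def Cyclo : Prop :=
  ∀ n l e : ℕ, 2 ≤ l → ((n + 3) * (n + 2) / 2) ^ 2 ≤ e → ∃ q0, ∀ q, q.Prime → q0 ≤ q →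
    q ≡ 1 [MOD 2 * e] → Nice n l (ZMod q)

/-- The algebraic part of the construction of a design on `F × W`. -/
def GAlg : Prop :=
  ∀ (n l : ℕ) (F W : Type) (_ : Field F) (_ : Finite F) (_ : Finite W) (H : Subgroup Fˣ)
    (ι : Type) (_ : Finite ι) (f : ι → Fin (n + 3) → W),
    (∀ b i j, i < j → f b i = f b j → i = 0 ∧ j = 1) →
    (∀ x y, x ≠ y → cc f x y = l) →
    ∀ (P : ι → Fˣ ⧸ H → Prop) (X : ι → Fˣ ⧸ H → Fin (n + 3) → F),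
    (∀ (a : W) (c : Fˣ ⧸ H), Nat.card {b // f b 0 = a ∧ f b 1 = a ∧ P b c} +
      Nat.card {b // f b 0 = a ∧ f b 1 = a ∧ P b (((-1 : Fˣ) : Fˣ ⧸ H) * c)} = l) →
    (∀ b c i j, i < j → (f b i ≠ f b j ∨ P b c) →
      ∃ u : Fˣ, (u : Fˣ ⧸ H) = c ∧ X b c j - X b c i = u) →
    (∀ b c, f b 0 = f b 1 → ¬ P b c → X b c 0 = X b c 1) →
    DD (n + 3) l (Prod.fst : F × W → F)

def GPrime : Prop :=
  ∀ n l w A : ℕ, l = 2 ∨ l = 3 → Nice n l (Fin w) → ∃ q0, ∀ q, q.Prime → q0 ≤ q →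
    ¬ (q ≡ 1 [MOD 2 ^ A]) → q ∈ RS (n + 3) l w

def GField : Prop :=
  ∀ n w : ℕ, Nice n 2 (Fin w) → ∀ (F : Type) (_ : Field F) (_ : Finite F),
    n + 3 ≤ Nat.card F → Nat.card F ∈ RS (n + 3) 2 w

def NicePrimes : Prop :=
  ∀ n l : ℕ, 2 ≤ l → ∀ N r B : ℕ, 0 < N → Nat.Coprime r N →
    ∃ q, q.Prime ∧ B ≤ q ∧ q ≡ r [MOD N] ∧ Nice n l (Fin q)

/-! ### Assembly -/

/-- The affine plane of order `q` without one point. -/
def EvenElt : Prop := ∀ k l q : ℕ, q.Prime → q ∈ KS k l → q + 1 ∈ RS k l (q - 1)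

/-- A transversal design without one point: groups `w^t (t-1)^1`. -/
def HoleGroup : Prop :=
  ∀ k l w t : ℕ, w + 1 ∈ KS k l → t ∈ KS k l → 0 < t → TD (w + 1) t →
    DD k l (Sum.elim (fun p => some p.1) (fun _ => none) :
      (Fin t × Fin w) ⊕ Fin (t - 1) → Option (Fin t))

def RAll : Prop :=
  ∀ n l : ℕ, l = 2 ∨ l = 3 → ∃ w, 0 < w ∧ Even w ∧ w + 1 ∈ KS (n + 3) l ∧
    ∃ n1, ∀ m, n1 ≤ m → m ∈ RS (n + 3) l w

def OddLarge : Prop :=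
  ∀ n l : ℕ, l = 2 ∨ l = 3 → ∃ v0, ∀ v, v0 ≤ v → Odd v → v ∈ KS (n + 3) l

/-- The main theorem. -/
def Main : Prop :=
  ∀ k, 3 ≤ k → ∃ v0, ∀ v, v0 ≤ v → ∀ l, 2 ≤ l → (Even k ∨ Even (l * (v - 1))) → v ∈ KS k l

end Pool.Agent.Helper69.WV
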