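import Mathlib
import Pool.Agent.Helper69.WV.St
import Pool.Agent.Helper69.WV.Basic

/-!
Project WV, piece TL: transversal designs with `m` groups of size `n` exist for all large `n`.
-/

set_option autoImplicit false

namespace Pool.Agent.Helper69.WV

/-- One symbol. -/
private theorem tDLarge_one (M : ℕ) : TD M 1 := by
  refine ⟨Set.univ, ?_⟩
  intro i j _ a b
  refine ⟨fun _ => 0, ⟨trivial, Subsingleton.elim _ _, Subsingleton.elim _ _⟩, ?_⟩
  intro g _
  funext t
  exact Subsingleton.elim _ _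

private theorem tDLarge_mul (h2 : OAMul) {M a b : ℕ} (ha : TD M a) (hb : TD M b) :
    TD M (a * b) := by
  have h := TD_iff.1 (h2 M (Fin a) (Fin b) ha hb)
  simpa using h

private theorem tDLarge_prime (h1 : OAField) {M p : ℕ} (hp : p.Prime) (hM : M ≤ p) :
    TD M p := by
  have : Fact p.Prime := ⟨hp⟩
  have hc : Nat.card (ZMod p) = p := Nat.card_zmod p
  have h := TD_iff.1 (h1 M (ZMod p) inferInstance inferInstance (by rw [hc]; exact hM))
  rwa [hc] at h

private theorem tDLarge_two (h1 : OAField) {M i : ℕ} (hM : M ≤ 2 ^ i) : TD M (2 ^ i) := by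
  rcases Nat.eq_zero_or_pos i with rfl | hi
  · simpa using tDLarge_one M
  · have : Fact (Nat.Prime 2) := ⟨Nat.prime_two⟩
    have hc : Nat.card (GaloisField 2 i) = 2 ^ i := GaloisField.card 2 i hi.ne'
    have : Finite (GaloisField 2 i) := Nat.finite_of_card_ne_zero (by
      rw [hc]
      positivity)
    have h := TD_iff.1 (h1 M (GaloisField 2 i) inferInstance inferInstance (by rw [hc]; exact hM))
    rwa [hc] at h

private theorem tDLarge_big (h1 : OAField) (h2 : OAMul) (M : ℕ) :
    ∀ n : ℕ, 0 < n → (∀ p, p.Prime → p ∣ n → M ≤ p) → TD M n := by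
  intro n
  induction n using Nat.strong_induction_on with
  | _ n ih =>
    intro hn hp
    rcases Nat.lt_or_ge 1 n with h | h
    · have hne : n ≠ 1 := by omega
      have hpr := Nat.minFac_prime hne
      have hdvd := Nat.minFac_dvd n
      have hq : 0 < n / n.minFac := Nat.div_pos (Nat.minFac_le hn) hpr.pos
      have hlt : n / n.minFac < n := Nat.div_lt_self hn hpr.one_lt
      have h3 : TD M (n / n.minFac) := ih _ hlt hq fun p hpp hpd =>
        hp p hpp (hpd.trans (Nat.div_dvd_of_dvd hdvd))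
      have h4 := tDLarge_mul h2 (tDLarge_prime h1 hpr (hp _ hpr hdvd)) h3
      rwa [Nat.mul_div_cancel' hdvd] at h4
    · have : n = 1 := by omega
      rw [this]
      exact tDLarge_one M

private theorem tDLarge_good (h1 : OAField) (h2 : OAMul) {M n : ℕ} (h : Good M n) : TD M n := by
  obtain ⟨hn, hp, h22⟩ := h
  by_cases h2n : 2 ∣ n
  · obtain ⟨i, m, rfl, hi, hm⟩ := h22 h2n
    refine tDLarge_mul h2 (tDLarge_two h1 hi) (tDLarge_big h1 h2 M m ?_ ?_)
    · exact Nat.pos_of_ne_zero fun h0 => hm (h0 ▸ Dvd.intro 0 rfl)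
    · intro p hpp hpm
      rcases hp p hpp (hpm.mul_left _) with rfl | h
      · exact absurd hpm hm
      · exact h
  · refine tDLarge_big h1 h2 M n hn ?_
    intro p hpp hpn
    rcases hp p hpp hpn with rfl | h
    · exact absurd hpn h2n
    · exact h

theorem tdLarge (h1 : OAField) (h2 : OAMul) (h3 : TDWilson) (h4 : NumberLemma) : TDLarge := by
  intro m
  obtain ⟨a, n0, ha, ha1, h⟩ := h4 (m + 1)
  refine ⟨n0, ?_⟩
  intro n hn
  obtain ⟨t, u, rfl, hut, ht, hu⟩ := h n hn
  exact h3 m a t u hut (OA.mono (tDLarge_good h1 h2 ha) (Nat.le_succ m))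
    (OA.mono (tDLarge_good h1 h2 ha1) (Nat.le_succ m)) (tDLarge_good h1 h2 ht)
    (OA.mono (tDLarge_good h1 h2 hu) (Nat.le_succ m))

end Pool.Agent.Helper69.WV
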