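import Mathlib
import Pool.Agent.Helper69.WV.St
import Pool.Agent.Helper69.WV.Basic

/-!
Project WV: products in closed sets.
-/

set_option autoImplicit false

namespace Pool.Agent.Helper69.WV

theorem cMul_graph {m t : ℕ} (f : Fin m → Fin t) :
    Set.ncard {p : Fin m × Fin t | f p.1 = p.2} = m := by
  have h1 : {p : Fin m × Fin t | f p.1 = p.2} = (fun i => (i, f i)) '' Set.univ := by
    ext p
    constructor
    · intro h
      exact ⟨p.1, trivial, Prod.ext rfl h⟩
    · rintro ⟨i, -, rfl⟩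
      rfl
  rw [h1, Set.ncard_image_of_injective _ fun i j h => congrArg Prod.fst h, Set.ncard_univ,
    Nat.card_eq_fintype_card, Fintype.card_fin]

theorem cMul_group {m t : ℕ} (i : Fin m) :
    Set.ncard {p : Fin m × Fin t | p.1 = i} = t := by
  have h1 : {p : Fin m × Fin t | p.1 = i} = (fun s => (i, s)) '' Set.univ := by
    ext p
    constructor
    · intro h
      exact ⟨p.2, trivial, Prod.ext h.symm rfl⟩
    · rintro ⟨s, -, rfl⟩
      rfl
  rw [h1, Set.ncard_image_of_injective _ fun i j h => congrArg Prod.snd h, Set.ncard_univ,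
    Nat.card_eq_fintype_card, Fintype.card_fin]

theorem cMul : CMul := by
  rintro K ⟨h0, h1, hcl⟩ m t hm ht ⟨B, hB⟩
  have h2 := hcl (Fin m × Fin t) {b | (∃ f ∈ B, b = {p | f p.1 = p.2}) ∨ ∃ i, b = {p | p.1 = i}}
    ?_ ?_
  · rwa [Nat.card_prod, Nat.card_eq_fintype_card, Nat.card_eq_fintype_card, Fintype.card_fin,
      Fintype.card_fin] at h2
  · intro x y hxy
    by_cases h3 : x.1 = y.1
    · refine ⟨{p | p.1 = x.1}, ⟨Or.inr ⟨x.1, rfl⟩, rfl, h3.symm⟩, ?_⟩
      rintro b ⟨⟨f, -, rfl⟩ | ⟨i, rfl⟩, hx, hy⟩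
      · have h4 : f x.1 = x.2 := hx
        have h5 : f y.1 = y.2 := hy
        rw [← h3, h4] at h5
        exact absurd (Prod.ext h3 h5) hxy
      · have h4 : x.1 = i := hx
        rw [h4]
    · obtain ⟨f, ⟨hf, h4, h5⟩, huniq⟩ := hB x.1 y.1 h3 x.2 y.2
      refine ⟨{p | f p.1 = p.2}, ⟨Or.inl ⟨f, hf, rfl⟩, h4, h5⟩, ?_⟩
      rintro b ⟨⟨g, hg, rfl⟩ | ⟨i, rfl⟩, hx, hy⟩
      · rw [huniq g ⟨hg, hx, hy⟩]
      · have h6 : x.1 = i := hx
        have h7 : y.1 = i := hy
        exact absurd (h6.trans h7.symm) h3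
  · rintro b (⟨f, -, rfl⟩ | ⟨i, rfl⟩)
    · rwa [cMul_graph]
    · rwa [cMul_group]

theorem cMul1 : CMul1 := by
  rintro K ⟨h0, h1, hcl⟩ m t hm ht ⟨B, hB⟩
  have h2 := hcl (Option (Fin m × Fin t)) {b | (∃ f ∈ B, b = some '' {p | f p.1 = p.2}) ∨
    ∃ i, b = insert none (some '' {p | p.1 = i})} ?_ ?_
  · rwa [Finite.card_option, Nat.card_prod, Nat.card_eq_fintype_card, Nat.card_eq_fintype_card,
      Fintype.card_fin, Fintype.card_fin] at h2
  · have hsome : ∀ (p : Fin m × Fin t) (s : Set (Fin m × Fin t)),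
        some p ∈ insert none (some '' s) ↔ p ∈ s := by
      intro p s
      simp
    have hsome' : ∀ (p : Fin m × Fin t) (s : Set (Fin m × Fin t)),
        some p ∈ some '' s ↔ p ∈ s := by
      intro p s
      simp
    have hnone : ∀ s : Set (Fin m × Fin t), (none : Option (Fin m × Fin t)) ∉ some '' s := by
      intro s
      simp
    have key : ∀ p : Fin m × Fin t, ∃! b : Set (Option (Fin m × Fin t)),
        b ∈ {b | (∃ f ∈ B, b = some '' {p | f p.1 = p.2}) ∨
          ∃ i, b = insert none (some '' {p : Fin m × Fin t | p.1 = i})} ∧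
        none ∈ b ∧ some p ∈ b := by
      intro p
      refine ⟨insert none (some '' {q | q.1 = p.1}), ⟨Or.inr ⟨p.1, rfl⟩, Set.mem_insert _ _,
        (hsome _ _).2 rfl⟩, ?_⟩
      rintro b ⟨⟨f, -, rfl⟩ | ⟨i, rfl⟩, hx, hy⟩
      · exact absurd hx (hnone _)
      · have h4 : p.1 = i := (hsome _ _).1 hy
        rw [h4]
    intro x y hxy
    rcases x with _ | x
    · rcases y with _ | y
      · exact absurd rfl hxy
      · exact key y
    · rcases y with _ | y
      · obtain ⟨b, ⟨hb, hb1, hb2⟩, huniq⟩ := key x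
        exact ⟨b, ⟨hb, hb2, hb1⟩, fun b' hb' => huniq b' ⟨hb'.1, hb'.2.2, hb'.2.1⟩⟩
      · have hxy' : x ≠ y := fun h => hxy (congrArg some h)
        by_cases h3 : x.1 = y.1
        · refine ⟨insert none (some '' {p | p.1 = x.1}), ⟨Or.inr ⟨x.1, rfl⟩, (hsome _ _).2 rfl,
            (hsome _ _).2 h3.symm⟩, ?_⟩
          rintro b ⟨⟨f, -, rfl⟩ | ⟨i, rfl⟩, hx, hy⟩
          · have h4 : f x.1 = x.2 := (hsome' _ _).1 hx
            have h5 : f y.1 = y.2 := (hsome' _ _).1 hy
            rw [← h3, h4] at h5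
            exact absurd (Prod.ext h3 h5) hxy'
          · have h4 : x.1 = i := (hsome _ _).1 hx
            rw [h4]
        · obtain ⟨f, ⟨hf, h4, h5⟩, huniq⟩ := hB x.1 y.1 h3 x.2 y.2
          refine ⟨some '' {p | f p.1 = p.2}, ⟨Or.inl ⟨f, hf, rfl⟩, (hsome' _ _).2 h4,
            (hsome' _ _).2 h5⟩, ?_⟩
          rintro b ⟨⟨g, hg, rfl⟩ | ⟨i, rfl⟩, hx, hy⟩
          · rw [huniq g ⟨hg, (hsome' _ _).1 hx, (hsome' _ _).1 hy⟩]
          · have h6 : x.1 = i := (hsome _ _).1 hx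
            have h7 : y.1 = i := (hsome _ _).1 hy
            exact absurd (h6.trans h7.symm) h3
  · rintro b (⟨f, -, rfl⟩ | ⟨i, rfl⟩)
    · rwa [Set.ncard_image_of_injective _ (Option.some_injective _), cMul_graph]
    · rwa [Set.ncard_insert_of_notMem (by simp),
        Set.ncard_image_of_injective _ (Option.some_injective _), cMul_group]

end Pool.Agent.Helper69.WV
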