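import Mathlib
import Pool.Agent.Helper69.WV.St
import Pool.Agent.Helper69.WV.Basic

/-!
Project WV: truncated transversal designs in closed sets.
-/

set_option autoImplicit false

namespace Pool.Agent.Helper69.WV

/-- The graph of a row, with the point of the truncated last column if it survives. -/
private def cTrunc_graph {m t u : ℕ} (hu : u ≤ t) (f : Fin (m + 1) → Fin t) :
    Set ((Fin m × Fin t) ⊕ Fin u) :=
  {p | Sum.elim (fun q : Fin m × Fin t => f (Fin.castSucc q.1) = q.2)
    (fun s : Fin u => f (Fin.last m) = Fin.castLE hu s) p}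

private def cTrunc_group {m t : ℕ} (u : ℕ) (i : Fin m) : Set ((Fin m × Fin t) ⊕ Fin u) :=
  {p | Sum.elim (fun q : Fin m × Fin t => q.1 = i) (fun _ : Fin u => False) p}

private def cTrunc_last (m t u : ℕ) : Set ((Fin m × Fin t) ⊕ Fin u) :=
  {p | Sum.elim (fun _ : Fin m × Fin t => False) (fun _ : Fin u => True) p}

private theorem cTrunc_group_ncard {m t : ℕ} (u : ℕ) (i : Fin m) :
    (cTrunc_group u i : Set ((Fin m × Fin t) ⊕ Fin u)).ncard = t := by
  have h1 : (cTrunc_group u i : Set ((Fin m × Fin t) ⊕ Fin u)) =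
      (fun s : Fin t => Sum.inl (i, s)) '' Set.univ := by
    ext p
    rcases p with ⟨a, b⟩ | s
    · simp [cTrunc_group, eq_comm]
    · simp [cTrunc_group]
  rw [h1, Set.ncard_image_of_injective _ (fun a b h => by simpa using h), Set.ncard_univ,
    Nat.card_eq_fintype_card, Fintype.card_fin]

private theorem cTrunc_last_ncard (m t u : ℕ) : (cTrunc_last m t u).ncard = u := by
  have h1 : cTrunc_last m t u = Sum.inr '' Set.univ := by
    ext p
    rcases p with q | s
    · simp [cTrunc_last]
    · simp [cTrunc_last]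
  rw [h1, Set.ncard_image_of_injective _ Sum.inr_injective, Set.ncard_univ,
    Nat.card_eq_fintype_card, Fintype.card_fin]

private theorem cTrunc_graph_ncard {m t u : ℕ} (hu : u ≤ t) (f : Fin (m + 1) → Fin t) :
    (cTrunc_graph hu f).ncard = m ∨ (cTrunc_graph hu f).ncard = m + 1 := by
  have hinj : Function.Injective
      (fun i : Fin m => (Sum.inl (i, f (Fin.castSucc i)) : (Fin m × Fin t) ⊕ Fin u)) := by
    intro a b h
    have := Sum.inl_injective h
    exact congrArg Prod.fst this
  by_cases h : ∃ s : Fin u, f (Fin.last m) = Fin.castLE hu s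
  · right
    obtain ⟨s, hs⟩ := h
    have h1 : cTrunc_graph hu f = insert (Sum.inr s)
        ((fun i : Fin m => (Sum.inl (i, f (Fin.castSucc i)) : (Fin m × Fin t) ⊕ Fin u)) ''
          Set.univ) := by
      ext p
      rcases p with ⟨a, b⟩ | s'
      · simp [cTrunc_graph]
      · constructor
        · intro h2
          have h3 : f (Fin.last m) = Fin.castLE hu s' := h2
          rw [hs] at h3
          have h4 : s = s' := Fin.castLE_injective hu h3
          rw [h4]
          exact Set.mem_insert _ _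
        · intro h2
          rcases Set.mem_insert_iff.1 h2 with h3 | ⟨i, -, h3⟩
          · have h4 : s' = s := Sum.inr_injective h3
            rw [h4]
            exact hs
          · simp at h3
    rw [h1, Set.ncard_insert_of_notMem (by simp), Set.ncard_image_of_injective _ hinj,
      Set.ncard_univ, Nat.card_eq_fintype_card, Fintype.card_fin]
  · left
    have h1 : cTrunc_graph hu f =
        (fun i : Fin m => (Sum.inl (i, f (Fin.castSucc i)) : (Fin m × Fin t) ⊕ Fin u)) ''
          Set.univ := by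
      ext p
      rcases p with ⟨a, b⟩ | s'
      · simp [cTrunc_graph]
      · constructor
        · intro h2
          exact absurd ⟨s', h2⟩ h
        · rintro ⟨i, -, h3⟩
          simp at h3
    rw [h1, Set.ncard_image_of_injective _ hinj,
      Set.ncard_univ, Nat.card_eq_fintype_card, Fintype.card_fin]

theorem cTrunc : CTrunc := by
  rintro K ⟨h0, h1, hcl⟩ m t u hm hm1 ht huK hu ⟨B, hB⟩
  have h2 := hcl ((Fin m × Fin t) ⊕ Fin u)
    {b | (∃ f ∈ B, b = cTrunc_graph hu f) ∨ (∃ i : Fin m, b = cTrunc_group u i) ∨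
      b = cTrunc_last m t u} ?_ ?_
  · rwa [Nat.card_sum, Nat.card_prod, Nat.card_eq_fintype_card, Nat.card_eq_fintype_card,
      Nat.card_eq_fintype_card, Fintype.card_fin, Fintype.card_fin, Fintype.card_fin] at h2
  · have key : ∀ (q : Fin m × Fin t) (s : Fin u), ∃! b : Set ((Fin m × Fin t) ⊕ Fin u),
        b ∈ {b | (∃ f ∈ B, b = cTrunc_graph hu f) ∨ (∃ i : Fin m, b = cTrunc_group u i) ∨
          b = cTrunc_last m t u} ∧ Sum.inl q ∈ b ∧ Sum.inr s ∈ b := by
      intro q s
      obtain ⟨f, ⟨hf, h4, h5⟩, huniq⟩ := hB (Fin.castSucc q.1) (Fin.last m)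
        (Fin.castSucc_lt_last q.1).ne q.2 (Fin.castLE hu s)
      refine ⟨cTrunc_graph hu f, ⟨Or.inl ⟨f, hf, rfl⟩, h4, h5⟩, ?_⟩
      rintro b ⟨⟨g, hg, rfl⟩ | ⟨i, rfl⟩ | rfl, hx, hy⟩
      · rw [huniq g ⟨hg, hx, hy⟩]
      · exact (hy : False).elim
      · exact (hx : False).elim
    intro x y hxy
    rcases x with x | x
    · rcases y with y | y
      · by_cases h3 : x.1 = y.1
        · refine ⟨cTrunc_group u x.1, ⟨Or.inr (Or.inl ⟨x.1, rfl⟩), rfl, h3.symm⟩, ?_⟩
          rintro b ⟨⟨f, -, rfl⟩ | ⟨i, rfl⟩ | rfl, hx, hy⟩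
          · have h4 : f (Fin.castSucc x.1) = x.2 := hx
            have h5 : f (Fin.castSucc y.1) = y.2 := hy
            rw [← h3, h4] at h5
            exact absurd (congrArg Sum.inl (Prod.ext h3 h5)) hxy
          · have h4 : x.1 = i := hx
            rw [h4]
          · exact (hx : False).elim
        · obtain ⟨f, ⟨hf, h4, h5⟩, huniq⟩ := hB (Fin.castSucc x.1) (Fin.castSucc y.1)
            (fun h => h3 (Fin.castSucc_injective m h)) x.2 y.2
          refine ⟨cTrunc_graph hu f, ⟨Or.inl ⟨f, hf, rfl⟩, h4, h5⟩, ?_⟩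
          rintro b ⟨⟨g, hg, rfl⟩ | ⟨i, rfl⟩ | rfl, hx, hy⟩
          · rw [huniq g ⟨hg, hx, hy⟩]
          · have h6 : x.1 = i := hx
            have h7 : y.1 = i := hy
            exact absurd (h6.trans h7.symm) h3
          · exact (hx : False).elim
      · exact key x y
    · rcases y with y | y
      · obtain ⟨b, ⟨hb, hb1, hb2⟩, huniq⟩ := key y x
        exact ⟨b, ⟨hb, hb2, hb1⟩, fun b' hb' => huniq b' ⟨hb'.1, hb'.2.2, hb'.2.1⟩⟩
      · refine ⟨cTrunc_last m t u, ⟨Or.inr (Or.inr rfl), trivial, trivial⟩, ?_⟩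
        rintro b ⟨⟨f, -, rfl⟩ | ⟨i, rfl⟩ | rfl, hx, hy⟩
        · have h4 : f (Fin.last m) = Fin.castLE hu x := hx
          have h5 : f (Fin.last m) = Fin.castLE hu y := hy
          exact absurd (congrArg Sum.inr (Fin.castLE_injective hu (h4.symm.trans h5))) hxy
        · exact (hx : False).elim
        · rfl
  · rintro b (⟨f, -, rfl⟩ | ⟨i, rfl⟩ | rfl)
    · rcases cTrunc_graph_ncard hu f with h | h
      · rwa [h]
      · rwa [h]
    · rwa [cTrunc_group_ncard]
    · rwa [cTrunc_last_ncard]

end Pool.Agent.Helper69.WV
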