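import Mathlib
import Pool.Agent.Helper69.WV.St
import Pool.Agent.Helper69.WV.Basic

/-!
Project WV: the sets of orders are PBD-closed.
-/

set_option autoImplicit false

namespace Pool.Agent.Helper69.WV

theorem closedKR_card_coe {V : Type} (b : Set V) : Nat.card (↥b) = b.ncard :=
  Nat.card_coe_set_eq b

theorem closedK (hG : Glue) : ClosedK := by
  intro k l
  refine ⟨?_, ?_, ?_⟩
  · exact DD.trivial k l _ fun x => x.elim0
  · exact DD.trivial k l _ fun x y => Subsingleton.elim _ _
  · intro V _ B hB hK
    rw [← DD_id_iff]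
    refine hG k l V V inferInstance id (↥B) inferInstance (fun b => ↥(b.1)) (fun b => ↥(b.1))
      (fun b => id) (fun b => Subtype.val) (fun b => Subtype.val_injective) ?_ ?_ ?_
    · intro b
      rw [DD_id_iff, closedKR_card_coe]
      exact hK b.1 b.2
    · intro x y hxy
      obtain ⟨b, ⟨hb, hx, hy⟩, hu⟩ := hB x y hxy
      refine ⟨⟨b, hb⟩, ⟨⟨x, hx⟩, ⟨y, hy⟩, rfl, rfl, ?_⟩, ?_⟩
      · intro h
        exact hxy (congrArg Subtype.val h)
      · rintro ⟨c, hc⟩ ⟨x', y', hx', hy', -⟩
        apply Subtype.ext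
        refine hu c ⟨hc, ?_, ?_⟩
        · rw [← hx']
          exact x'.2
        · rw [← hy']
          exact y'.2
    · intro b x' y' h h2
      exact h (Subtype.ext h2)

theorem closedR (hG : Glue) : ClosedR := by
  intro k l w
  refine ⟨?_, ?_, ?_⟩
  · exact DD.trivial k l _ fun x => x.1.elim0
  · exact DD.trivial k l _ fun x y => Subsingleton.elim _ _
  · intro V _ B hB hK
    have key : DD k l (Prod.fst : V × Fin w → V) := by
      refine hG k l (V × Fin w) V inferInstance Prod.fst (↥B) inferInstance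
        (fun b => ↥(b.1) × Fin w) (fun b => ↥(b.1))
        (fun b => Prod.fst) (fun b p => (p.1.1, p.2)) ?_ ?_ ?_ ?_
      · rintro b ⟨p, s⟩ ⟨q, t⟩ h
        simp only [Prod.mk.injEq] at h
        exact Prod.ext (Subtype.ext h.1) h.2
      · intro b
        rw [DD_fst_iff, closedKR_card_coe, Nat.card_fin]
        exact hK b.1 b.2
      · rintro ⟨x, s⟩ ⟨y, t⟩ hxy
        obtain ⟨b, ⟨hb, hx, hy⟩, hu⟩ := hB x y hxy
        refine ⟨⟨b, hb⟩, ⟨(⟨x, hx⟩, s), (⟨y, hy⟩, t), rfl, rfl, ?_⟩, ?_⟩
        · intro h
          exact hxy (congrArg Subtype.val h)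
        · rintro ⟨c, hc⟩ ⟨x', y', hx', hy', -⟩
          apply Subtype.ext
          refine hu c ⟨hc, ?_, ?_⟩
          · have h1 := congrArg Prod.fst hx'
            simp only at h1
            rw [← h1]
            exact x'.1.2
          · have h1 := congrArg Prod.fst hy'
            simp only at h1
            rw [← h1]
            exact y'.1.2
      · intro b x' y' h h2
        exact h (Subtype.ext h2)
    rw [DD_fst_iff, Nat.card_fin] at key
    exact key

end Pool.Agent.Helper69.WV
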