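import Mathlib
import Pool.Agent.Helper69.WV.St
import Pool.Agent.Helper69.WV.Basic

/-!
Project WV, piece CY: cyclotomic construction of nice designs on `ZMod q`.
-/

set_option autoImplicit false

namespace Pool.Agent.Helper69.WV

/-- Number of ordered pairs `i < j` in `Fin k`. -/
private theorem cyclo_card_pairs (k : ℕ) :
    Nat.card {p : Fin k × Fin k // p.1 < p.2} = k * (k - 1) / 2 := by
  have e : {p : Fin k × Fin k // p.1 < p.2} ≃ Σ j : Fin k, Fin j.val :=
    { toFun := fun p => ⟨p.1.2, ⟨p.1.1.val, p.2⟩⟩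
      invFun := fun s => ⟨(⟨s.2.val, s.2.isLt.trans s.1.isLt⟩, s.1), s.2.isLt⟩
      left_inv := fun p => rfl
      right_inv := fun s => rfl }
  rw [Nat.card_congr e, Nat.card_sigma]
  simp only [Nat.card_eq_fintype_card, Fintype.card_fin]
  rw [Fin.sum_univ_eq_sum_range (fun j => j) k, Finset.sum_range_id]

private theorem cyclo_assign {A B Q : Type} [Fintype A] [Fintype B] [Fintype Q] [DecidableEq Q]
    (l : ℕ) (hl : 2 ≤ l) (hB : Fintype.card B ≤ Fintype.card Q)
    (h : Fintype.card A + 2 * Fintype.card B = l * Fintype.card Q) :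
    ∃ (ψ : A → Q) (φ : B → Q), ∀ κ, (∑ t, if ψ t = κ then 1 else 0) +
      2 * (∑ t, if φ t = κ then 1 else 0) = l := by
  classical
  obtain ⟨φ⟩ : Nonempty (B ↪ Q) := Function.Embedding.nonempty_of_card_le hB
  let R : Q → ℕ := fun κ => ∑ t, if φ t = κ then 1 else 0
  have hR1 : ∀ κ, R κ ≤ 1 := by
    intro κ
    simp only [R, ← Finset.card_filter]
    refine Finset.card_le_one.2 ?_
    intro a ha b hb
    simp only [Finset.mem_filter, Finset.mem_univ, true_and] at ha hb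
    exact φ.injective (ha.trans hb.symm)
  have hRs : ∑ κ, R κ = Fintype.card B := by
    simp only [R]
    rw [Finset.sum_comm]
    simp
  have hcard : Fintype.card (Σ κ : Q, Fin (l - 2 * R κ)) = Fintype.card A := by
    rw [Fintype.card_sigma]
    simp only [Fintype.card_fin]
    have h1 : ∑ κ, (l - 2 * R κ) + ∑ κ, 2 * R κ = l * Fintype.card Q := by
      rw [← Finset.sum_add_distrib]
      rw [Finset.sum_congr rfl (g := fun _ => l)]
      · simp [mul_comm]
      · intro κ _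
        have := hR1 κ
        omega
    rw [← Finset.mul_sum, hRs] at h1
    omega
  obtain ⟨e⟩ := Fintype.card_eq.1 hcard.symm
  refine ⟨fun t => (e t).1, φ, ?_⟩
  intro κ
  have h2 : (∑ t, if (e t).1 = κ then 1 else 0) = l - 2 * R κ := by
    rw [Equiv.sum_comp e (fun s : (Σ κ : Q, Fin (l - 2 * R κ)) => if s.1 = κ then 1 else 0)]
    rw [Fintype.sum_sigma]
    rw [Finset.sum_eq_single κ]
    · simp
    · intro b _ hb
      exact Finset.sum_eq_zero fun a _ => if_neg hb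
    · intro hcon
      exact absurd (Finset.mem_univ _) hcon
  rw [h2]
  have := hR1 κ
  change l - 2 * R κ + 2 * R κ = l
  omega

private theorem cyclo_sum_pr (k : ℕ) (g : Fin k → Fin k → ℕ) :
    (∑ p : {p : Fin k × Fin k // p.1 < p.2}, g p.1.1 p.1.2) =
      ∑ i, ∑ j, if i < j then g i j else 0 := by
  rw [← Fintype.sum_prod_type' (fun i j => if i < j then g i j else 0)]
  rw [← Finset.sum_filter]
  rw [Finset.sum_subtype (p := fun p : Fin k × Fin k => p.1 < p.2)]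
  intro x
  simp

private theorem cyclo_subgroup (q e : ℕ) (hq : q.Prime) (h : q ≡ 1 [MOD 2 * e]) :
    ∃ H : Subgroup (ZMod q)ˣ, H.index = e ∧ (-1 : (ZMod q)ˣ) ∈ H := by
  have : Fact q.Prime := ⟨hq⟩
  have hd : 2 * e ∣ q - 1 := (Nat.modEq_iff_dvd' hq.one_lt.le).1 h.symm
  refine ⟨(powMonoidHom e : (ZMod q)ˣ →* (ZMod q)ˣ).range, ?_, ?_⟩
  · rw [IsCyclic.index_powMonoidHom_range]
    rw [Nat.card_eq_fintype_card, ZMod.card_units]
    exact Nat.gcd_eq_right ((dvd_mul_left e 2).trans hd)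
  · obtain ⟨g, hg⟩ := IsCyclic.exists_generator (α := (ZMod q)ˣ)
    obtain ⟨j, hj⟩ := hg (-1)
    change g ^ j = -1 at hj
    have h1 : g ^ (2 * j) = 1 := by
      rw [mul_comm, zpow_mul, hj]
      norm_num
    have h2 : ((q - 1 : ℕ) : ℤ) ∣ 2 * j := by
      have := orderOf_dvd_iff_zpow_eq_one.2 h1
      rwa [orderOf_eq_card_of_forall_mem_zpowers hg, Nat.card_eq_fintype_card,
        ZMod.card_units] at this
    have h3 : ((2 * e : ℕ) : ℤ) ∣ 2 * j := (Int.natCast_dvd_natCast.2 hd).trans h2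
    obtain ⟨m, hm⟩ := h3
    push_cast at hm
    have h4 : j = e * m := by linarith
    refine ⟨g ^ m, ?_⟩
    rw [powMonoidHom_apply, ← zpow_natCast, ← zpow_mul, ← hj, h4, mul_comm]

private theorem cyclo_half (q : ℕ) [Fact q.Prime] (hodd : ¬ 2 ∣ q) (u : (ZMod q)ˣ) :
    (2 * (u : ZMod q).val < q) ↔ ¬ (2 * ((-u : (ZMod q)ˣ) : ZMod q).val < q) := by
  have h0 : (u : ZMod q) ≠ 0 := u.ne_zero
  rw [Units.val_neg, ZMod.neg_val, if_neg h0]
  have h1 := ZMod.val_lt (u : ZMod q)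
  omega

/-- The counting heart. -/
private theorem cyclo_count (q : ℕ) [Fact q.Prime] (hodd : ¬ 2 ∣ q) (H : Subgroup (ZMod q)ˣ)
    (hH : (-1 : (ZMod q)ˣ) ∈ H) (B : Type) (k : ℕ) (X : B → Fin k → ZMod q) (x y : ZMod q)
    (δ : (ZMod q)ˣ) (hδ : (δ : ZMod q) = y - x) :
    cc (fun (b : B × {u : (ZMod q)ˣ // u ∈ H ∧ 2 * (u : ZMod q).val < q} × ZMod q) (i : Fin k) =>
      ((b.2.1.1 : (ZMod q)ˣ) : ZMod q) * X b.1 i + b.2.2) x y =
    Nat.card {p : B × Fin k × Fin k // p.2.1 < p.2.2 ∧ ∃ u : (ZMod q)ˣ,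
      (u : (ZMod q)ˣ ⧸ H) = (δ : (ZMod q)ˣ ⧸ H) ∧ X p.1 p.2.2 - X p.1 p.2.1 = u} := by
  classical
  have hneg : ∀ u : (ZMod q)ˣ, u ∈ H → -u ∈ H := by
    intro u hu
    have := H.mul_mem hH hu
    simpa using this
  unfold cc
  have key : ∀ (h : (ZMod q)ˣ) (g a b : ZMod q), h ∈ H → (h : ZMod q) * a + g = x →
      (h : ZMod q) * b + g = y → (h : ZMod q) * (b - a) = δ := by
    intro h g a b _ h1 h2
    rw [hδ, ← h1, ← h2]; ring
  refine Nat.card_congr (Equiv.ofBijective (fun p => if hij : p.1.2.1 < p.1.2.2 then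
      ⟨(p.1.1.1, p.1.2.1, p.1.2.2), hij, (p.1.1.2.1.1)⁻¹ * δ, ?_, ?_⟩ else
      ⟨(p.1.1.1, p.1.2.2, p.1.2.1), ?_, -((p.1.1.2.1.1)⁻¹ * δ), ?_, ?_⟩) ⟨?_, ?_⟩)
  · rw [QuotientGroup.eq]
    have := p.1.1.2.1.2.1
    have h1 : (((p.1.1.2.1.1 : (ZMod q)ˣ))⁻¹ * δ)⁻¹ * δ = p.1.1.2.1.1 := by
      rw [mul_inv_rev, inv_inv]
      rw [mul_assoc, mul_comm, mul_assoc, mul_inv_cancel, mul_one]
    rw [h1]; exact this
  · have := key p.1.1.2.1.1 _ _ _ p.1.1.2.1.2.1 p.2.1 p.2.2
    rw [Units.val_mul, ← this, ← mul_assoc, ← Units.val_mul, inv_mul_cancel, Units.val_one, one_mul]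
  · have hne : p.1.2.1 ≠ p.1.2.2 := by
      intro he
      have := key p.1.1.2.1.1 _ _ _ p.1.1.2.1.2.1 p.2.1 p.2.2
      rw [he, sub_self, mul_zero] at this
      exact δ.ne_zero this.symm
    exact lt_of_le_of_ne (not_lt.1 hij) (Ne.symm hne)
  · rw [QuotientGroup.eq]
    have := hneg _ p.1.1.2.1.2.1
    have h1 : (-(((p.1.1.2.1.1 : (ZMod q)ˣ))⁻¹ * δ))⁻¹ * δ = -p.1.1.2.1.1 := by
      rw [inv_neg, mul_inv_rev, inv_inv, neg_mul]
      rw [mul_assoc, mul_comm, mul_assoc, mul_inv_cancel, mul_one]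
    rw [h1]; exact this
  · have := key p.1.1.2.1.1 _ _ _ p.1.1.2.1.2.1 p.2.1 p.2.2
    rw [Units.val_neg, Units.val_mul, ← this, ← mul_assoc, ← Units.val_mul, inv_mul_cancel,
      Units.val_one, one_mul]
    ring
  · rintro ⟨⟨⟨b, ⟨h, hh⟩, g⟩, i, j⟩, h1, h2⟩ ⟨⟨⟨b', ⟨h', hh'⟩, g'⟩, i', j'⟩, h1', h2'⟩ heq
    have e1 := key h g _ _ hh.1 h1 h2
    have e2 := key h' g' _ _ hh'.1 h1' h2'
    simp only at h1 h2 h1' h2' heq
    by_cases hij : i < j <;> by_cases hij' : i' < j'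
    · rw [dif_pos hij, dif_pos hij'] at heq
      simp only [Subtype.mk.injEq, Prod.mk.injEq] at heq
      obtain ⟨rfl, rfl, rfl⟩ := heq
      have hd : X b j - X b i ≠ 0 := by
        intro h0
        rw [h0, mul_zero] at e1
        exact δ.ne_zero e1.symm
      have hh0 : (h : ZMod q) = h' := mul_right_cancel₀ hd (e1.trans e2.symm)
      have hh1 : h = h' := Units.ext hh0
      subst hh1
      have : g = g' := by
        have := h1.trans h1'.symm
        exact add_left_cancel this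
      subst this
      rfl
    · rw [dif_pos hij, dif_neg hij'] at heq
      simp only [Subtype.mk.injEq, Prod.mk.injEq] at heq
      obtain ⟨rfl, rfl, rfl⟩ := heq
      exfalso
      have hd : X b j - X b i ≠ 0 := by
        intro h0
        rw [h0, mul_zero] at e1
        exact δ.ne_zero e1.symm
      have e3 : ((-h' : (ZMod q)ˣ) : ZMod q) * (X b j - X b i) = δ := by
        rw [← e2, Units.val_neg]; ring
      have hh1 : h = -h' := Units.ext (mul_right_cancel₀ hd (e1.trans e3.symm))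
      exact (cyclo_half q hodd h').1 hh'.2 (hh1 ▸ hh.2)
    · rw [dif_neg hij, dif_pos hij'] at heq
      simp only [Subtype.mk.injEq, Prod.mk.injEq] at heq
      obtain ⟨rfl, rfl, rfl⟩ := heq
      exfalso
      have hd : X b j - X b i ≠ 0 := by
        intro h0
        rw [h0, mul_zero] at e1
        exact δ.ne_zero e1.symm
      have e3 : ((-h' : (ZMod q)ˣ) : ZMod q) * (X b j - X b i) = δ := by
        rw [← e2, Units.val_neg]; ring
      have hh1 : h = -h' := Units.ext (mul_right_cancel₀ hd (e1.trans e3.symm))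
      exact (cyclo_half q hodd h').1 hh'.2 (hh1 ▸ hh.2)
    · rw [dif_neg hij, dif_neg hij'] at heq
      simp only [Subtype.mk.injEq, Prod.mk.injEq] at heq
      obtain ⟨rfl, rfl, rfl⟩ := heq
      have hd : X b j - X b i ≠ 0 := by
        intro h0
        rw [h0, mul_zero] at e1
        exact δ.ne_zero e1.symm
      have hh0 : (h : ZMod q) = h' := mul_right_cancel₀ hd (e1.trans e2.symm)
      have hh1 : h = h' := Units.ext hh0
      subst hh1
      have : g = g' := by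
        have := h1.trans h1'.symm
        exact add_left_cancel this
      subst this
      rfl
  · rintro ⟨⟨b, i, j⟩, hij, u, hu, hXu⟩
    simp only at hij hXu
    have hmem : u⁻¹ * δ ∈ H := QuotientGroup.eq.1 hu
    have hval : ((u⁻¹ * δ : (ZMod q)ˣ) : ZMod q) * u = δ := by
      rw [← Units.val_mul, mul_comm u⁻¹, mul_assoc, inv_mul_cancel, mul_one]
    by_cases hS : 2 * ((u⁻¹ * δ : (ZMod q)ˣ) : ZMod q).val < q
    · refine ⟨⟨⟨⟨b, ⟨u⁻¹ * δ, hmem, hS⟩, x - ((u⁻¹ * δ : (ZMod q)ˣ) : ZMod q) * X b i⟩, i, j⟩,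
        ?_, ?_⟩, ?_⟩
      · simp only; ring
      · simp only
        have : ((u⁻¹ * δ : (ZMod q)ˣ) : ZMod q) * X b j +
          (x - ((u⁻¹ * δ : (ZMod q)ˣ) : ZMod q) * X b i) =
          ((u⁻¹ * δ : (ZMod q)ˣ) : ZMod q) * (X b j - X b i) + x := by ring
        rw [this, hXu, hval, hδ]; ring
      · simp only [hij, dif_pos]
    · have hS' : 2 * ((-(u⁻¹ * δ) : (ZMod q)ˣ) : ZMod q).val < q := by
        by_contra hcon
        exact hS ((cyclo_half q hodd _).2 hcon)
      refine ⟨⟨⟨⟨b, ⟨-(u⁻¹ * δ), hneg _ hmem, hS'⟩,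
        x - ((-(u⁻¹ * δ) : (ZMod q)ˣ) : ZMod q) * X b j⟩, j, i⟩, ?_, ?_⟩, ?_⟩
      · simp only; ring
      · simp only
        have : ((-(u⁻¹ * δ) : (ZMod q)ˣ) : ZMod q) * X b i +
          (x - ((-(u⁻¹ * δ) : (ZMod q)ˣ) : ZMod q) * X b j) =
          ((u⁻¹ * δ : (ZMod q)ˣ) : ZMod q) * (X b j - X b i) + x := by
          rw [Units.val_neg]; ring
        rw [this, hXu, hval, hδ]; ring
      · simp only [not_lt.2 hij.le, dif_neg, not_false_eq_true]

private theorem cyclo_sum2 (n : ℕ) (f : Fin (n + 3) → ℕ) :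
    (∑ i, f i) = f 0 + (f (Fin.succ 0) + ∑ s : Fin (n + 1), f s.succ.succ) := by
  rw [Fin.sum_univ_succ, Fin.sum_univ_succ]

private theorem cyclo_iff {q : ℕ} {H : Subgroup (ZMod q)ˣ} {c κ : (ZMod q)ˣ ⧸ H} {d : ZMod q}
    (h : ∃ u : (ZMod q)ˣ, (u : (ZMod q)ˣ ⧸ H) = c ∧ d = u) :
    (∃ u : (ZMod q)ˣ, (u : (ZMod q)ˣ ⧸ H) = κ ∧ d = u) ↔ c = κ := by
  obtain ⟨u, hu, hd⟩ := h
  constructor
  · rintro ⟨v, hv, hdv⟩
    have : u = v := Units.ext (hd.symm.trans hdv)
    rw [← hu, this, hv]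
  · intro hc
    exact ⟨u, hu.trans hc, hd⟩

private theorem cyclo_two (q : ℕ) [Fact q.Prime] (hodd : ¬ 2 ∣ q) (e : ℕ) (he : 0 < e)
    (hq4 : 4 * e + 1 ≤ q)
    (H : Subgroup (ZMod q)ˣ) (hH : (-1 : (ZMod q)ˣ) ∈ H) (hHe : H.index = e) :
    ∃ s t : (ZMod q)ˣ, s ≠ t ∧ (s ∈ H ∧ 2 * (s : ZMod q).val < q) ∧
      (t ∈ H ∧ 2 * (t : ZMod q).val < q) := by
  have hneg : ∀ u : (ZMod q)ˣ, u ∈ H → -u ∈ H := by
    intro u hu
    have := H.mul_mem hH hu
    simpa using this
  have hcard : 2 < Nat.card H := by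
    have h1 := H.card_mul_index
    rw [hHe, Nat.card_eq_fintype_card (α := (ZMod q)ˣ), ZMod.card_units] at h1
    by_contra hcon
    have h2 : Nat.card H * e ≤ 2 * e := Nat.mul_le_mul_right _ (not_lt.1 hcon)
    omega
  obtain ⟨h2, h2H, h21, h22⟩ : ∃ u ∈ H, u ≠ 1 ∧ u ≠ -1 := by
    by_contra hcon
    push Not at hcon
    have hsub : (H : Set (ZMod q)ˣ) ⊆ {1, -1} := by
      intro u hu
      by_cases hu1 : u = 1
      · simp [hu1]
      · simp [hcon u hu hu1]
    have h3 := Set.ncard_le_ncard hsub (Set.toFinite _)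
    have h4 : Set.ncard (H : Set (ZMod q)ˣ) = Nat.card H := rfl
    have h5 : Set.ncard ({1, -1} : Set (ZMod q)ˣ) ≤ 2 := Set.ncard_insert_le _ _ |>.trans (by simp)
    omega
  have half : ∀ u ∈ H, ∃ s, (s ∈ H ∧ 2 * (s : ZMod q).val < q) ∧ (s = u ∨ s = -u) := by
    intro u hu
    by_cases h : 2 * (u : ZMod q).val < q
    · exact ⟨u, ⟨hu, h⟩, Or.inl rfl⟩
    · refine ⟨-u, ⟨hneg u hu, ?_⟩, Or.inr rfl⟩
      by_contra hcon
      exact h ((cyclo_half q hodd u).2 hcon)
  obtain ⟨s, hs, hs1⟩ := half 1 H.one_mem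
  obtain ⟨t, ht, ht1⟩ := half h2 h2H
  refine ⟨s, t, ?_, hs, ht⟩
  intro hst
  rcases hs1 with hs1 | hs1 <;> rcases ht1 with ht1 | ht1
  · exact h21 (by rw [← ht1, ← hst, hs1])
  · exact h22 (by rw [← hs1, hst, ht1, neg_neg])
  · exact h22 (by rw [← ht1, ← hst, hs1])
  · exact h21 (neg_injective (by rw [← ht1, ← hst, hs1]))

private theorem cyclo_numbers (n l e : ℕ) (hl : 2 ≤ l)
    (hCe : ((n + 3) * (n + 2) / 2) ^ 2 ≤ e) :
    ∃ x y : ℕ, 0 < y ∧ y * (n + 1) ≤ e ∧
      (x * ((n + 3) * (n + 3 - 1) / 2) + y * ((n + 1) * (n + 1 - 1) / 2)) + 2 * (y * (n + 1)) =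
        l * e := by
  have hCC : (n + 3) * (n + 2) / 2 = (n + 1) * n / 2 + 2 * (n + 1) + 1 := by
    have : (n + 3) * (n + 2) = (n + 1) * n + 2 * (2 * (n + 1) + 1) := by ring
    rw [this, Nat.add_mul_div_left _ _ (by norm_num)]
    ring
  set C := (n + 3) * (n + 2) / 2 with hC
  set D := (n + 1) * n / 2 with hD
  have hCpos : 0 < C := by omega
  have hr : l * e % C < C := Nat.mod_lt _ hCpos
  have hdm := Nat.div_add_mod (l * e) C
  set m := l * e / C with hm
  set r := l * e % C with hr'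
  have hle : 2 * e ≤ l * e := Nat.mul_le_mul_right _ hl
  have hCe2 : C * C ≤ e := by rw [← sq]; exact hCe
  have hmC : C ≤ m := by
    by_contra hcon
    push Not at hcon
    have h1 : C * m ≤ C * C := Nat.mul_le_mul_left _ hcon.le
    have h2 : C ≤ C * C := Nat.le_mul_of_pos_left _ hCpos
    omega
  refine ⟨m + 1 - (C - r), C - r, by omega, ?_, ?_⟩
  · calc (C - r) * (n + 1) ≤ C * C := Nat.mul_le_mul (by omega) (by omega)
      _ ≤ e := hCe2
  · have e1 : (n + 3) * (n + 3 - 1) / 2 = C := rfl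
    have e2 : (n + 1) * (n + 1 - 1) / 2 = D := rfl
    rw [e1, e2]
    obtain ⟨y, hy⟩ : ∃ y, y = C - r := ⟨_, rfl⟩
    obtain ⟨x, hx⟩ : ∃ x, x = m + 1 - (C - r) := ⟨_, rfl⟩
    rw [← hx, ← hy]
    have hxy : x + y = m + 1 := by omega
    have h3 : C * (x + y) = l * e + y := by
      rw [hxy, mul_add, mul_one]
      omega
    have h4 : x * C + y * D + 2 * (y * (n + 1)) + y = C * (x + y) := by
      rw [hCC]; ring
    omega

/-- The cyclotomic construction. -/
theorem cyclo (hGr : Greedy) : Cyclo := by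
  classical
  intro n l e hl hCe
  have he : 0 < e := by
    have h1 : 0 < (n + 3) * (n + 2) / 2 := by
      apply Nat.div_pos _ (by norm_num)
      nlinarith
    have h2 : 0 < ((n + 3) * (n + 2) / 2) ^ 2 := by positivity
    omega
  obtain ⟨q1, hq1⟩ := hGr (n + 3) e he
  obtain ⟨q2, hq2⟩ := hGr (n + 2) e he
  refine ⟨max (max q1 q2) (4 * e + 1), ?_⟩
  intro q hq hqq hmod
  have hfact : Fact q.Prime := ⟨hq⟩
  have hqq1 : q1 ≤ q := (le_max_left _ _).trans ((le_max_left _ _).trans hqq)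
  have hqq2 : q2 ≤ q := (le_max_right _ _).trans ((le_max_left _ _).trans hqq)
  have hqq4 : 4 * e + 1 ≤ q := (le_max_right _ _).trans hqq
  obtain ⟨H, hHe, hHn⟩ := cyclo_subgroup q e hq hmod
  have hodd : ¬ 2 ∣ q := by
    intro h2
    have := (Nat.prime_dvd_prime_iff_eq Nat.prime_two hq).1 h2
    omega
  have hcardF : Nat.card (ZMod q) = q := Nat.card_zmod q
  have : Fintype ((ZMod q)ˣ ⧸ H) := Fintype.ofFinite _
  have hQ : Fintype.card ((ZMod q)ˣ ⧸ H) = e := by
    rw [← Nat.card_eq_fintype_card]; exact hHe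
  obtain ⟨x, y, hy, hye, hxy⟩ := cyclo_numbers n l e hl hCe
  obtain ⟨ψ, φ, hψφ⟩ := cyclo_assign
    (A := (Fin x × {p : Fin (n + 3) × Fin (n + 3) // p.1 < p.2}) ⊕
      (Fin y × {p : Fin (n + 1) × Fin (n + 1) // p.1 < p.2}))
    (B := Fin y × Fin (n + 1)) (Q := (ZMod q)ˣ ⧸ H) l hl
    (by rw [hQ, Fintype.card_prod, Fintype.card_fin, Fintype.card_fin]; exact hye)
    (by
      rw [hQ, Fintype.card_sum, Fintype.card_prod, Fintype.card_prod, Fintype.card_prod,
        ← Nat.card_eq_fintype_card (α := {p : Fin (n + 3) × Fin (n + 3) // p.1 < p.2}),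
        ← Nat.card_eq_fintype_card (α := {p : Fin (n + 1) × Fin (n + 1) // p.1 < p.2}),
        cyclo_card_pairs, cyclo_card_pairs, Fintype.card_fin, Fintype.card_fin, Fintype.card_fin]
      exact hxy)
  let c1 : Fin x → Fin (n + 3) → Fin (n + 3) → (ZMod q)ˣ ⧸ H := fun a i j =>
    if h : i < j then ψ (Sum.inl (a, ⟨(i, j), h⟩)) else 1
  let c3 : Fin y → Fin (n + 1) → Fin (n + 1) → (ZMod q)ˣ ⧸ H := fun a i j =>
    if h : i < j then ψ (Sum.inr (a, ⟨(i, j), h⟩)) else 1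
  let c2 : Fin y → Fin (n + 2) → Fin (n + 2) → (ZMod q)ˣ ⧸ H := fun a i j =>
    Fin.cases (motive := fun _ => (ZMod q)ˣ ⧸ H)
      (Fin.cases (motive := fun _ => (ZMod q)ˣ ⧸ H) 1 (fun s => φ (a, s)) j)
      (fun r => Fin.cases (motive := fun _ => (ZMod q)ˣ ⧸ H) 1 (fun s => c3 a r s) j) i
  choose X1 hX1 using fun a => hq1 (ZMod q) inferInstance inferInstance H hHe
    (by rw [hcardF]; exact hqq1) (c1 a)
  choose X2 hX2 using fun a => hq2 (ZMod q) inferInstance inferInstance H hHe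
    (by rw [hcardF]; exact hqq2) (c2 a)
  let X : Fin x ⊕ Fin y → Fin (n + 3) → ZMod q :=
    Sum.elim X1 (fun a => Fin.cons (X2 a 0) (X2 a))
  have hXne : ∀ b i j, i < j → X b i = X b j → i = 0 ∧ j = 1 := by
    rintro (a | a) i j hij heq
    · obtain ⟨u, _, hu⟩ := hX1 a i j hij
      exfalso
      change X1 a i = X1 a j at heq
      rw [heq, sub_self] at hu
      exact u.ne_zero hu.symm
    · change (Fin.cons (X2 a 0) (X2 a) : Fin (n + 3) → ZMod q) i =
        (Fin.cons (X2 a 0) (X2 a) : Fin (n + 3) → ZMod q) j at heq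
      induction j using Fin.cases with
      | zero => exact absurd hij (Fin.not_lt_zero _)
      | succ j =>
        induction i using Fin.cases with
        | zero =>
          rw [Fin.cons_zero, Fin.cons_succ] at heq
          by_cases hj : j = 0
          · exact ⟨rfl, by rw [hj]; rfl⟩
          · obtain ⟨u, _, hu⟩ := hX2 a 0 j (Fin.pos_of_ne_zero hj)
            rw [heq, sub_self] at hu
            exact absurd hu.symm u.ne_zero
        | succ i =>
          rw [Fin.cons_succ, Fin.cons_succ] at heq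
          obtain ⟨u, _, hu⟩ := hX2 a i j (Fin.succ_lt_succ_iff.1 hij)
          rw [heq, sub_self] at hu
          exact absurd hu.symm u.ne_zero
  refine ⟨(Fin x ⊕ Fin y) × {u : (ZMod q)ˣ // u ∈ H ∧ 2 * (u : ZMod q).val < q} × ZMod q,
    inferInstance, fun b i => ((b.2.1.1 : (ZMod q)ˣ) : ZMod q) * X b.1 i + b.2.2, ?_, ?_, ?_⟩
  · intro b i j hij heq
    refine hXne b.1 i j hij ?_
    exact mul_left_cancel₀ (Units.ne_zero _) (add_right_cancel heq)
  · intro p r hpr
    have hδ0 : r - p ≠ 0 := sub_ne_zero.2 (Ne.symm hpr)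
    rw [cyclo_count q hodd H hHn (Fin x ⊕ Fin y) (n + 3) X p r (Units.mk0 (r - p) hδ0)
      (Units.val_mk0 hδ0)]
    generalize ((Units.mk0 (r - p) hδ0 : (ZMod q)ˣ) : (ZMod q)ˣ ⧸ H) = κ
    rw [← hψφ κ, Nat.card_eq_fintype_card, Fintype.card_subtype, Finset.card_filter,
      Fintype.sum_prod_type, Fintype.sum_sum_type, Fintype.sum_sum_type, Fintype.sum_prod_type,
      Fintype.sum_prod_type, Fintype.sum_prod_type, add_assoc]
    congr 1
    · refine Finset.sum_congr rfl fun a _ => ?_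
      have h1 := cyclo_sum_pr (n + 3) (fun i j => if c1 a i j = κ then 1 else 0)
      have h2 : (∑ p : {p : Fin (n + 3) × Fin (n + 3) // p.1 < p.2},
          if c1 a p.1.1 p.1.2 = κ then 1 else 0) =
          ∑ p : {p : Fin (n + 3) × Fin (n + 3) // p.1 < p.2},
            if ψ (Sum.inl (a, p)) = κ then 1 else 0 := by
        refine Finset.sum_congr rfl fun p _ => ?_
        have : c1 a p.1.1 p.1.2 = ψ (Sum.inl (a, p)) := dif_pos p.2
        rw [this]
      rw [← h2, h1, Fintype.sum_prod_type]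
      refine Finset.sum_congr rfl fun i _ => Finset.sum_congr rfl fun j _ => ?_
      by_cases hij : i < j
      · have h3 := cyclo_iff (κ := κ) (hX1 a i j hij)
        rw [if_pos hij]
        by_cases hc : c1 a i j = κ
        · rw [if_pos hc]
          exact if_pos ⟨hij, h3.2 hc⟩
        · rw [if_neg hc]
          exact if_neg fun h => hc (h3.1 h.2)
      · rw [if_neg hij, if_neg (fun h => hij h.1)]
    · rw [Finset.mul_sum, ← Finset.sum_add_distrib]
      refine Finset.sum_congr rfl fun a _ => ?_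
      have h1 := cyclo_sum_pr (n + 1) (fun i j => if c3 a i j = κ then 1 else 0)
      have h2 : (∑ p : {p : Fin (n + 1) × Fin (n + 1) // p.1 < p.2},
          if c3 a p.1.1 p.1.2 = κ then 1 else 0) =
          ∑ p : {p : Fin (n + 1) × Fin (n + 1) // p.1 < p.2},
            if ψ (Sum.inr (a, p)) = κ then 1 else 0 := by
        refine Finset.sum_congr rfl fun p _ => ?_
        have : c3 a p.1.1 p.1.2 = ψ (Sum.inr (a, p)) := dif_pos p.2
        rw [this]
      rw [← h2, h1, Fintype.sum_prod_type]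
      have hP : ∀ i j : Fin (n + 3), i < j → ∀ c : (ZMod q)ˣ ⧸ H,
          (∃ u : (ZMod q)ˣ, (u : (ZMod q)ˣ ⧸ H) = c ∧ X (Sum.inr a) j - X (Sum.inr a) i = u) →
          (if i < j ∧ ∃ u : (ZMod q)ˣ, (u : (ZMod q)ˣ ⧸ H) = κ ∧
            X (Sum.inr a) j - X (Sum.inr a) i = u then 1 else 0) =
            if c = κ then 1 else 0 := by
        intro i j hij c hc
        have h3 := cyclo_iff (κ := κ) hc
        by_cases hcκ : c = κ
        · rw [if_pos hcκ]
          exact if_pos ⟨hij, h3.2 hcκ⟩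
        · rw [if_neg hcκ]
          exact if_neg fun h => hcκ (h3.1 h.2)
      have hN : ∀ i j : Fin (n + 3), ¬ i < j →
          (if i < j ∧ ∃ u : (ZMod q)ˣ, (u : (ZMod q)ˣ ⧸ H) = κ ∧
            X (Sum.inr a) j - X (Sum.inr a) i = u then 1 else 0) = 0 := by
        intro i j hij
        exact if_neg fun h => hij h.1
      set g : Fin (n + 3) → Fin (n + 3) → ℕ := fun i j =>
        (if i < j ∧ ∃ u : (ZMod q)ˣ, (u : (ZMod q)ˣ ⧸ H) = κ ∧
            X (Sum.inr a) j - X (Sum.inr a) i = u then 1 else 0) with hg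
      change (∑ i, ∑ j, g i j) = _
      have g00 : g 0 0 = 0 := hN _ _ (lt_irrefl _)
      have g01 : g 0 (Fin.succ 0) = 0 := by
        refine if_neg ?_
        rintro ⟨_, u, _, hu⟩
        have h0 : X (Sum.inr a) (Fin.succ 0) - X (Sum.inr a) 0 = 0 := by
          change X2 a 0 - X2 a 0 = 0
          exact sub_self _
        rw [h0] at hu
        exact u.ne_zero hu.symm
      have g0s : ∀ s : Fin (n + 1), g 0 s.succ.succ = if φ (a, s) = κ then 1 else 0 := by
        intro s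
        exact hP _ _ (Fin.succ_pos _) (φ (a, s)) (hX2 a 0 s.succ (Fin.succ_pos _))
      have g10 : g (Fin.succ 0) 0 = 0 := hN _ _ (Fin.not_lt_zero _)
      have g11 : g (Fin.succ 0) (Fin.succ 0) = 0 := hN _ _ (lt_irrefl _)
      have g1s : ∀ s : Fin (n + 1), g (Fin.succ 0) s.succ.succ =
          if φ (a, s) = κ then 1 else 0 := by
        intro s
        exact hP _ _ (Fin.succ_lt_succ_iff.2 (Fin.succ_pos _)) (φ (a, s))
          (hX2 a 0 s.succ (Fin.succ_pos _))
      have gr0 : ∀ r : Fin (n + 1), g r.succ.succ 0 = 0 := fun r => hN _ _ (Fin.not_lt_zero _)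
      have gr1 : ∀ r : Fin (n + 1), g r.succ.succ (Fin.succ 0) = 0 := fun r =>
        hN _ _ fun h => absurd (Fin.succ_lt_succ_iff.1 h) (Fin.not_lt_zero _)
      have grs : ∀ r s : Fin (n + 1), g r.succ.succ s.succ.succ =
          if r < s then (if c3 a r s = κ then 1 else 0) else 0 := by
        intro r s
        by_cases hrs : r < s
        · rw [if_pos hrs]
          exact hP _ _ (Fin.succ_lt_succ_iff.2 (Fin.succ_lt_succ_iff.2 hrs)) (c3 a r s)
            (hX2 a r.succ s.succ (Fin.succ_lt_succ_iff.2 hrs))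
        · rw [if_neg hrs]
          exact hN _ _ fun h => hrs (Fin.succ_lt_succ_iff.1 (Fin.succ_lt_succ_iff.1 h))
      rw [cyclo_sum2, cyclo_sum2, cyclo_sum2, g00, g01, g10, g11]
      simp only [cyclo_sum2 n (g _), g0s, g1s, gr0, gr1, grs]
      simp only [zero_add, two_mul, ← add_assoc]
      rw [add_comm]
      simp only [add_assoc]
  · intro a
    obtain ⟨s, t, hst, hs, ht⟩ := cyclo_two q hodd e he hqq4 H hHn hHe
    refine ⟨(Sum.inr ⟨0, hy⟩, ⟨s, hs⟩, a - (s : ZMod q) * X (Sum.inr ⟨0, hy⟩) 0),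
      (Sum.inr ⟨0, hy⟩, ⟨t, ht⟩, a - (t : ZMod q) * X (Sum.inr ⟨0, hy⟩) 0), ?_, ?_, ?_, ?_, ?_⟩
    · intro h
      exact hst (congrArg Subtype.val (congrArg (fun z => z.2.1) h))
    · simp only; ring
    · have : X (Sum.inr ⟨0, hy⟩) 1 = X (Sum.inr ⟨0, hy⟩) 0 := rfl
      simp only [this]; ring
    · simp only; ring
    · have : X (Sum.inr ⟨0, hy⟩) 1 = X (Sum.inr ⟨0, hy⟩) 0 := rfl
      simp only [this]; ring

end Pool.Agent.Helper69.WV
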