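import Mathlib
import Pool.Agent.Helper69.WV.St
import Pool.Agent.Helper69.WV.Basic

/-!
Project WV: the affine plane of order `q` without one point. The points are the pairs of a point
of the line at infinity (`Option F`) and a unit; the blocks are the affine lines that miss the
origin, each filled with a VB design on `q` points.
-/

set_option autoImplicit false

namespace Pool.Agent.Helper69.WV

/-- The nonzero vector with the given direction and the given scale. -/
private def evenElt_vec {F : Type} [Field F] (p : Option F × Fˣ) : F × F :=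
  p.1.elim (0, (p.2 : F)) fun s => ((p.2 : F), s * (p.2 : F))

private theorem evenElt_vec_none {F : Type} [Field F] (t : Fˣ) :
    evenElt_vec ((none : Option F), t) = (0, (t : F)) := rfl

private theorem evenElt_vec_some {F : Type} [Field F] (s : F) (t : Fˣ) :
    evenElt_vec (some s, t) = ((t : F), s * (t : F)) := rfl

private theorem evenElt_vec_inj {F : Type} [Field F] :
    Function.Injective (evenElt_vec : Option F × Fˣ → F × F) := by
  rintro ⟨a, t⟩ ⟨b, u⟩ h
  rcases a with _ | s <;> rcases b with _ | r
  · simp only [evenElt_vec_none, Prod.mk.injEq] at h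
    rw [Units.ext h.2]
  · simp only [evenElt_vec_none, evenElt_vec_some, Prod.mk.injEq] at h
    exact absurd h.1.symm u.ne_zero
  · simp only [evenElt_vec_none, evenElt_vec_some, Prod.mk.injEq] at h
    exact absurd h.1 t.ne_zero
  · simp only [evenElt_vec_some, Prod.mk.injEq] at h
    obtain ⟨h1, h2⟩ := h
    obtain rfl : t = u := Units.ext h1
    have : s = r := mul_right_cancel₀ t.ne_zero h2
    rw [this]

private theorem evenElt_vec_surj {F : Type} [Field F] (v : F × F) (hv : v ≠ 0) :
    ∃ p, evenElt_vec p = v := by
  obtain ⟨x, y⟩ := v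
  by_cases hx : x = 0
  · subst hx
    have hy : y ≠ 0 := by
      rintro rfl
      exact hv rfl
    exact ⟨(none, Units.mk0 y hy), by rw [evenElt_vec_none]; rfl⟩
  · refine ⟨(some (y / x), Units.mk0 x hx), ?_⟩
    rw [evenElt_vec_some]
    simp only [Units.val_mk0, Prod.mk.injEq, true_and]
    field_simp

/-- Points of different groups are linearly independent. -/
private theorem evenElt_det {F : Type} [Field F] (p r : Option F × Fˣ) (h : p.1 ≠ r.1) :
    (evenElt_vec p).1 * (evenElt_vec r).2 - (evenElt_vec p).2 * (evenElt_vec r).1 ≠ 0 := by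
  obtain ⟨a, t⟩ := p
  obtain ⟨b, u⟩ := r
  have ht := t.ne_zero
  have hu := u.ne_zero
  rcases a with _ | s <;> rcases b with _ | r
  · exact absurd rfl h
  · simp only [evenElt_vec_none, evenElt_vec_some, zero_mul, zero_sub]
    exact neg_ne_zero.2 (mul_ne_zero ht hu)
  · simp only [evenElt_vec_none, evenElt_vec_some, mul_zero, sub_zero]
    exact mul_ne_zero ht hu
  · simp only [evenElt_vec_some]
    have hsr : s ≠ r := fun hh => h (by rw [hh])
    have : (t : F) * (r * u) - s * t * u = (r - s) * (t * u) := by ring
    rw [this]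
    exact mul_ne_zero (sub_ne_zero.2 hsr.symm) (mul_ne_zero ht hu)

/-- Two points of the same group on a line that misses the origin are equal. -/
private theorem evenElt_same {F : Type} [Field F] (a b : F) (p r : Option F × Fˣ)
    (h : p.1 = r.1) (hp : a * (evenElt_vec p).1 + b * (evenElt_vec p).2 = 1)
    (hr : a * (evenElt_vec r).1 + b * (evenElt_vec r).2 = 1) : p = r := by
  obtain ⟨c, t⟩ := p
  obtain ⟨d, u⟩ := r
  obtain rfl : c = d := h
  rcases c with _ | s
  · simp only [evenElt_vec_none, mul_zero, zero_add] at hp hr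
    have hb : b ≠ 0 := by
      rintro rfl
      simp at hp
    have : (t : F) = u := mul_left_cancel₀ hb (hp.trans hr.symm)
    rw [Units.ext this]
  · simp only [evenElt_vec_some] at hp hr
    have e1 : (a + b * s) * t = 1 := by linear_combination hp
    have e2 : (a + b * s) * u = 1 := by linear_combination hr
    have hb : a + b * s ≠ 0 := by
      intro h0
      rw [h0] at e1
      simp at e1
    have : (t : F) = u := mul_left_cancel₀ hb (e1.trans e2.symm)
    rw [Units.ext this]

/-- A line that misses the origin has as many points as the field. -/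
private theorem evenElt_card {F : Type} [Field F] (a b : F) (hab : ¬ (a = 0 ∧ b = 0)) :
    Nat.card {p : Option F × Fˣ // a * (evenElt_vec p).1 + b * (evenElt_vec p).2 = 1} =
      Nat.card F := by
  by_cases hb : b = 0
  · subst hb
    have ha : a ≠ 0 := fun h => hab ⟨h, rfl⟩
    refine Nat.card_eq_of_bijective (fun p => (evenElt_vec p.1).2) ⟨?_, ?_⟩
    · rintro ⟨p, hp⟩ ⟨r, hr⟩ h
      apply Subtype.ext
      apply evenElt_vec_inj
      have h2 : (evenElt_vec p).2 = (evenElt_vec r).2 := h
      refine Prod.ext ?_ h2
      refine mul_left_cancel₀ ha ?_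
      linear_combination hp - hr
    · intro y
      obtain ⟨p, hp⟩ := evenElt_vec_surj (F := F) (a⁻¹, y) (by
        intro h
        have h1 : a⁻¹ = 0 := congrArg Prod.fst h
        exact inv_ne_zero ha h1)
      refine ⟨⟨p, ?_⟩, ?_⟩
      · rw [hp]
        simp [ha]
      · change (evenElt_vec p).2 = y
        rw [hp]
  · refine Nat.card_eq_of_bijective (fun p => (evenElt_vec p.1).1) ⟨?_, ?_⟩
    · rintro ⟨p, hp⟩ ⟨r, hr⟩ h
      apply Subtype.ext
      apply evenElt_vec_inj
      have h2 : (evenElt_vec p).1 = (evenElt_vec r).1 := h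
      refine Prod.ext h2 ?_
      refine mul_left_cancel₀ hb ?_
      rw [h2] at hp
      linear_combination hp - hr
    · intro x
      obtain ⟨p, hp⟩ := evenElt_vec_surj (F := F) (x, (1 - a * x) / b) (by
        intro h
        have h1 : x = 0 := congrArg Prod.fst h
        have h2 : (1 - a * x) / b = 0 := congrArg Prod.snd h
        rw [h1] at h2
        simp [hb] at h2)
      refine ⟨⟨p, ?_⟩, ?_⟩
      · rw [hp]
        simp only
        field_simp
        ring
      · change (evenElt_vec p).1 = x
        rw [hp]

theorem evenElt (hG : Glue) : EvenElt := by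
  intro k l q hq hK
  have : Fact q.Prime := ⟨hq⟩
  have hcF : Nat.card (ZMod q) = q := Nat.card_zmod q
  have hfin : Finite (Option (ZMod q) × (ZMod q)ˣ) := inferInstance
  have key : DD k l (Prod.fst : Option (ZMod q) × (ZMod q)ˣ → Option (ZMod q)) := by
    refine hG k l (Option (ZMod q) × (ZMod q)ˣ) (Option (ZMod q)) hfin Prod.fst
      {c : ZMod q × ZMod q // ¬ (c.1 = 0 ∧ c.2 = 0)} inferInstance
      (fun c => {p : Option (ZMod q) × (ZMod q)ˣ //
        c.1.1 * (evenElt_vec p).1 + c.1.2 * (evenElt_vec p).2 = 1})
      (fun c => {p : Option (ZMod q) × (ZMod q)ˣ //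
        c.1.1 * (evenElt_vec p).1 + c.1.2 * (evenElt_vec p).2 = 1})
      (fun c => id) (fun c => Subtype.val) ?_ ?_ ?_ ?_
    · intro c
      exact Subtype.val_injective
    · intro c
      rw [DD_id_iff, evenElt_card c.1.1 c.1.2 c.2, hcF]
      exact hK
    · intro x y hxy
      have hD := evenElt_det x y hxy
      set x1 := (evenElt_vec x).1 with hx1
      set x2 := (evenElt_vec x).2 with hx2
      set y1 := (evenElt_vec y).1 with hy1
      set y2 := (evenElt_vec y).2 with hy2
      set D := x1 * y2 - x2 * y1 with hDdef
      have hxx : (y2 - x2) / D * x1 + (x1 - y1) / D * x2 = 1 := by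
        field_simp
        rw [hDdef]
        ring
      have hyy : (y2 - x2) / D * y1 + (x1 - y1) / D * y2 = 1 := by
        field_simp
        rw [hDdef]
        ring
      refine ⟨⟨((y2 - x2) / D, (x1 - y1) / D), ?_⟩, ?_, ?_⟩
      · rintro ⟨h1, h2⟩
        simp only at h1 h2
        rw [h1, h2] at hxx
        simp at hxx
      · refine ⟨⟨x, hxx⟩, ⟨y, hyy⟩, rfl, rfl, ?_⟩
        intro h
        have : x = y := congrArg Subtype.val h
        exact hxy (by rw [this])
      · rintro ⟨⟨a, b⟩, hab⟩ ⟨⟨x', hx'⟩, ⟨y', hy'⟩, ex, ey, -⟩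
        simp only at ex ey
        subst ex
        subst ey
        simp only at hx' hy'
        rw [← hx1, ← hx2] at hx'
        rw [← hy1, ← hy2] at hy'
        apply Subtype.ext
        simp only [Prod.mk.injEq]
        constructor
        · rw [eq_div_iff hD, hDdef]
          linear_combination y2 * hx' - x2 * hy'
        · rw [eq_div_iff hD, hDdef]
          linear_combination x1 * hy' - y1 * hx'
    · rintro c ⟨x, hx⟩ ⟨y, hy⟩ hne h
      apply hne
      change (⟨x, hx⟩ : {p : Option (ZMod q) × (ZMod q)ˣ //
        c.1.1 * (evenElt_vec p).1 + c.1.2 * (evenElt_vec p).2 = 1}) = ⟨y, hy⟩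
      apply Subtype.ext
      exact evenElt_same c.1.1 c.1.2 x y h hx hy
  rw [DD_fst_iff] at key
  have h1 : Nat.card (Option (ZMod q)) = q + 1 := by
    rw [Finite.card_option, hcF]
  have h2 : Nat.card (ZMod q)ˣ = q - 1 := by
    rw [Nat.card_eq_fintype_card, ZMod.card_units_eq_totient, Nat.totient_prime hq]
  rwa [h1, h2] at key

end Pool.Agent.Helper69.WV
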