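import Mathlib
import Pool.Agent.Helper69.WV.St
import Pool.Agent.Helper69.WV.Basic

/-!
Project WV: filling the groups.
-/

set_option autoImplicit false

namespace Pool.Agent.Helper69.WV

theorem fill0 (hG : Glue) : Fill0 := by
  intro k l V I _ γ hγ h
  rw [← DD_id_iff]
  refine hG k l V V inferInstance id (Option (Set.range γ)) inferInstance
    (fun b => match b with | none => V | some i => {x // γ x = i.1})
    (fun b => match b with | none => I | some i => {x // γ x = i.1})
    (fun b => match b with | none => γ | some i => id)
    (fun b => match b with | none => id | some i => Subtype.val) ?_ ?_ ?_ ?_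
  · rintro (_ | i)
    · exact Function.injective_id
    · exact Subtype.val_injective
  · rintro (_ | i)
    · exact hγ
    · exact (DD_id_iff k l).2 (h i.1)
  · intro x y hxy
    simp only [id] at hxy
    by_cases hg : γ x = γ y
    · refine ⟨some ⟨γ x, x, rfl⟩, ⟨⟨x, rfl⟩, ⟨y, hg.symm⟩, rfl, rfl, ?_⟩, ?_⟩
      · intro h1
        exact hxy (congrArg Subtype.val h1)
      · rintro (_ | ⟨i, hi⟩) ⟨x', y', hx', hy', hne⟩
        · simp only [id] at hx' hy'
          subst hx' hy'
          exact absurd hg hne
        · congr 1
          apply Subtype.ext
          simp only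
          rw [← hx']
          exact x'.2.symm
    · refine ⟨none, ⟨x, y, rfl, rfl, hg⟩, ?_⟩
      rintro (_ | ⟨i, hi⟩) ⟨x', y', hx', hy', hne⟩
      · rfl
      · exfalso
        apply hg
        rw [← hx', ← hy']
        exact x'.2.trans y'.2.symm
  · rintro (_ | i) x' y' hne h2
    · simp only [id] at h2
      subst h2
      exact hne rfl
    · exact hne (Subtype.ext h2)

theorem fill1 (hG : Glue) : Fill1 := by
  intro k l V I _ γ hγ h
  have hc : Nat.card V + 1 = Nat.card (Option V) := (Finite.card_option).symm
  rw [hc, ← DD_id_iff]
  refine hG k l (Option V) (Option V) inferInstance id (Option (Set.range γ)) inferInstance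
    (fun b => match b with | none => V | some i => Option {x // γ x = i.1})
    (fun b => match b with | none => I | some i => Option {x // γ x = i.1})
    (fun b => match b with | none => γ | some i => id)
    (fun b => match b with | none => some | some i => Option.map Subtype.val) ?_ ?_ ?_ ?_
  · rintro (_ | i)
    · exact Option.some_injective _
    · exact Option.map_injective Subtype.val_injective
  · rintro (_ | i)
    · exact hγ
    · refine (DD_id_iff k l).2 ?_
      rw [Finite.card_option]
      exact h i.1
  · -- the pairs
    have huniq : ∀ (i : Set.range γ) (z : Option {x // γ x = i.1}) (x : V),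
        Option.map Subtype.val z = some x → γ x = i.1 := by
      intro i z x hz
      rcases z with _ | z
      · simp at hz
      · simp only [Option.map_some, Option.some.injEq] at hz
        rw [← hz]
        exact z.2
    rintro (_ | x) (_ | y) hxy
    · exact absurd rfl hxy
    · refine ⟨some ⟨γ y, y, rfl⟩, ⟨none, some ⟨y, rfl⟩, rfl, rfl, by simp⟩, ?_⟩
      rintro (_ | i) ⟨x', y', hx', hy', hne⟩
      · simp at hx'
      · congr 1
        apply Subtype.ext
        exact (huniq i y' y hy').symm
    · refine ⟨some ⟨γ x, x, rfl⟩, ⟨some ⟨x, rfl⟩, none, rfl, rfl, by simp⟩, ?_⟩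
      rintro (_ | i) ⟨x', y', hx', hy', hne⟩
      · simp at hy'
      · congr 1
        apply Subtype.ext
        exact (huniq i x' x hx').symm
    · simp only [id, ne_eq, Option.some.injEq] at hxy
      by_cases hg : γ x = γ y
      · refine ⟨some ⟨γ x, x, rfl⟩, ⟨some ⟨x, rfl⟩, some ⟨y, hg.symm⟩, rfl, rfl, ?_⟩, ?_⟩
        · intro h1
          simp only [id, Option.some.injEq] at h1
          exact hxy (congrArg Subtype.val h1)
        · rintro (_ | i) ⟨x', y', hx', hy', hne⟩
          · simp only [Option.some.injEq] at hx' hy'
            subst hx' hy'
            exact absurd hg hne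
          · congr 1
            apply Subtype.ext
            exact (huniq i x' x hx').symm
      · refine ⟨none, ⟨x, y, rfl, rfl, hg⟩, ?_⟩
        rintro (_ | i) ⟨x', y', hx', hy', hne⟩
        · rfl
        · exfalso
          apply hg
          rw [huniq i x' x hx', huniq i y' y hy']
  · rintro (_ | i) x' y' hne h2
    · simp only [id, Option.some.injEq] at h2
      subst h2
      exact hne rfl
    · exact hne (Option.map_injective Subtype.val_injective h2)

end Pool.Agent.Helper69.WV
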