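import Mathlib
import Pool.Agent.Helper69.WV.St
import Pool.Agent.Helper69.WV.Basic

/-!
Project WV, piece GA: the algebraic part of the construction of a design on `F × W`.
-/

set_option autoImplicit false

namespace Pool.Agent.Helper69.WV

/-- Development of the base blocks `X b c` by `H` and `F`. -/
private def gAlg_f {n : ℕ} {F W ι : Type} [Field F] (H : Subgroup Fˣ) (f : ι → Fin (n + 3) → W)
    (X : ι → Fˣ ⧸ H → Fin (n + 3) → F) (b : ι × (Fˣ ⧸ H) × H × F) (i : Fin (n + 3)) : F × W :=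
  (((b.2.2.1 : Fˣ) : F) * X b.1 b.2.1 i + b.2.2.2, f b.1 i)

/-- The pairs of positions of base blocks with difference in the coset `D`. -/
private def gAlg_S {n : ℕ} {F W ι : Type} [Field F] (H : Subgroup Fˣ) (f : ι → Fin (n + 3) → W)
    (X : ι → Fˣ ⧸ H → Fin (n + 3) → F) (D : Fˣ ⧸ H) (a a' : W) : Type :=
  {q : ι × (Fˣ ⧸ H) × Fin (n + 3) × Fin (n + 3) // f q.1 q.2.2.1 = a ∧ f q.1 q.2.2.2 = a' ∧
    ∃ u : Fˣ, (u : Fˣ ⧸ H) = D ∧ X q.1 q.2.1 q.2.2.2 - X q.1 q.2.1 q.2.2.1 = u}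

private theorem gAlg_card {n : ℕ} {F W ι : Type} [Field F] (H : Subgroup Fˣ)
    (f : ι → Fin (n + 3) → W) (X : ι → Fˣ ⧸ H → Fin (n + 3) → F) (y z : F) (d : Fˣ)
    (hd : (d : F) = z - y) (a a' : W) :
    cc (gAlg_f H f X) (y, a) (z, a') = Nat.card (gAlg_S H f X (d : Fˣ ⧸ H) a a') := by
  unfold cc
  have key : ∀ p : (ι × (Fˣ ⧸ H) × H × F) × Fin (n + 3) × Fin (n + 3),
      gAlg_f H f X p.1 p.2.1 = (y, a) → gAlg_f H f X p.1 p.2.2 = (z, a') →
      ((p.1.2.2.1 : Fˣ) : F) * (X p.1.1 p.1.2.1 p.2.2 - X p.1.1 p.1.2.1 p.2.1) = (d : F) := by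
    intro p h1 h2
    unfold gAlg_f at h1 h2
    rw [Prod.mk.injEq] at h1 h2
    rw [hd, ← h1.1, ← h2.1]
    ring
  refine Nat.card_eq_of_bijective (fun p => ⟨(p.1.1.1, p.1.1.2.1, p.1.2.1, p.1.2.2), ?_⟩) ⟨?_, ?_⟩
  · have h1 := p.2.1
    have h2 := p.2.2
    have hk := key p.1 h1 h2
    unfold gAlg_f at h1 h2
    rw [Prod.mk.injEq] at h1 h2
    refine ⟨h1.2, h2.2, ((p.1.1.2.2.1 : Fˣ))⁻¹ * d, ?_, ?_⟩
    · rw [QuotientGroup.eq]
      have : ((((p.1.1.2.2.1 : Fˣ))⁻¹ * d)⁻¹ * d) = (p.1.1.2.2.1 : Fˣ) := by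
        group
        rw [mul_assoc, mul_comm, mul_assoc]
        simp
      rw [this]
      exact p.1.1.2.2.1.2
    · rw [Units.val_mul, ← hk, ← mul_assoc, ← Units.val_mul, inv_mul_cancel, Units.val_one,
        one_mul]
  · rintro ⟨⟨⟨b, c, h, g⟩, i, j⟩, hp1, hp2⟩ ⟨⟨⟨b', c', h', g'⟩, i', j'⟩, hq1, hq2⟩ heq
    have heq' := congrArg Subtype.val heq
    simp only [Prod.mk.injEq] at heq'
    obtain ⟨rfl, rfl, rfl, rfl⟩ := heq'
    have k1 := key _ hp1 hp2
    have k2 := key _ hq1 hq2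
    simp only at k1 k2
    have hne : X b c j - X b c i ≠ 0 := by
      intro h0
      rw [h0, mul_zero] at k1
      exact d.ne_zero k1.symm
    have hh : h = h' := by
      apply Subtype.ext
      apply Units.ext
      exact mul_right_cancel₀ hne (k1.trans k2.symm)
    subst hh
    unfold gAlg_f at hp1 hq1
    rw [Prod.mk.injEq] at hp1 hq1
    have hg : g = g' := by
      have := hp1.1.trans hq1.1.symm
      simpa using this
    subst hg
    rfl
  · rintro ⟨⟨b, c, i, j⟩, hi, hj, u, hu, hX⟩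
    simp only at hi hj hX
    have hmem : d * u⁻¹ ∈ H := by
      rw [QuotientGroup.eq] at hu
      rw [mul_comm]
      exact hu
    have e1 : ((d * u⁻¹ : Fˣ) : F) * (X b c j - X b c i) = d := by
      rw [hX, ← Units.val_mul]
      simp
    refine ⟨⟨((b, c, ⟨d * u⁻¹, hmem⟩, y - ((d * u⁻¹ : Fˣ) : F) * X b c i), i, j), ?_, ?_⟩, rfl⟩
    · unfold gAlg_f
      simp only [Prod.mk.injEq]
      exact ⟨by ring, hi⟩
    · unfold gAlg_f
      simp only [Prod.mk.injEq]
      refine ⟨?_, hj⟩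
      have e2 : ((d * u⁻¹ : Fˣ) : F) * X b c j + (y - ((d * u⁻¹ : Fˣ) : F) * X b c i)
          = y + ((d * u⁻¹ : Fˣ) : F) * (X b c j - X b c i) := by ring
      rw [e2, e1, hd]
      ring

private theorem gAlg_lt {n : ℕ} {F W ι : Type} [Field F] (H : Subgroup Fˣ)
    (f : ι → Fin (n + 3) → W) (P : ι → Fˣ ⧸ H → Prop) (X : ι → Fˣ ⧸ H → Fin (n + 3) → F)
    (hX : ∀ b c i j, i < j → (f b i ≠ f b j ∨ P b c) →
      ∃ u : Fˣ, (u : Fˣ ⧸ H) = c ∧ X b c j - X b c i = u) (D : Fˣ ⧸ H) (b : ι) (c : Fˣ ⧸ H)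
    (i j : Fin (n + 3)) (hij : i < j) (h : f b i ≠ f b j ∨ P b c) :
    (∃ u : Fˣ, (u : Fˣ ⧸ H) = D ∧ X b c j - X b c i = u) ↔ c = D := by
  obtain ⟨u, hu, hXu⟩ := hX b c i j hij h
  constructor
  · rintro ⟨v, hv, hXv⟩
    have : u = v := Units.ext (hXu.symm.trans hXv)
    rw [← hu, ← hv, this]
  · rintro rfl
    exact ⟨u, hu, hXu⟩

private theorem gAlg_gt {n : ℕ} {F W ι : Type} [Field F] (H : Subgroup Fˣ)
    (f : ι → Fin (n + 3) → W) (P : ι → Fˣ ⧸ H → Prop) (X : ι → Fˣ ⧸ H → Fin (n + 3) → F)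
    (hX : ∀ b c i j, i < j → (f b i ≠ f b j ∨ P b c) →
      ∃ u : Fˣ, (u : Fˣ ⧸ H) = c ∧ X b c j - X b c i = u) (D : Fˣ ⧸ H) (b : ι) (c : Fˣ ⧸ H)
    (i j : Fin (n + 3)) (hij : j < i) (h : f b j ≠ f b i ∨ P b c) :
    (∃ u : Fˣ, (u : Fˣ ⧸ H) = D ∧ X b c j - X b c i = u) ↔ c = ((-1 : Fˣ) : Fˣ ⧸ H) * D := by
  obtain ⟨u, hu, hXu⟩ := hX b c j i hij h
  constructor
  · rintro ⟨v, hv, hXv⟩
    have huv : u = -1 * v := by
      apply Units.ext
      rw [← hXu, Units.val_mul, ← hXv]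
      simp
    rw [← hu, ← hv, huv, QuotientGroup.mk_mul]
  · intro hc
    refine ⟨-1 * u, ?_, ?_⟩
    · rw [QuotientGroup.mk_mul, hu, hc, ← mul_assoc, ← QuotientGroup.mk_mul, neg_one_mul, neg_neg]
      exact one_mul D
    · rw [Units.val_mul, ← hXu]
      simp

theorem gAlg : GAlg := by
  intro n l F W _ _ _ H ι _ f hf hcc P X hP hX hX0
  classical
  have hfin : Finite (ι × (Fˣ ⧸ H) × H × F) := inferInstance
  refine ⟨ι × (Fˣ ⧸ H) × H × F, hfin, gAlg_f H f X, ?_, ?_, ?_⟩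
  · rintro ⟨b, c, h, g⟩
    refine ⟨0, 2, ?_⟩
    intro heq
    unfold gAlg_f at heq
    rw [Prod.mk.injEq] at heq
    have h2 : 2 % (n + 3) = 2 := Nat.mod_eq_of_lt (by omega)
    have h02 : (0 : Fin (n + 3)) < 2 := by
      rw [Fin.lt_def]
      simp [h2]
    have := (hf b 0 2 h02 heq.2).2
    have h1 : (2 : Fin (n + 3)).val = (1 : Fin (n + 3)).val := congrArg Fin.val this
    simp [h2] at h1
  · rintro ⟨y, a⟩ ⟨z, a'⟩ hyz
    simp only at hyz
    have hd0 : z - y ≠ 0 := sub_ne_zero.2 (Ne.symm hyz)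
    rw [gAlg_card H f X y z (Units.mk0 _ hd0) (Units.val_mk0 hd0) a a']
    set D : Fˣ ⧸ H := ((Units.mk0 (z - y) hd0 : Fˣ) : Fˣ ⧸ H) with hD
    by_cases haa : a = a'
    · subst haa
      rw [← hP a D, ← Nat.card_sum]
      symm
      have h01 : (0 : Fin (n + 3)) < 1 := by
        rw [Fin.lt_def]
        simp
      refine Nat.card_eq_of_bijective (Sum.elim
        (fun b => ⟨(b.1, D, 0, 1), b.2.1, b.2.2.1,
          (gAlg_lt H f P X hX D b.1 D 0 1 h01 (Or.inr b.2.2.2)).2 rfl⟩)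
        (fun b => ⟨(b.1, ((-1 : Fˣ) : Fˣ ⧸ H) * D, 1, 0), b.2.2.1, b.2.1,
          (gAlg_gt H f P X hX D b.1 _ 1 0 h01 (Or.inr b.2.2.2)).2 rfl⟩)) ⟨?_, ?_⟩
      · rintro (⟨b, hb⟩ | ⟨b, hb⟩) (⟨b', hb'⟩ | ⟨b', hb'⟩) heq
        · have := congrArg (fun q => q.1.1) heq
          simp only [Sum.elim_inl] at this
          subst this
          rfl
        · have := congrArg (fun q => q.1.2.2.1) heq
          simp only [Sum.elim_inl, Sum.elim_inr] at this
          exact absurd this h01.ne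
        · have := congrArg (fun q => q.1.2.2.1) heq
          simp only [Sum.elim_inl, Sum.elim_inr] at this
          exact absurd this h01.ne'
        · have := congrArg (fun q => q.1.1) heq
          simp only [Sum.elim_inr] at this
          subst this
          rfl
      · rintro ⟨⟨b, c, i, j⟩, hi, hj, hE⟩
        simp only at hi hj hE
        rcases lt_trichotomy i j with hij | hij | hij
        · obtain ⟨rfl, rfl⟩ := hf b i j hij (hi.trans hj.symm)
          by_cases hPc : P b c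
          · have hc := (gAlg_lt H f P X hX D b c 0 1 hij (Or.inr hPc)).1 hE
            subst hc
            exact ⟨Sum.inl ⟨b, hi, hj, hPc⟩, rfl⟩
          · exfalso
            obtain ⟨u, -, hu⟩ := hE
            rw [hX0 b c (hi.trans hj.symm) hPc, sub_self] at hu
            exact u.ne_zero hu.symm
        · exfalso
          subst hij
          obtain ⟨u, -, hu⟩ := hE
          rw [sub_self] at hu
          exact u.ne_zero hu.symm
        · obtain ⟨rfl, rfl⟩ := hf b j i hij (hj.trans hi.symm)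
          by_cases hPc : P b c
          · have hc := (gAlg_gt H f P X hX D b c 1 0 hij (Or.inr hPc)).1 hE
            subst hc
            exact ⟨Sum.inr ⟨b, hj, hi, hPc⟩, rfl⟩
          · exfalso
            obtain ⟨u, -, hu⟩ := hE
            rw [hX0 b c (hj.trans hi.symm) hPc, sub_self] at hu
            exact u.ne_zero hu.symm
    · rw [← hcc a a' haa]
      unfold cc
      refine Nat.card_eq_of_bijective (fun q => ⟨(q.1.1, q.1.2.2.1, q.1.2.2.2), q.2.1, q.2.2.1⟩)
        ⟨?_, ?_⟩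
      · rintro ⟨⟨b, c, i, j⟩, hi, hj, hE⟩ ⟨⟨b', c', i', j'⟩, hi', hj', hE'⟩ heq
        have heq' := congrArg Subtype.val heq
        simp only [Prod.mk.injEq] at heq'
        obtain ⟨rfl, rfl, rfl⟩ := heq'
        simp only at hi hj hE hE'
        have hne : f b i ≠ f b j := by
          rw [hi, hj]
          exact haa
        rcases lt_trichotomy i j with hij | hij | hij
        · have h1 := (gAlg_lt H f P X hX D b c i j hij (Or.inl hne)).1 hE
          have h2 := (gAlg_lt H f P X hX D b c' i j hij (Or.inl hne)).1 hE'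
          subst h1
          subst h2
          rfl
        · subst hij
          exact absurd rfl hne
        · have h1 := (gAlg_gt H f P X hX D b c i j hij (Or.inl hne.symm)).1 hE
          have h2 := (gAlg_gt H f P X hX D b c' i j hij (Or.inl hne.symm)).1 hE'
          have h3 : c = c' := h1.trans h2.symm
          subst h3
          rfl
      · rintro ⟨⟨b, i, j⟩, hi, hj⟩
        simp only at hi hj
        have hne : f b i ≠ f b j := by
          rw [hi, hj]
          exact haa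
        rcases lt_trichotomy i j with hij | hij | hij
        · exact ⟨⟨(b, D, i, j), hi, hj, (gAlg_lt H f P X hX D b D i j hij (Or.inl hne)).2 rfl⟩, rfl⟩
        · subst hij
          exact absurd rfl hne
        · exact ⟨⟨(b, ((-1 : Fˣ) : Fˣ ⧸ H) * D, i, j), hi, hj,
            (gAlg_gt H f P X hX D b _ i j hij (Or.inl hne.symm)).2 rfl⟩, rfl⟩
  · rintro ⟨y, a⟩ ⟨z, a'⟩ hne hyz
    simp only at hyz
    subst hyz
    refine cc_eq_zero _ _ _ ?_
    rintro ⟨b, c, h, g⟩ i j h1 h2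
    unfold gAlg_f at h1 h2
    rw [Prod.mk.injEq] at h1 h2
    simp only at h1 h2
    have haa : a ≠ a' := fun h => hne (by rw [h])
    have hfne : f b i ≠ f b j := by
      rw [h1.2, h2.2]
      exact haa
    have hXe : X b c i = X b c j := by
      have h3 := h1.1.trans h2.1.symm
      have h4 : ((h : Fˣ) : F) * X b c i = ((h : Fˣ) : F) * X b c j := add_right_cancel h3
      exact mul_left_cancel₀ (h : Fˣ).ne_zero h4
    rcases lt_trichotomy i j with hij | hij | hij
    · obtain ⟨u, -, hu⟩ := hX b c i j hij (Or.inl hfne)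
      rw [hXe, sub_self] at hu
      exact u.ne_zero hu.symm
    · subst hij
      exact hfne rfl
    · obtain ⟨u, -, hu⟩ := hX b c j i hij (Or.inl hfne.symm)
      rw [hXe, sub_self] at hu
      exact u.ne_zero hu.symm

end Pool.Agent.Helper69.WV
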