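import Mathlib
import Pool.Agent.Helper69.WV.St
import Pool.Agent.Helper69.WV.Basic

/-!
Project WV, piece GF: designs on `F × Fin w` for every finite field `F` with at least `n + 3`
elements (concurrence two).
-/

set_option autoImplicit false

namespace Pool.Agent.Helper69.WV

theorem gField (hA : GAlg) : GField := by
  classical
  intro n w hN F iF hF hcard
  obtain ⟨ι, hι, f, hf1, hf2, hf3⟩ := hN
  -- an injection of the positions into the field
  have hg : ∃ g : Fin (n + 3) → F, Function.Injective g := by
    have : Fintype F := Fintype.ofFinite F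
    rw [Nat.card_eq_fintype_card] at hcard
    have h1 : Fintype.card (Fin (n + 3)) ≤ Fintype.card F := by simpa using hcard
    obtain ⟨g⟩ := Function.Embedding.nonempty_of_card_le h1
    exact ⟨g, g.injective⟩
  obtain ⟨g, hg⟩ := hg
  -- one doubled block for every point
  have hd : ∀ a : Fin w, ∃ b, f b 0 = a ∧ f b 1 = a := fun a => by
    obtain ⟨b, _, _, h0, h1, _⟩ := hf3 a
    exact ⟨b, h0, h1⟩
  choose d hd0 hd1 using hd
  let P : ι → Fˣ ⧸ (⊤ : Subgroup Fˣ) → Prop := fun b _ => b = d (f b 0)
  let X : ι → Fˣ ⧸ (⊤ : Subgroup Fˣ) → Fin (n + 3) → F := fun b _ i =>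
    if f b 0 = f b 1 ∧ b ≠ d (f b 0) ∧ i = 1 then g 0 else g i
  have hone : ∀ (a : Fin w) (c : Fˣ ⧸ (⊤ : Subgroup Fˣ)),
      Nat.card {b // f b 0 = a ∧ f b 1 = a ∧ P b c} = 1 := by
    intro a c
    rw [Nat.card_eq_one_iff_unique]
    refine ⟨⟨?_⟩, ⟨⟨d a, hd0 a, hd1 a, ?_⟩⟩⟩
    · rintro ⟨b, hb0, hb1, hb⟩ ⟨b', hb0', hb1', hb'⟩
      change b = d (f b 0) at hb
      change b' = d (f b' 0) at hb'
      apply Subtype.ext
      change b = b'
      rw [hb, hb', hb0, hb0']
    · change d a = d (f (d a) 0)
      rw [hd0 a]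
  have key := hA n 2 F (Fin w) iF hF inferInstance ⊤ ι hι f hf1 hf2 P X ?_ ?_ ?_
  · rw [DD_fst_iff] at key
    simpa using key
  · intro a c
    have h := hone a
    simp only [h]
  · intro b c i j hij h
    have hne : X b c i ≠ X b c j := by
      intro hX
      simp only [X] at hX
      by_cases h01 : f b 0 = f b 1 ∧ b ≠ d (f b 0)
      · obtain ⟨h0, h1⟩ := h01
        have hfij : f b i ≠ f b j := by
          rcases h with h | h
          · exact h
          · exact absurd h h1
        by_cases hi : i = 1
        · by_cases hj : j = 1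
          · rw [hi, hj] at hij
            exact lt_irrefl _ hij
          · rw [if_pos ⟨h0, h1, hi⟩, if_neg (fun h => hj h.2.2)] at hX
            have := hg hX
            rw [← this] at hij
            exact absurd hij (Fin.not_lt_zero i)
        · by_cases hj : j = 1
          · rw [if_neg (fun h => hi h.2.2), if_pos ⟨h0, h1, hj⟩] at hX
            have := hg hX
            apply hfij
            rw [this, hj, h0]
          · rw [if_neg (fun h => hi h.2.2), if_neg (fun h => hj h.2.2)] at hX
            have := hg hX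
            rw [this] at hij
            exact lt_irrefl _ hij
      · rw [if_neg (fun h => h01 ⟨h.1, h.2.1⟩), if_neg (fun h => h01 ⟨h.1, h.2.1⟩)] at hX
        have := hg hX
        rw [this] at hij
        exact lt_irrefl _ hij
    have hsub : X b c j - X b c i ≠ 0 := sub_ne_zero.2 (Ne.symm hne)
    refine ⟨Units.mk0 _ hsub, ?_, rfl⟩
    obtain ⟨u, rfl⟩ := QuotientGroup.mk_surjective c
    rw [QuotientGroup.eq]
    exact Subgroup.mem_top _
  · intro b c h0 hP
    have h1 : b ≠ d (f b 0) := hP
    have e1 : X b c 1 = g 0 := if_pos ⟨h0, h1, rfl⟩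
    have e0 : X b c 0 = g 0 := by
      change (if f b 0 = f b 1 ∧ b ≠ d (f b 0) ∧ (0 : Fin (n + 3)) = 1 then g 0 else g 0) = g 0
      split_ifs
      · rfl
      · rfl
    rw [e0, e1]

end Pool.Agent.Helper69.WV
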