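import Mathlib
import Pool.Agent.Helper69.WV.St
import Pool.Agent.Helper69.WV.Basic

/-!
Project WV, piece GP: designs on `F × Fin w` for the primes `q` that are not `1` modulo `2 ^ A`
(concurrence two or three).
-/

set_option autoImplicit false

namespace Pool.Agent.Helper69.WV

/-- The subgroup of index `2 ^ a` and `-1` outside of it. -/
private theorem gPrime_group (q : ℕ) [hq : Fact q.Prime] (hq2 : 3 ≤ q) :
    ∃ (a : ℕ) (H : Subgroup (ZMod q)ˣ), 2 ^ a ∣ q - 1 ∧ H.index = 2 ^ a ∧ (-1 : (ZMod q)ˣ) ∉ H := by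
  classical
  have hodd : ∀ N : ℕ, 0 < N → ∃ a m, N = 2 ^ a * m ∧ ¬ 2 ∣ m := by
    intro N hN
    obtain ⟨a, m, hm, h⟩ := Nat.exists_eq_pow_mul_and_not_dvd (n := N) (by omega) 2 (by norm_num)
    exact ⟨a, m, h, hm⟩
  obtain ⟨a, m, hqm, hm⟩ := hodd (q - 1) (by omega)
  have hcard : Nat.card (ZMod q)ˣ = q - 1 := by
    rw [Nat.card_eq_fintype_card, ZMod.card_units_eq_totient, Nat.totient_prime hq.out]
  refine ⟨a, (powMonoidHom (2 ^ a) : (ZMod q)ˣ →* (ZMod q)ˣ).range, ⟨m, hqm⟩, ?_, ?_⟩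
  · rw [IsCyclic.index_powMonoidHom_range, hcard]
    exact Nat.gcd_eq_right ⟨m, hqm⟩
  · rintro ⟨y, hy⟩
    have hy' : y ^ (2 ^ a) = -1 := hy
    have h1 : y ^ (q - 1) = 1 := by
      rw [← hcard]
      exact pow_card_eq_one'
    rw [hqm, pow_mul, hy'] at h1
    have hmo : Odd m := by
      rcases Nat.even_or_odd m with h | h
      · exact absurd h.two_dvd hm
      · exact h
    rw [hmo.neg_one_pow] at h1
    have h2 : (-1 : ZMod q) = 1 := by
      have := congrArg Units.val h1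
      simpa using this
    have h3 : (2 : ZMod q) = 0 := by
      have : (1 : ZMod q) + 1 = 0 := by
        nth_rewrite 1 [← h2]
        ring
      calc (2 : ZMod q) = 1 + 1 := by norm_num
        _ = 0 := this
    have h4 : ((2 : ℕ) : ZMod q) = 0 := by exact_mod_cast h3
    rw [ZMod.natCast_eq_zero_iff] at h4
    have := Nat.le_of_dvd (by norm_num) h4
    omega

/-- Representatives of the orbits of an involution without fixed points. -/
private theorem gPrime_rep {C : Type} [Finite C] (s : C → C) (hs : ∀ c, s (s c) = c)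
    (hne : ∀ c, s c ≠ c) : ∃ R : C → Prop, ∀ c, (R c ∧ ¬ R (s c)) ∨ (¬ R c ∧ R (s c)) := by
  let e := Finite.equivFin C
  refine ⟨fun c => e c < e (s c), ?_⟩
  intro c
  have h : e c ≠ e (s c) := fun h => hne c (e.injective h).symm
  rcases lt_or_gt_of_ne h with h | h
  · refine Or.inl ⟨h, ?_⟩
    change ¬ (e (s c) < e (s (s c)))
    rw [hs]
    exact not_lt.2 h.le
  · refine Or.inr ⟨not_lt.2 h.le, ?_⟩
    change e (s c) < e (s (s c))
    rw [hs]
    exact h

private theorem gPrime_card_one {ι : Type} (Q : ι → Prop) (d : ι) (h : ∀ b, Q b ↔ b = d) :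
    Nat.card {b // Q b} = 1 := by
  rw [Nat.card_eq_one_iff_unique]
  refine ⟨⟨?_⟩, ⟨⟨d, (h d).2 rfl⟩⟩⟩
  rintro ⟨b, hb⟩ ⟨b', hb'⟩
  apply Subtype.ext
  change b = b'
  rw [(h b).1 hb, (h b').1 hb']

private theorem gPrime_card_two {ι : Type} (Q : ι → Prop) (d d' : ι) (hd : d ≠ d')
    (h : ∀ b, Q b ↔ b = d ∨ b = d') : Nat.card {b // Q b} = 2 := by
  have h1 : {b | Q b} = ({d, d'} : Set ι) := by
    ext b
    simp [h b]
  have h2 : Nat.card {b // Q b} = ({b | Q b} : Set ι).ncard := rfl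
  rw [h2, h1, Set.ncard_pair hd]

theorem gPrime (hA : GAlg) (hGr : Greedy) : GPrime := by
  classical
  intro n l w A hl hN
  obtain ⟨ι, hι, f, hf1, hf2, hf3⟩ := hN
  -- the thresholds
  have hth : ∀ a : ℕ, ∃ q0, ∀ (F : Type) (_ : Field F) (_ : Finite F) (H : Subgroup Fˣ),
      H.index = 2 ^ a → q0 ≤ Nat.card F → ∀ c : Fin (n + 3) → Fin (n + 3) → Fˣ ⧸ H,
      ∃ x : Fin (n + 3) → F, ∀ i j, i < j → ∃ u : Fˣ, (u : Fˣ ⧸ H) = c i j ∧ x j - x i = u :=
    fun a => hGr (n + 3) (2 ^ a) (by positivity)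
  choose q0 hq0 using hth
  refine ⟨3 + ∑ a ∈ Finset.range A, q0 a, ?_⟩
  intro q hqp hqQ hqA
  have : Fact q.Prime := ⟨hqp⟩
  obtain ⟨a, H, ha, hH, hneg⟩ := gPrime_group q (by omega)
  have haA : a < A := by
    by_contra hcon
    push Not at hcon
    apply hqA
    have h1 : 2 ^ A ∣ q - 1 := (pow_dvd_pow 2 hcon).trans ha
    exact ((Nat.modEq_iff_dvd' (by omega)).2 h1).symm
  have hqa : q0 a ≤ Nat.card (ZMod q) := by
    rw [Nat.card_zmod]
    have : q0 a ≤ ∑ a ∈ Finset.range A, q0 a :=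
      Finset.single_le_sum (f := q0) (fun _ _ => Nat.zero_le _) (Finset.mem_range.2 haA)
    omega
  -- the points
  have hx : ∀ c : (ZMod q)ˣ ⧸ H, ∃ x : Fin (n + 3) → ZMod q,
      ∀ i j, i < j → ∃ u : (ZMod q)ˣ, (u : (ZMod q)ˣ ⧸ H) = c ∧ x j - x i = u :=
    fun c => hq0 a (ZMod q) inferInstance inferInstance H hH hqa (fun _ _ => c)
  choose x hx using hx
  -- the representatives
  have hinv : ∀ c : (ZMod q)ˣ ⧸ H, ((-1 : (ZMod q)ˣ) : (ZMod q)ˣ ⧸ H) *
      (((-1 : (ZMod q)ˣ) : (ZMod q)ˣ ⧸ H) * c) = c := by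
    intro c
    rw [← mul_assoc, ← QuotientGroup.mk_mul]
    simp
  have hnf : ∀ c : (ZMod q)ˣ ⧸ H, ((-1 : (ZMod q)ˣ) : (ZMod q)ˣ ⧸ H) * c ≠ c := by
    intro c h
    apply hneg
    have h1 : ((-1 : (ZMod q)ˣ) : (ZMod q)ˣ ⧸ H) = 1 := by
      simpa using h
    rwa [QuotientGroup.eq_one_iff] at h1
  obtain ⟨R, hR⟩ := gPrime_rep (fun c : (ZMod q)ˣ ⧸ H => ((-1 : (ZMod q)ˣ) : (ZMod q)ˣ ⧸ H) * c)
    hinv hnf
  -- the doubled blocks
  choose d d' hdd hd0 hd1 hd0' hd1' using hf3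
  let P : ι → (ZMod q)ˣ ⧸ H → Prop := fun b c => b = d (f b 0) ∨ (l = 3 ∧ b = d' (f b 0) ∧ R c)
  let X : ι → (ZMod q)ˣ ⧸ H → Fin (n + 3) → ZMod q := fun b c i =>
    if f b 0 = f b 1 ∧ ¬ P b c ∧ i = 1 then x c 0 else x c i
  have h1 : ∀ (a : Fin w) (c : (ZMod q)ˣ ⧸ H), ¬ (l = 3 ∧ R c) →
      Nat.card {b // f b 0 = a ∧ f b 1 = a ∧ P b c} = 1 := by
    intro a c hc
    refine gPrime_card_one _ (d a) ?_
    intro b
    constructor
    · rintro ⟨h0, h1, h | ⟨h2, h3, h4⟩⟩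
      · rw [h0] at h
        exact h
      · exact absurd ⟨h2, h4⟩ hc
    · rintro rfl
      refine ⟨hd0 a, hd1 a, Or.inl ?_⟩
      rw [hd0 a]
  have h2 : ∀ (a : Fin w) (c : (ZMod q)ˣ ⧸ H), (l = 3 ∧ R c) →
      Nat.card {b // f b 0 = a ∧ f b 1 = a ∧ P b c} = 2 := by
    intro a c hc
    refine gPrime_card_two _ (d a) (d' a) (hdd a) ?_
    intro b
    constructor
    · rintro ⟨h0, h1, h | ⟨h2, h3, h4⟩⟩
      · rw [h0] at h
        exact Or.inl h
      · rw [h0] at h3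
        exact Or.inr h3
    · rintro (rfl | rfl)
      · refine ⟨hd0 a, hd1 a, Or.inl ?_⟩
        rw [hd0 a]
      · refine ⟨hd0' a, hd1' a, Or.inr ⟨hc.1, ?_, hc.2⟩⟩
        rw [hd0' a]
  have h01 : ∀ i : Fin (n + 3), i = 1 → i ≠ 0 := by
    rintro i rfl
    simp
  have key := hA n l (ZMod q) (Fin w) inferInstance inferInstance inferInstance H ι hι f hf1 hf2
    P X ?_ ?_ ?_
  · rw [DD_fst_iff] at key
    simpa using key
  · intro a c
    rcases hl with rfl | rfl
    · rw [h1 a c (by simp), h1 a _ (by simp)]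
    · rcases hR c with ⟨h3, h4⟩ | ⟨h3, h4⟩
      · rw [h2 a c ⟨rfl, h3⟩, h1 a _ (fun h => h4 h.2)]
      · rw [h1 a c (fun h => h3 h.2), h2 a _ ⟨rfl, h4⟩]
  · intro b c i j hij h
    have hj0 : j ≠ 0 := fun h0 => by
      rw [h0] at hij
      exact absurd hij (Fin.not_lt_zero i)
    by_cases hb : f b 0 = f b 1 ∧ ¬ P b c
    · have hfij : f b i ≠ f b j := by
        rcases h with h | h
        · exact h
        · exact absurd h hb.2
      have hj1 : j ≠ 1 := by
        intro hj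
        have hi : i = 0 := by
          rw [hj] at hij
          have h3 : i.val < 1 := by
            have := Fin.lt_def.1 hij
            simpa using this
          apply Fin.ext
          change i.val = 0
          omega
        apply hfij
        rw [hi, hj, hb.1]
      have hXj : X b c j = x c j := if_neg fun h => hj1 h.2.2
      by_cases hi : i = 1
      · have hXi : X b c i = x c 0 := if_pos ⟨hb.1, hb.2, hi⟩
        rw [hXi, hXj]
        exact hx c 0 j (Fin.pos_iff_ne_zero.2 hj0)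
      · have hXi : X b c i = x c i := if_neg fun h => hi h.2.2
        rw [hXi, hXj]
        exact hx c i j hij
    · have hX : ∀ i, X b c i = x c i := fun i => if_neg fun h => hb ⟨h.1, h.2.1⟩
      rw [hX, hX]
      exact hx c i j hij
  · intro b c h0 hP
    have hX0 : X b c 0 = x c 0 := if_neg fun h => h01 0 h.2.2 rfl
    have hX1 : X b c 1 = x c 0 := if_pos ⟨h0, hP, rfl⟩
    rw [hX0, hX1]

end Pool.Agent.Helper69.WV
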