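import Mathlib
import Pool.Agent.Helper69.WV.St
import Pool.Agent.Helper69.WV.Basic

/-!
Project WV, piece GL: gluing of edge disjoint designs.
-/

set_option autoImplicit false

namespace Pool.Agent.Helper69.WV

/-- If the concurrence of `x` and `y` is zero, then no block contains both (in two positions). -/
theorem glue_none {ι V : Type} {k : ℕ} [Finite ι] (f : ι → Fin k → V) (x y : V)
    (h : cc f x y = 0) (b : ι) (i j : Fin k) (hi : f b i = x) (hj : f b j = y) : False := by
  unfold cc at h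
  rcases Nat.card_eq_zero.1 h with h | h
  · exact h.elim ⟨(b, i, j), hi, hj⟩
  · exact not_finite_iff_infinite.2 h inferInstance

theorem glue : Glue := by
  intro k l V I _ γ B _ W J δ e he hD huniq hcomp
  choose ι hι f h1 h2 h3 using hD
  refine ⟨Σ b, ι b, inferInstance, fun p i => e p.1 (f p.1 p.2 i), ?_, ?_, ?_⟩
  · rintro ⟨b, c⟩
    obtain ⟨i, j, hij⟩ := h1 b c
    exact ⟨i, j, fun h => hij (he b h)⟩
  · intro x y hxy
    obtain ⟨b₀, ⟨x', y', hx', hy', hd⟩, hb₀⟩ := huniq x y hxy
    have hmain : ∀ (b : B) (c : ι b) (i j : Fin k), e b (f b c i) = x → e b (f b c j) = y →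
        b = b₀ := by
      intro b c i j hi hj
      by_cases hδ : δ b (f b c i) = δ b (f b c j)
      · exfalso
        have hne : f b c i ≠ f b c j := by
          intro h
          apply hxy
          rw [← hi, ← hj, h]
        exact glue_none (f b) _ _ (h3 b _ _ hne hδ) c i j rfl rfl
      · exact hb₀ b ⟨_, _, hi, hj, hδ⟩
    have hcard : cc (fun (p : Σ b, ι b) i => e p.1 (f p.1 p.2 i)) x y =
        cc (fun c i => e b₀ (f b₀ c i)) x y := by
      unfold cc
      symm
      refine Nat.card_congr (Equiv.ofBijective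
        (fun p => ⟨(⟨b₀, p.1.1⟩, p.1.2), p.2⟩) ⟨?_, ?_⟩)
      · rintro ⟨⟨c, i, j⟩, hp⟩ ⟨⟨c', i', j'⟩, hp'⟩ h
        simp only [Subtype.mk.injEq, Prod.mk.injEq, Sigma.mk.injEq, heq_eq_eq, true_and] at h
        simp only [Subtype.mk.injEq, Prod.mk.injEq]
        exact h
      · rintro ⟨⟨⟨b, c⟩, i, j⟩, hp1, hp2⟩
        obtain rfl := hmain b c i j hp1 hp2
        exact ⟨⟨(c, i, j), hp1, hp2⟩, rfl⟩
    rw [hcard]
    subst hx' hy'
    rw [cc_comp (f b₀) (e b₀) (he b₀)]
    exact h2 b₀ x' y' hd
  · intro x y hne hxy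
    refine cc_eq_zero _ _ _ ?_
    rintro ⟨b, c⟩ i j hi hj
    by_cases hδ : δ b (f b c i) = δ b (f b c j)
    · have hne' : f b c i ≠ f b c j := by
        intro h
        apply hne
        rw [← hi, ← hj]
        simp only [h]
      exact glue_none (f b) _ _ (h3 b _ _ hne' hδ) c i j rfl rfl
    · have := hcomp b _ _ hδ
      apply this
      simp only at hi hj
      rw [hi, hj, hxy]

end Pool.Agent.Helper69.WV
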