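import Mathlib
import Pool.Agent.Helper69.WV.St
import Pool.Agent.Helper69.WV.Basic

/-!
Project WV, piece GR: points of a finite field with all differences in prescribed cosets.
-/

set_option autoImplicit false

open Finset

namespace Pool.Agent.Helper69.WV

private theorem greedy_pair {F : Type} [Field F] [Fintype F] [DecidableEq Fˣ] (g : F → ℝ) (hg : ∑ x, g x = 0)
    (h h' : Fˣ) :
    ∑ b : F, ∑ x : F, g (x + b * (h : F)) * g (x + b * (h' : F)) =
      if h = h' then (Fintype.card F : ℝ) * ∑ x, g x ^ 2 else 0 := by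
  split_ifs with hh
  · subst hh
    have key : ∀ b : F, ∑ x : F, g (x + b * (h : F)) * g (x + b * (h : F)) = ∑ x, g x ^ 2 := by
      intro b
      rw [← Equiv.sum_comp (Equiv.addRight (b * (h : F))) (fun y => g y ^ 2)]
      refine Finset.sum_congr rfl fun x _ => ?_
      simp [sq]
    simp only [key, Finset.sum_const, Finset.card_univ, nsmul_eq_mul]
  · have hinj : Function.Injective
        (fun p : F × F => ((p.2 + p.1 * (h : F), p.2 + p.1 * (h' : F)) : F × F)) := by
      rintro ⟨b, x⟩ ⟨b', x'⟩ heq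
      simp only [Prod.mk.injEq] at heq
      obtain ⟨h1, h2⟩ := heq
      have hne : (h : F) - (h' : F) ≠ 0 := by
        intro h0
        exact hh (Units.ext (sub_eq_zero.1 h0))
      have h3 : (b - b') * ((h : F) - (h' : F)) = 0 := by linear_combination h1 - h2
      have h4 : b = b' := by
        rcases mul_eq_zero.1 h3 with h | h
        · exact sub_eq_zero.1 h
        · exact absurd h hne
      subst h4
      have h5 : x = x' := by linear_combination h1
      rw [h5]
    have hbij := (Finite.injective_iff_bijective).1 hinj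
    have h1 : ∑ b : F, ∑ x : F, g (x + b * (h : F)) * g (x + b * (h' : F)) =
        ∑ p : F × F, g (p.2 + p.1 * (h : F)) * g (p.2 + p.1 * (h' : F)) := by
      rw [Fintype.sum_prod_type]
    rw [h1]
    rw [Fintype.sum_bijective _ hbij (fun p : F × F => g (p.2 + p.1 * (h : F)) *
      g (p.2 + p.1 * (h' : F))) (fun p : F × F => g p.1 * g p.2) (fun p => rfl)]
    rw [Fintype.sum_prod_type]
    simp only [← Finset.mul_sum, hg, mul_zero, Finset.sum_const_zero]

private theorem greedy_moment {F : Type} [Field F] [Fintype F] (H : Subgroup Fˣ) [Fintype H]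
    (b : Fˣ) (g : F → ℝ) (hg : ∑ x, g x = 0) :
    ∑ x : F, (∑ h : H, g (x + (b : F) * ((h : Fˣ) : F))) ^ 2 ≤
      (Fintype.card F : ℝ) * ∑ x, g x ^ 2 := by
  classical
  set S : F → ℝ := fun b' => ∑ x : F, (∑ h : H, g (x + b' * ((h : Fˣ) : F))) ^ 2 with hS
  have hSnn : ∀ b', 0 ≤ S b' := fun b' => Finset.sum_nonneg fun x _ => sq_nonneg _
  have hT : ∑ b' : F, S b' = (Fintype.card H : ℝ) * ((Fintype.card F : ℝ) * ∑ x, g x ^ 2) := by
    have h1 : ∀ b' : F, S b' = ∑ h : H, ∑ h' : H, ∑ x : F,
        g (x + b' * ((h : Fˣ) : F)) * g (x + b' * ((h' : Fˣ) : F)) := by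
      intro b'
      have h2 : S b' = ∑ x : F, ∑ h : H, ∑ h' : H,
          g (x + b' * ((h : Fˣ) : F)) * g (x + b' * ((h' : Fˣ) : F)) := by
        refine Finset.sum_congr rfl fun x _ => ?_
        rw [sq, Finset.sum_mul_sum]
      rw [h2, Finset.sum_comm]
      refine Finset.sum_congr rfl fun h _ => ?_
      rw [Finset.sum_comm]
    have h3 : ∑ b' : F, S b' = ∑ h : H, ∑ h' : H, ∑ b' : F, ∑ x : F,
        g (x + b' * ((h : Fˣ) : F)) * g (x + b' * ((h' : Fˣ) : F)) := by
      simp only [h1]
      rw [Finset.sum_comm]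
      refine Finset.sum_congr rfl fun h _ => ?_
      rw [Finset.sum_comm]
    rw [h3]
    have h4 : ∀ h : H, ∑ h' : H, ∑ b' : F, ∑ x : F,
        g (x + b' * ((h : Fˣ) : F)) * g (x + b' * ((h' : Fˣ) : F)) =
        (Fintype.card F : ℝ) * ∑ x, g x ^ 2 := by
      intro h
      have h5 : ∀ h' : H, ∑ b' : F, ∑ x : F,
          g (x + b' * ((h : Fˣ) : F)) * g (x + b' * ((h' : Fˣ) : F)) =
          if h = h' then (Fintype.card F : ℝ) * ∑ x, g x ^ 2 else 0 := by
        intro h'
        rw [greedy_pair g hg (h : Fˣ) (h' : Fˣ)]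
        simp only [Subtype.coe_inj]
      simp only [h5, Finset.sum_ite_eq, Finset.mem_univ, if_true]
    simp only [h4, Finset.sum_const, Finset.card_univ, nsmul_eq_mul]
  have hinv : ∀ h0 : H, S ((b : F) * ((h0 : Fˣ) : F)) = S (b : F) := by
    intro h0
    refine Finset.sum_congr rfl fun x _ => ?_
    congr 1
    rw [← Equiv.sum_comp (Equiv.mulLeft h0) (fun h : H => g (x + (b : F) * ((h : Fˣ) : F)))]
    refine Finset.sum_congr rfl fun h _ => ?_
    simp [mul_assoc]
  have hφ : Function.Injective (fun h0 : H => (b : F) * ((h0 : Fˣ) : F)) := by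
    intro a a' haa
    have h1 : ((a : Fˣ) : F) = ((a' : Fˣ) : F) := mul_left_cancel₀ b.ne_zero haa
    exact Subtype.ext (Units.ext h1)
  have hle : ∑ h0 : H, S ((b : F) * ((h0 : Fˣ) : F)) ≤ ∑ b' : F, S b' := by
    have h1 : ∑ h0 : H, S ((b : F) * ((h0 : Fˣ) : F)) =
        ∑ y ∈ (univ : Finset H).map ⟨_, hφ⟩, S y := by
      rw [Finset.sum_map]
      rfl
    rw [h1]
    exact Finset.sum_le_sum_of_subset_of_nonneg (Finset.subset_univ _) fun y _ _ => hSnn y
  simp only [hinv, Finset.sum_const, Finset.card_univ, nsmul_eq_mul] at hle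
  rw [hT] at hle
  have hpos : (0 : ℝ) < Fintype.card H := by
    exact_mod_cast Fintype.card_pos_iff.2 ⟨1⟩
  exact le_of_mul_le_mul_left hle hpos

private theorem greedy_bad {F : Type} [Field F] [Fintype F] [DecidableEq F] (H : Subgroup Fˣ)
    [Fintype H] (e : ℕ) (he : 0 < e) (hH : H.index = e) (b : Fˣ) (A : Finset F) :
    (((univ : Finset F).filter fun x => 4 * e * ((univ : Finset H).filter
        fun h : H => x + (b : F) * ((h : Fˣ) : F) ∈ A).card < A.card).card : ℝ) * A.card ≤
      16 * (e : ℝ) ^ 2 * Fintype.card F := by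
  classical
  set q : ℝ := (Fintype.card F : ℝ) with hq
  set α : ℝ := (A.card : ℝ) with hα
  set Bd := (univ : Finset F).filter fun x => 4 * e * ((univ : Finset H).filter
        fun h : H => x + (b : F) * ((h : Fˣ) : F) ∈ A).card < A.card with hBd
  have he' : (0 : ℝ) < e := by exact_mod_cast he
  have hq2 : 2 ≤ Fintype.card F := by
    have := Fintype.one_lt_card (α := F)
    omega
  have hq2' : (2 : ℝ) ≤ q := by
    rw [hq]
    exact_mod_cast hq2
  have hq0 : 0 < q := by linarith
  rcases Nat.eq_zero_or_pos A.card with hA0 | hApos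
  · have : α = 0 := by
      rw [hα, hA0]
      simp
    rw [this, mul_zero]
    positivity
  have hα0 : 0 < α := by
    rw [hα]
    exact_mod_cast hApos
  have hcard : (Fintype.card H : ℝ) * e = q - 1 := by
    have h1 := Subgroup.card_mul_index H
    rw [hH, Nat.card_eq_fintype_card, Nat.card_eq_fintype_card, Fintype.card_units] at h1
    have h2 : ((Fintype.card H * e : ℕ) : ℝ) = ((Fintype.card F - 1 : ℕ) : ℝ) := by rw [h1]
    rw [Nat.cast_sub (by omega)] at h2
    push_cast at h2
    exact h2
  set g : F → ℝ := fun y => (if y ∈ A then 1 else 0) - α / q with hgdef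
  have hg : ∑ x, g x = 0 := by
    rw [hgdef, Finset.sum_sub_distrib, Finset.sum_const, Finset.card_univ, nsmul_eq_mul]
    rw [Finset.sum_ite_mem, Finset.univ_inter, Finset.sum_const, nsmul_eq_mul, mul_one,
      ← hq, ← hα]
    field_simp
    ring
  have hg2 : ∑ x, g x ^ 2 ≤ α := by
    have h1 : ∀ x, g x ^ 2 = (if x ∈ A then 1 else 0) - 2 * (α / q) * (if x ∈ A then 1 else 0) +
        (α / q) ^ 2 := by
      intro x
      rw [hgdef]
      by_cases hx : x ∈ A
      · simp only [hx, if_true]
        ring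
      · simp only [hx, if_false]
        ring
    simp only [h1]
    rw [Finset.sum_add_distrib, Finset.sum_sub_distrib, ← Finset.mul_sum, Finset.sum_const,
      Finset.card_univ, nsmul_eq_mul, Finset.sum_ite_mem, Finset.univ_inter, Finset.sum_const,
      nsmul_eq_mul, mul_one, ← hq, ← hα]
    have h2 : α - 2 * (α / q) * α + q * (α / q) ^ 2 = α - α ^ 2 / q := by
      field_simp
      ring
    rw [h2]
    have : 0 ≤ α ^ 2 / q := by positivity
    linarith
  have hmom := greedy_moment H b g hg
  have hN : ∀ x : F, ∑ h : H, g (x + (b : F) * ((h : Fˣ) : F)) =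
      (((univ : Finset H).filter fun h : H => x + (b : F) * ((h : Fˣ) : F) ∈ A).card : ℝ) -
        (Fintype.card H : ℝ) * (α / q) := by
    intro x
    rw [hgdef]
    simp only
    rw [Finset.sum_sub_distrib, Finset.sum_const, Finset.card_univ, nsmul_eq_mul,
      Finset.sum_boole]
  have hbad : ∀ x ∈ Bd, (α / (4 * e)) ^ 2 ≤ (∑ h : H, g (x + (b : F) * ((h : Fˣ) : F))) ^ 2 := by
    intro x hx
    rw [hBd, Finset.mem_filter] at hx
    have h1 : (4 : ℝ) * e * (((univ : Finset H).filter
        fun h : H => x + (b : F) * ((h : Fˣ) : F) ∈ A).card : ℝ) < α := by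
      rw [hα]
      exact_mod_cast hx.2
    rw [hN x]
    set n : ℝ := (((univ : Finset H).filter
        fun h : H => x + (b : F) * ((h : Fˣ) : F) ∈ A).card : ℝ)
    have h2 : n < α / (4 * e) := by
      rw [lt_div_iff₀ (by positivity)]
      linarith
    have h3 : α / (2 * e) ≤ (Fintype.card H : ℝ) * (α / q) := by
      have h4 : (Fintype.card H : ℝ) = (q - 1) / e := by
        field_simp
        linarith
      rw [h4]
      have h5 : (q - 1) / e * (α / q) = α / (2 * e) * (2 * (q - 1) / q) := by
        field_simp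
      rw [h5]
      have h6 : 1 ≤ 2 * (q - 1) / q := by
        rw [le_div_iff₀ hq0]
        linarith
      have h7 : 0 ≤ α / (2 * e) := by positivity
      nlinarith
    have h8 : α / (2 * e) = α / (4 * e) + α / (4 * e) := by
      field_simp
      ring
    have h9 : α / (4 * e) ≤ (Fintype.card H : ℝ) * (α / q) - n := by linarith
    have h10 : 0 ≤ α / (4 * e) := by positivity
    nlinarith
  have hsum : (Bd.card : ℝ) * (α / (4 * e)) ^ 2 ≤ q * α := by
    calc (Bd.card : ℝ) * (α / (4 * e)) ^ 2 = ∑ x ∈ Bd, (α / (4 * e)) ^ 2 := by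
          rw [Finset.sum_const, nsmul_eq_mul]
      _ ≤ ∑ x ∈ Bd, (∑ h : H, g (x + (b : F) * ((h : Fˣ) : F))) ^ 2 := Finset.sum_le_sum hbad
      _ ≤ ∑ x : F, (∑ h : H, g (x + (b : F) * ((h : Fˣ) : F))) ^ 2 :=
          Finset.sum_le_sum_of_subset_of_nonneg (Finset.subset_univ _) fun y _ _ => sq_nonneg _
      _ ≤ q * ∑ x, g x ^ 2 := hmom
      _ ≤ q * α := by
          exact mul_le_mul_of_nonneg_left hg2 hq0.le
  have h11 : (Bd.card : ℝ) * (α / (4 * e)) ^ 2 = (Bd.card : ℝ) * α * (α / (16 * e ^ 2)) := by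
    field_simp
    ring
  rw [h11] at hsum
  have h12 : q * α = (16 * (e : ℝ) ^ 2 * q) * (α / (16 * e ^ 2)) := by
    field_simp
  rw [h12] at hsum
  exact le_of_mul_le_mul_right hsum (by positivity)

/-- The inductive form: the points lie in prescribed large sets. -/
private theorem greedy_ind (e : ℕ) (he : 0 < e) : ∀ (k : ℕ) (δ : ℝ), 0 < δ →
    ∃ q0 : ℕ, ∀ (F : Type) (_ : Field F) (_ : Fintype F) (H : Subgroup Fˣ), H.index = e →
      q0 ≤ Fintype.card F → ∀ (A : Fin k → Finset F),
      (∀ i, δ * (Fintype.card F : ℝ) ≤ (A i).card) →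
      ∀ c : Fin k → Fin k → Fˣ ⧸ H, ∃ x : Fin k → F, (∀ i, x i ∈ A i) ∧
        ∀ i j, i < j → ∃ u : Fˣ, (u : Fˣ ⧸ H) = c i j ∧ x j - x i = u := by
  intro k
  induction k with
  | zero =>
    intro δ _
    exact ⟨0, fun F _ _ H _ _ A _ c => ⟨fun i => i.elim0, fun i => i.elim0, fun i => i.elim0⟩⟩
  | succ k ih =>
    intro δ hδ
    have he' : (0 : ℝ) < e := by exact_mod_cast he
    obtain ⟨q1, hq1⟩ := ih (δ / (4 * e)) (by positivity)
    obtain ⟨q2, hq2⟩ := exists_nat_gt ((k : ℝ) * (16 * (e : ℝ) ^ 2 / δ) / δ)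
    refine ⟨max q1 q2, fun F _ _ H hH hF A hA c => ?_⟩
    classical
    have hqpos : (0 : ℝ) < Fintype.card F := by
      exact_mod_cast Fintype.card_pos_iff.2 ⟨0⟩
    have hb : ∀ j : Fin k, ∃ b : Fˣ, (b : Fˣ ⧸ H) = c 0 j.succ := fun j =>
      QuotientGroup.mk_surjective (c 0 j.succ)
    choose b hb using hb
    set Bd : Fin k → Finset F := fun j => (univ : Finset F).filter fun x =>
      4 * e * ((univ : Finset H).filter
        fun h : H => x + (b j : F) * ((h : Fˣ) : F) ∈ A j.succ).card < (A j.succ).card with hBd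
    have hBdc : ∀ j, ((Bd j).card : ℝ) ≤ 16 * (e : ℝ) ^ 2 / δ := by
      intro j
      have h1 := greedy_bad H e he hH (b j) (A j.succ)
      have h2 := hA j.succ
      rw [le_div_iff₀ hδ]
      have h3 : ((Bd j).card : ℝ) * (δ * (Fintype.card F : ℝ)) ≤
          16 * (e : ℝ) ^ 2 * Fintype.card F :=
        (mul_le_mul_of_nonneg_left h2 (Nat.cast_nonneg _)).trans h1
      have h4 : ((Bd j).card : ℝ) * δ * (Fintype.card F : ℝ) ≤
          16 * (e : ℝ) ^ 2 * Fintype.card F := by linarith
      exact le_of_mul_le_mul_right h4 hqpos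
    have hex : ∃ x0 ∈ A 0, x0 ∉ (univ : Finset (Fin k)).biUnion Bd := by
      by_contra hno
      push Not at hno
      have hsub : A 0 ⊆ (univ : Finset (Fin k)).biUnion Bd := hno
      have h1 : ((A 0).card : ℝ) ≤ (k : ℝ) * (16 * (e : ℝ) ^ 2 / δ) := by
        calc ((A 0).card : ℝ) ≤ (((univ : Finset (Fin k)).biUnion Bd).card : ℝ) := by
              exact_mod_cast Finset.card_le_card hsub
          _ ≤ ((∑ j : Fin k, (Bd j).card : ℕ) : ℝ) := by
              exact_mod_cast Finset.card_biUnion_le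
          _ = ∑ j : Fin k, ((Bd j).card : ℝ) := by push_cast; rfl
          _ ≤ ∑ _j : Fin k, (16 * (e : ℝ) ^ 2 / δ) := Finset.sum_le_sum fun j _ => hBdc j
          _ = (k : ℝ) * (16 * (e : ℝ) ^ 2 / δ) := by simp
      have h2 : (q2 : ℝ) ≤ Fintype.card F := by
        exact_mod_cast (le_max_right q1 q2).trans hF
      have h3 := hA 0
      have h4 : (k : ℝ) * (16 * (e : ℝ) ^ 2 / δ) / δ < Fintype.card F := lt_of_lt_of_le hq2 h2
      rw [div_lt_iff₀ hδ] at h4
      linarith
    obtain ⟨x0, hx0A, hx0⟩ := hex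
    set A' : Fin k → Finset F := fun j => (A j.succ).filter fun y =>
      ∃ u : Fˣ, (u : Fˣ ⧸ H) = c 0 j.succ ∧ y - x0 = u with hA'
    have hA'c : ∀ j, δ / (4 * e) * (Fintype.card F : ℝ) ≤ (A' j).card := by
      intro j
      have h1 : x0 ∉ Bd j := fun h => hx0 (Finset.mem_biUnion.2 ⟨j, Finset.mem_univ j, h⟩)
      rw [hBd] at h1
      simp only [Finset.mem_filter, Finset.mem_univ, true_and, not_lt] at h1
      have h2 : ((univ : Finset H).filter
          fun h : H => x0 + (b j : F) * ((h : Fˣ) : F) ∈ A j.succ).card ≤ (A' j).card := by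
        refine Finset.card_le_card_of_injOn (fun h : H => x0 + (b j : F) * ((h : Fˣ) : F)) ?_ ?_
        · intro h hh
          simp only [Finset.coe_filter, Finset.mem_univ, true_and, Set.mem_setOf_eq] at hh
          rw [hA']
          simp only [Finset.coe_filter, Set.mem_setOf_eq]
          refine ⟨hh, b j * (h : Fˣ), ?_, ?_⟩
          · rw [← hb j]
            rw [QuotientGroup.eq]
            simp
          · simp
        · intro h _ h' _ heq
          simp only [add_right_inj] at heq
          exact Subtype.ext (Units.ext (mul_left_cancel₀ (b j).ne_zero heq))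
      have h3 : ((A j.succ).card : ℝ) ≤ 4 * e * ((A' j).card : ℝ) := by
        have h4 : (A j.succ).card ≤ 4 * e * (A' j).card :=
          h1.trans (Nat.mul_le_mul_left _ h2)
        exact_mod_cast h4
      have h5 := hA j.succ
      have h6 : δ / (4 * e) * (Fintype.card F : ℝ) = δ * (Fintype.card F : ℝ) / (4 * e) := by
        ring
      rw [h6, div_le_iff₀ (by positivity)]
      linarith
    obtain ⟨x, hxA, hx⟩ := hq1 F _ _ H hH ((le_max_left q1 q2).trans hF) A' hA'c
      (fun i j => c i.succ j.succ)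
    refine ⟨Fin.cons x0 x, ?_, ?_⟩
    · intro i
      refine Fin.cases ?_ (fun i => ?_) i
      · simpa using hx0A
      · have := hxA i
        rw [hA', Finset.mem_filter] at this
        simpa using this.1
    · intro i j
      refine Fin.cases ?_ (fun i => ?_) i
      · refine Fin.cases ?_ (fun j => ?_) j
        · intro h
          exact absurd h (lt_irrefl _)
        · intro _
          have := hxA j
          rw [hA', Finset.mem_filter] at this
          simpa using this.2
      · refine Fin.cases ?_ (fun j => ?_) j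
        · intro h
          exact absurd h (by simp)
        · intro h
          have := hx i j (Fin.succ_lt_succ_iff.1 h)
          simpa using this

theorem greedy : Greedy := by
  intro k e he
  obtain ⟨q0, hq0⟩ := greedy_ind e he k 1 one_pos
  refine ⟨q0, fun F _ _ H hH hF c => ?_⟩
  classical
  have : Fintype F := Fintype.ofFinite F
  rw [Nat.card_eq_fintype_card] at hF
  obtain ⟨x, _, hx⟩ := hq0 F _ _ H hH hF (fun _ => univ) (fun i => by simp) c
  exact ⟨x, hx⟩

end Pool.Agent.Helper69.WV
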