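import Mathlib
import Pool.Agent.Helper69.WV.St
import Pool.Agent.Helper69.WV.Basic

/-!
Project WV, piece IN: inflation of a group divisible design by a transversal design.

Blocks `f : ι → Fin k → V`, rows `g` of the orthogonal array on `Fin m` with `k` columns. For a
block `b` and a point `x` of the block let `ρ b x` be one position of `x`. The new blocks are
`i ↦ (f b i, g (ρ b (f b i)))`.
-/

set_option autoImplicit false

namespace Pool.Agent.Helper69.WV

/-- A position of the point in a block, the same for all positions that hold the same point. -/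
theorem inflate_pos {V : Type} {k : ℕ} (g : Fin k → V) (h : ∃ i j, g i ≠ g j) :
    ∃ ρ : V → Fin k, ∀ i, g (ρ (g i)) = g i := by
  classical
  obtain ⟨i₀, -⟩ := h
  refine ⟨fun x => if hx : ∃ j, g j = x then hx.choose else i₀, fun i => ?_⟩
  have hx : ∃ j, g j = g i := ⟨i, rfl⟩
  simp only [dif_pos hx]
  exact hx.choose_spec

theorem inflate_no {ι V : Type} [Finite ι] {k : ℕ} (f : ι → Fin k → V) (x y : V)
    (h : cc f x y = 0) : ∀ b i j, f b i = x → f b j = y → False := by
  intro b i j h1 h2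
  unfold cc at h
  rw [Nat.card_eq_zero] at h
  rcases h with h | h
  · exact h.false ⟨(b, i, j), h1, h2⟩
  · exact h.not_finite (inferInstance : Finite _)

theorem inflate : Inflate := by
  intro k l m V I γ hD hT
  obtain ⟨ι, hι, f, h1, h2, h3⟩ := hD
  obtain ⟨B, hB⟩ := hT
  choose ρ hρ using fun b => inflate_pos (f b) (h1 b)
  have hfin : Finite ↥B := inferInstance
  refine ⟨ι × ↥B, inferInstance, fun b i => (f b.1 i, b.2.1 (ρ b.1 (f b.1 i))), ?_, ?_, ?_⟩
  · rintro ⟨b, g⟩
    obtain ⟨i, j, hij⟩ := h1 b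
    exact ⟨i, j, fun h => hij (congrArg Prod.fst h)⟩
  · rintro ⟨x, s⟩ ⟨y, t⟩ hxy
    have hxy' : γ x ≠ γ y := hxy
    have hne : x ≠ y := fun h => hxy' (congrArg γ h)
    rw [← h2 x y hxy']
    unfold cc
    refine Nat.card_eq_of_bijective (fun p => ⟨(p.1.1.1, p.1.2.1, p.1.2.2),
      congrArg Prod.fst p.2.1, congrArg Prod.fst p.2.2⟩) ⟨?_, ?_⟩
    · rintro ⟨⟨⟨b, g⟩, i, j⟩, hp1, hp2⟩ ⟨⟨⟨b', g'⟩, i', j'⟩, hq1, hq2⟩ h
      have hb : b = b' := congrArg (fun p => p.1.1) h
      have hi : i = i' := congrArg (fun p => p.1.2.1) h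
      have hj : j = j' := congrArg (fun p => p.1.2.2) h
      subst hb hi hj
      have a1 : f b i = x := congrArg Prod.fst hp1
      have a2 : g.1 (ρ b (f b i)) = s := congrArg Prod.snd hp1
      have b1 : f b j = y := congrArg Prod.fst hp2
      have b2 : g.1 (ρ b (f b j)) = t := congrArg Prod.snd hp2
      have c2 : g'.1 (ρ b (f b i)) = s := congrArg Prod.snd hq1
      have d2 : g'.1 (ρ b (f b j)) = t := congrArg Prod.snd hq2
      have hρne : ρ b x ≠ ρ b y := by
        intro h
        have e1 := hρ b i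
        have e2 := hρ b j
        rw [a1] at e1
        rw [b1] at e2
        rw [h, e2] at e1
        exact hne e1.symm
      rw [a1] at a2
      rw [b1] at b2
      rw [a1] at c2
      rw [b1] at d2
      have := (hB _ _ hρne s t).unique ⟨g.2, a2, b2⟩ ⟨g'.2, c2, d2⟩
      have hg : g = g' := Subtype.ext this
      subst hg
      rfl
    · rintro ⟨⟨b, i, j⟩, a1, b1⟩
      simp only at a1 b1
      have hρne : ρ b x ≠ ρ b y := by
        intro h
        have e1 := hρ b i
        have e2 := hρ b j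
        rw [a1] at e1
        rw [b1] at e2
        rw [h, e2] at e1
        exact hne e1.symm
      obtain ⟨g, ⟨hg, hgs, hgt⟩, -⟩ := hB _ _ hρne s t
      refine ⟨⟨((b, ⟨g, hg⟩), i, j), ?_, ?_⟩, rfl⟩
      · simp only [a1, hgs]
      · simp only [b1, hgt]
  · rintro ⟨x, s⟩ ⟨y, t⟩ hne hγ
    have hγ' : γ x = γ y := hγ
    refine cc_eq_zero _ _ _ ?_
    rintro ⟨b, g⟩ i j e1 e2
    simp only [Prod.mk.injEq] at e1 e2
    by_cases hxy : x = y
    · subst hxy
      rw [e1.1] at e1
      rw [e2.1] at e2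
      exact hne (by rw [← e1.2, ← e2.2])
    · exact inflate_no f x y (h3 x y hxy hγ') b i j e1.1 e2.1

end Pool.Agent.Helper69.WV
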