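import Mathlib
import Pool.Agent.Helper69.WV.St

/-!
Project WV: one more statement (a truncated transversal design with weights).
-/

set_option autoImplicit false

namespace Pool.Agent.Helper69.WV

/-- From designs of the types `w^m` and `w^m h^1` and a transversal design, a design of the type
`(w t)^m (h u)^1`. -/
def TruncGdd : Prop :=
  ∀ k l m t u w h : ℕ, 2 ≤ m → u ≤ t → TD (m + 1) t → m ∈ RS k l w →
    DD k l (Sum.elim (fun p => some p.1) (fun _ => none) :
      (Fin m × Fin w) ⊕ Fin h → Option (Fin m)) →
    DD k l (Sum.elim (fun p => some p.1) (fun _ => none) :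
      (Fin m × (Fin t × Fin w)) ⊕ (Fin u × Fin h) → Option (Fin m))

end Pool.Agent.Helper69.WV
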