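import Mathlib
import Pool.Agent.Helper69.WV.St2
import Pool.Agent.Helper69.WV.Basic

/-!
Project WV: small lemmas for the assembly.
-/

set_option autoImplicit false

namespace Pool.Agent.Helper69.WV

theorem nice_congr {n l : ℕ} {V V' : Type} (h : Nice n l V) (e : V ≃ V') : Nice n l V' := by
  obtain ⟨ι, hι, f, h1, h2, h3⟩ := h
  refine ⟨ι, hι, fun b i => e (f b i), ?_, ?_, ?_⟩
  · intro b i j hij h
    exact h1 b i j hij (e.injective h)
  · intro x y hxy
    obtain ⟨x, rfl⟩ := e.surjective x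
    obtain ⟨y, rfl⟩ := e.surjective y
    rw [cc_comp f e e.injective]
    exact h2 x y fun h => hxy (congrArg e h)
  · intro a
    obtain ⟨a, rfl⟩ := e.surjective a
    obtain ⟨b, b', hb, h4, h5, h6, h7⟩ := h3 a
    exact ⟨b, b', hb, congrArg e h4, congrArg e h5, congrArg e h6, congrArg e h7⟩

theorem nice_ks {n l v : ℕ} (h : Nice n l (Fin v)) : v ∈ KS (n + 3) l := by
  obtain ⟨ι, hι, f, h1, h2, -⟩ := h
  refine ⟨ι, hι, f, ?_, ?_, ?_⟩
  · intro b
    refine ⟨⟨1, by omega⟩, ⟨2, by omega⟩, ?_⟩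
    intro h
    have h3 := (h1 b ⟨1, by omega⟩ ⟨2, by omega⟩ (by simp [Fin.lt_def]) h).1
    rw [Fin.ext_iff] at h3
    simp at h3
  · intro x y hxy
    exact h2 x y hxy
  · intro x y hne hxy
    exact absurd hxy hne

theorem ks_rs (hIn : Inflate) {k l q w : ℕ} (h : q ∈ KS k l) (hT : TD k w) : q ∈ RS k l w := by
  have := hIn k l w (Fin q) (Fin q) id h hT
  exact this

theorem rs_mul (hIn : Inflate) {k l q w m : ℕ} (h : q ∈ RS k l w) (hT : TD k m) :
    q ∈ RS k l (w * m) := by
  have h1 := hIn k l m (Fin q × Fin w) (Fin q) Prod.fst h hT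
  refine DD.congr h1 ((Equiv.prodAssoc (Fin q) (Fin w) (Fin m)).trans
    ((Equiv.refl (Fin q)).prodCongr finProdFinEquiv)) ?_
  intro x y
  simp

theorem ks_of_rs (hF1 : Fill1) {k l t w : ℕ} (h : t ∈ RS k l w) (hw : w + 1 ∈ KS k l) :
    t * w + 1 ∈ KS k l := by
  have h1 := hF1 k l (Fin t × Fin w) (Fin t) inferInstance Prod.fst h ?_
  · simpa using h1
  · intro i
    have h2 : Nat.card {x : Fin t × Fin w // x.1 = i} = w := by
      rw [Nat.card_congr (β := Fin w) ?_]
      · simp
      · exact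
          { toFun := fun x => x.1.2
            invFun := fun a => ⟨(i, a), rfl⟩
            left_inv := by
              rintro ⟨⟨a, b⟩, h⟩
              simp only at h
              subst h
              rfl
            right_inv := fun _ => rfl }
    rw [h2]
    exact hw

end Pool.Agent.Helper69.WV
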