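import Mathlib
import Pool.Agent.Helper69.WV.Small
import Pool.Agent.Helper52.VBDefs

/-!
Project WV: from functions on positions to multisets; sums of designs.
-/

set_option autoImplicit false

namespace Pool.Agent.Helper69.WV

open Pool.Agent.Helper52.VB

theorem link_count {V : Type} [DecidableEq V] {k : ℕ} (f : Fin k → V) (x : V) :
    (Finset.univ.val.map f).count x = Fintype.card {i // f i = x} := by
  rw [Multiset.count_map, Fintype.card_subtype]
  simp only [Finset.card, Finset.filter_val, eq_comm]

theorem link {k l v : ℕ} (h : v ∈ KS k l) : ∃ D : Multiset (Multiset (Fin v)), IsVB v k l D := by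
  classical
  obtain ⟨ι, hι, f, h1, h2, -⟩ := h
  have := Fintype.ofFinite ι
  refine ⟨Finset.univ.val.map fun b => Finset.univ.val.map (f b), ?_, ?_⟩
  · intro B hB
    rw [Multiset.mem_map] at hB
    obtain ⟨b, -, rfl⟩ := hB
    refine ⟨by simp, ?_⟩
    intro x hx
    obtain ⟨i, j, hij⟩ := h1 b
    have hi : f b i ∈ Multiset.replicate k x := by
      rw [← hx]
      exact Multiset.mem_map_of_mem _ (Finset.mem_univ i)
    have hj : f b j ∈ Multiset.replicate k x := by
      rw [← hx]
      exact Multiset.mem_map_of_mem _ (Finset.mem_univ j)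
    exact hij ((Multiset.eq_of_mem_replicate hi).trans (Multiset.eq_of_mem_replicate hj).symm)
  · intro x y hxy
    have h3 := h2 x y hxy
    rw [← h3]
    unfold conc cc
    rw [Multiset.map_map]
    have h4 : ∀ b, ((fun B : Multiset (Fin v) => B.count x * B.count y) ∘
        fun b => Finset.univ.val.map (f b)) b =
        Fintype.card {p : Fin k × Fin k // f b p.1 = x ∧ f b p.2 = y} := by
      intro b
      simp only [Function.comp_apply]
      rw [link_count, link_count, ← Fintype.card_prod]
      refine Fintype.card_congr ?_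
      exact
        { toFun := fun p => ⟨(p.1.1, p.2.1), p.1.2, p.2.2⟩
          invFun := fun p => (⟨p.1.1, p.2.1⟩, ⟨p.1.2, p.2.2⟩)
          left_inv := fun _ => rfl
          right_inv := fun _ => rfl }
    rw [Multiset.map_congr rfl (fun b _ => h4 b)]
    change ∑ b, Fintype.card {p : Fin k × Fin k // f b p.1 = x ∧ f b p.2 = y} = _
    rw [← Fintype.card_sigma, Nat.card_eq_fintype_card]
    refine Fintype.card_congr ?_
    exact
      { toFun := fun p => ⟨(p.1, p.2.1), p.2.2⟩
        invFun := fun p => ⟨p.1.1, p.1.2, p.2⟩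
        left_inv := fun _ => rfl
        right_inv := fun _ => rfl }

theorem ks_add {k a b v : ℕ} (ha : v ∈ KS k a) (hb : v ∈ KS k b) : v ∈ KS k (a + b) := by
  classical
  obtain ⟨ι, hι, f, h1, h2, -⟩ := ha
  obtain ⟨κ, hκ, g, h3, h4, -⟩ := hb
  refine ⟨ι ⊕ κ, inferInstance, Sum.elim f g, ?_, ?_, ?_⟩
  · rintro (b | b)
    · exact h1 b
    · exact h3 b
  · intro x y hxy
    rw [← h2 x y hxy, ← h4 x y hxy]
    unfold cc
    rw [← Nat.card_sum]
    refine Nat.card_congr ?_
    exact
      { toFun := fun p => match p with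
          | ⟨(Sum.inl b, q), hp⟩ => Sum.inl ⟨(b, q), hp⟩
          | ⟨(Sum.inr b, q), hp⟩ => Sum.inr ⟨(b, q), hp⟩
        invFun := fun p => match p with
          | Sum.inl p => ⟨(Sum.inl p.1.1, p.1.2), p.2⟩
          | Sum.inr p => ⟨(Sum.inr p.1.1, p.1.2), p.2⟩
        left_inv := by rintro ⟨⟨b | b, q⟩, hp⟩ <;> rfl
        right_inv := by rintro (p | p) <;> rfl }
  · intro x y hne hxy
    exact absurd hxy hne

theorem ks_even {k v : ℕ} (h : v ∈ KS k 2) (j : ℕ) : v ∈ KS k (2 * (j + 1)) := by
  induction j with
  | zero => simpa using h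
  | succ j ih =>
    have := ks_add ih h
    rwa [show 2 * (j + 1) + 2 = 2 * (j + 1 + 1) by ring] at this

/-- The block consisting of all points, `l` times. -/
theorem self_ks {k : ℕ} (hk : 2 ≤ k) (l : ℕ) : k ∈ KS k l := by
  refine ⟨Fin l, inferInstance, fun _ i => i, ?_, ?_, ?_⟩
  · intro _
    exact ⟨⟨0, by omega⟩, ⟨1, by omega⟩, by simp⟩
  · intro x y _
    unfold cc
    rw [Nat.card_congr (β := Fin l) ?_]
    · simp
    · exact
        { toFun := fun p => p.1.1
          invFun := fun b => ⟨(b, x, y), rfl, rfl⟩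
          left_inv := by
            rintro ⟨⟨b, i, j⟩, hi, hj⟩
            simp only at hi hj
            subst hi
            subst hj
            rfl
          right_inv := fun _ => rfl }
  · intro x y hne hxy
    exact absurd hxy hne

end Pool.Agent.Helper69.WV
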