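import Mathlib
import Pool.Agent.Helper69.WV.Link

/-!
Project WV: the main theorem from the pieces.
-/

set_option autoImplicit false

namespace Pool.Agent.Helper69.WV

/-- An even order for concurrence two. -/
theorem exists_even_two (hGF : GField) (hNP : NicePrimes) (hF0 : Fill0) (n : ℕ) :
    ∃ r0, 0 < r0 ∧ Even r0 ∧ r0 ∈ KS (n + 3) 2 := by
  obtain ⟨q, hqp, -, -, hqN⟩ := hNP n 2 le_rfl 1 0 0 one_pos (by simp)
  have : Fact (Nat.Prime 2) := ⟨Nat.prime_two⟩
  have hcard : Nat.card (GaloisField 2 (n + 3)) = 2 ^ (n + 3) := GaloisField.card 2 (n + 3) (by omega)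
  have hfin : Finite (GaloisField 2 (n + 3)) := by
    apply Nat.finite_of_card_ne_zero
    rw [hcard]
    positivity
  have h1 := hGF n q hqN (GaloisField 2 (n + 3)) inferInstance hfin (by
    rw [hcard]
    exact (Nat.lt_two_pow_self).le)
  rw [hcard] at h1
  refine ⟨2 ^ (n + 3) * q, Nat.mul_pos (by positivity) hqp.pos, ?_, ?_⟩
  · refine Even.mul_right ?_ _
    exact Nat.even_pow.2 ⟨even_two, by omega⟩
  · have h2 := hF0 (n + 3) 2 (Fin (2 ^ (n + 3)) × Fin q) (Fin (2 ^ (n + 3))) inferInstance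
      Prod.fst h1 ?_
    · simpa using h2
    · intro i
      have h3 : Nat.card {x : Fin (2 ^ (n + 3)) × Fin q // x.1 = i} = q := by
        rw [Nat.card_congr (β := Fin q) ?_]
        · simp
        · exact
            { toFun := fun x => x.1.2
              invFun := fun a => ⟨(i, a), rfl⟩
              left_inv := by
                rintro ⟨⟨a, b⟩, h⟩
                simp only at h
                subst h
                rfl
              right_inv := fun _ => rfl }
      rw [h3]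
      exact nice_ks hqN

theorem main_of (hCK : ClosedK) (hAL : AllLarge) (hGF : GField) (hNP : NicePrimes) (hF0 : Fill0)
    (hO : OddLarge) : Main := by
  intro k hk
  obtain ⟨n, rfl⟩ : ∃ n, k = n + 3 := ⟨k - 3, by omega⟩
  obtain ⟨o2, ho2⟩ := hO n 2 (Or.inl rfl)
  obtain ⟨o3, ho3⟩ := hO n 3 (Or.inr rfl)
  have hall : ∀ l o, (∀ v, o ≤ v → Odd v → v ∈ KS (n + 3) l) →
      (∃ r0, 0 < r0 ∧ Even r0 ∧ r0 ∈ KS (n + 3) l) → ∃ v1, ∀ v, v1 ≤ v → v ∈ KS (n + 3) l := by
    rintro l o ho ⟨r0, h1, h2, h3⟩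
    refine hAL (KS (n + 3) l) (hCK (n + 3) l) ⟨o + 3, ?_⟩ r0 h1 h2 h3
    intro p hp hpo
    exact ho p (by omega) (hp.odd_of_ne_two (by omega))
  obtain ⟨a2, ha2⟩ := hall 2 o2 ho2 (exists_even_two hGF hNP hF0 n)
  -- `l = 3`
  have h3 : ∃ a3, ∀ v, a3 ≤ v → (Even (n + 3) ∨ Odd v) → v ∈ KS (n + 3) 3 := by
    by_cases hev : Even (n + 3)
    · obtain ⟨a3, ha3⟩ := hall 3 o3 ho3 ⟨n + 3, by omega, hev, self_ks (by omega) 3⟩
      exact ⟨a3, fun v hv _ => ha3 v hv⟩
    · refine ⟨o3, fun v hv h => ?_⟩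
      rcases h with h | h
      · exact absurd h hev
      · exact ho3 v hv h
  obtain ⟨a3, ha3⟩ := h3
  refine ⟨a2 + a3 + 1, ?_⟩
  intro v hv l hl h
  rcases Nat.even_or_odd l with hle | hlo
  · obtain ⟨j, hj⟩ : ∃ j, l = 2 * (j + 1) := by
      obtain ⟨c, hc⟩ := hle
      exact ⟨c - 1, by omega⟩
    rw [hj]
    exact ks_even (ha2 v (by omega)) j
  · have hvo : Even (n + 3) ∨ Odd v := by
      rcases h with h | h
      · exact Or.inl h
      · right
        rcases Nat.even_mul.1 h with h | h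
        · exact absurd h (Nat.not_even_iff_odd.2 hlo)
        · obtain ⟨c, hc⟩ := h
          exact ⟨c, by omega⟩
    have h4 := ha3 v (by omega) hvo
    obtain ⟨c, hc⟩ := hlo
    rcases Nat.lt_or_ge c 2 with hc2 | hc2
    · have : l = 3 := by omega
      rw [this]
      exact h4
    · obtain ⟨j, hj⟩ : ∃ j, l = 3 + 2 * (j + 1) := ⟨c - 2, by omega⟩
      rw [hj]
      exact ks_add h4 (ks_even (ha2 v (by omega)) j)

end Pool.Agent.Helper69.WV
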