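import Mathlib
import Pool.Agent.Helper69.WV.St
import Pool.Agent.Helper69.WV.Basic

/-!
Project WV, piece MA: a closed set which meets all unit classes and contains a positive even
number meets all residue classes.
-/

set_option autoImplicit false

namespace Pool.Agent.Helper69.WV

/-- Prescribed residues modulo all prime divisors. -/
theorem meetsAll_crt (M : ℕ) (c : ℕ → ℕ) :
    ∃ x, ∀ p, p.Prime → p ∣ M → M ≠ 0 → x ≡ c p [MOD p] := by
  obtain ⟨x, hx⟩ := Nat.chineseRemainderOfFinset c id M.primeFactors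
    (fun i hi => (Nat.prime_of_mem_primeFactors hi).ne_zero)
    (fun i hi j hj hij => (Nat.coprime_primes (Nat.prime_of_mem_primeFactors hi)
      (Nat.prime_of_mem_primeFactors hj)).2 hij)
  exact ⟨x, fun p hp hpM hM => hx p (Nat.mem_primeFactors.2 ⟨hp, hpM, hM⟩)⟩

/-- A number with prescribed residue modulo a power of two, and residue `1` or `2` modulo the odd
primes. -/
theorem meetsAll_pick (s M a c2 : ℕ) (hM : Odd M) :
    ∃ m, m ≡ c2 [MOD 2 ^ s] ∧ Nat.Coprime m M ∧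
      ∀ p, p.Prime → p ∣ M → (p ∣ a → m ≡ 2 [MOD p]) ∧ (¬ p ∣ a → m ≡ 1 [MOD p]) := by
  classical
  have hM0 : M ≠ 0 := by rintro rfl; simp at hM
  obtain ⟨x, hx⟩ := meetsAll_crt M (fun p => if p ∣ a then 2 else 1)
  have hco : Nat.Coprime (2 ^ s) M := Nat.Coprime.pow_left s (Nat.coprime_two_left.2 hM)
  obtain ⟨m, hm1, hm2⟩ := Nat.chineseRemainder hco c2 x
  have key : ∀ p, p.Prime → p ∣ M → (p ∣ a → m ≡ 2 [MOD p]) ∧ (¬ p ∣ a → m ≡ 1 [MOD p]) := by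
    intro p hp hpM
    have h1 : m ≡ (if p ∣ a then 2 else 1) [MOD p] :=
      (hm2.of_dvd hpM).trans (hx p hp hpM hM0)
    constructor
    · intro h; simpa [h] using h1
    · intro h; simpa [h] using h1
  refine ⟨m, hm1, ?_, key⟩
  refine Nat.coprime_of_dvd ?_
  intro p hp hpm hpM
  have hp2 : p ≠ 2 := by
    rintro rfl
    exact (Nat.not_even_iff_odd.2 hM) (even_iff_two_dvd.2 hpM)
  by_cases h : p ∣ a
  · have h1 := ((key p hp hpM).1 h)
    have h2 : p ∣ 2 := (Nat.modEq_zero_iff_dvd.1 (h1.symm.trans (Nat.modEq_zero_iff_dvd.2 hpm)))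
    exact hp2 ((Nat.prime_dvd_prime_iff_eq hp Nat.prime_two).1 h2)
  · have h1 := ((key p hp hpM).2 h)
    have h2 : p ∣ 1 := (Nat.modEq_zero_iff_dvd.1 (h1.symm.trans (Nat.modEq_zero_iff_dvd.2 hpm)))
    exact hp.one_lt.ne' (Nat.dvd_one.1 h2)

/-- Division by a unit modulo `N`. -/
theorem meetsAll_div (N m g : ℕ) (_hN : 0 < N) (h : Nat.Coprime m N) : ∃ w, m * w ≡ g [MOD N] := by
  obtain ⟨x, hx1, hx2⟩ := Nat.chineseRemainder h 0 g
  obtain ⟨w, rfl⟩ := Nat.modEq_zero_iff_dvd.1 hx1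
  exact ⟨w, hx2⟩

theorem meetsAll (hT : TDLarge) (hM : CMul) (hM1 : CMul1) : MeetsAll := by
  intro K hK hU r0 hr0 her0 hr0K N₀ r₀ B hN₀
  -- write `2 N₀ = 2 ^ s * M`
  obtain ⟨k, M, hModd, hN₀eq⟩ := Nat.exists_eq_two_pow_mul_odd hN₀.ne'
  obtain ⟨s, hs⟩ : ∃ s, s = k + 1 := ⟨_, rfl⟩
  obtain ⟨N, hN⟩ : ∃ N, N = 2 ^ s * M := ⟨_, rfl⟩
  have hNN : N = 2 * N₀ := by rw [hN, hs, hN₀eq]; ring
  have hNpos : 0 < N := by omega
  have h2s : 2 ∣ 2 ^ s := by rw [hs]; exact dvd_pow_self 2 (by omega)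
  have hco : Nat.Coprime (2 ^ s) M := Nat.Coprime.pow_left s (Nat.coprime_two_left.2 hModd)
  have hodd : ∀ p, p.Prime → p ∣ M → p ≠ 2 := by
    rintro p hp hpM rfl
    exact (Nat.not_even_iff_odd.2 hModd) (even_iff_two_dvd.2 hpM)
  have hcopN : ∀ m, Odd m → Nat.Coprime m M → Nat.Coprime m N := by
    intro m h1 h2
    rw [hN]
    exact Nat.Coprime.mul_right (Nat.Coprime.pow_right s (Nat.coprime_two_right.2 h1)) h2
  have hmodd : ∀ m c, m ≡ c [MOD 2 ^ s] → Odd c → Odd m := by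
    intro m c h1 h2
    have h3 : m ≡ c [MOD 2] := h1.of_dvd h2s
    rw [Nat.odd_iff] at h2 ⊢
    rw [← h2]; exact h3
  have hdN : 2 ^ s ∣ N := by rw [hN]; exact dvd_mul_right _ _
  have hMN : M ∣ N := by rw [hN]; exact dvd_mul_left _ _
  -- large members
  have hbig : ∀ m, m ∈ K → 1 ≤ m → ∃ n0, ∀ t, n0 ≤ t → TD m t := fun m _ _ => hT m
  -- Step 1
  obtain ⟨w1, hw1K, hw1pos, hw1s, hw1M⟩ : ∃ w1 ∈ K, 1 ≤ w1 ∧ 2 ^ s ∣ w1 ∧ Nat.Coprime w1 M := by
    obtain ⟨r1, hr1⟩ : ∃ r1, r0 = r1 + 1 := ⟨r0 - 1, by omega⟩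
    have hr1odd : Odd r1 := by
      rcases her0 with ⟨t, ht⟩
      exact ⟨t - 1, by omega⟩
    -- `c2 * r1 = -1`
    obtain ⟨c2, hc2⟩ := meetsAll_div (2 ^ s) r1 (2 ^ s - 1) (by positivity)
      (Nat.Coprime.pow_right s (Nat.coprime_two_right.2 hr1odd))
    have hc2' : 2 ^ s ∣ r1 * c2 + 1 := by
      have h1 : r1 * c2 + 1 ≡ 2 ^ s - 1 + 1 [MOD 2 ^ s] := hc2.add_right 1
      have h2 : 2 ^ s - 1 + 1 = 2 ^ s := Nat.sub_add_cancel (Nat.one_le_two_pow)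
      rw [h2] at h1
      exact Nat.modEq_zero_iff_dvd.1 (h1.trans (Nat.modEq_zero_iff_dvd.2 dvd_rfl))
    have hc2odd : Odd c2 := by
      by_contra hcon
      rw [Nat.not_odd_iff_even] at hcon
      have h1 : 2 ∣ r1 * c2 + 1 := h2s.trans hc2'
      have h2 : 2 ∣ r1 * c2 := Dvd.dvd.mul_left (even_iff_two_dvd.1 hcon) _
      omega
    obtain ⟨m, hm1, hm2, hm3⟩ := meetsAll_pick s M r0 c2 hModd
    obtain ⟨m', hm'K, hm'1, hm'm⟩ := hU N m 1 hNpos (hcopN m (hmodd m c2 hm1 hc2odd) hm2)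
    obtain ⟨nA, hnA⟩ := hT r0
    obtain ⟨nB, hnB⟩ := hT m'
    obtain ⟨q, hqK, hqB, hq⟩ := hU N 1 (nA + nB + 1) hNpos (Nat.coprime_one_left N)
    have hwK : r0 * q ∈ K := hM K hK r0 q hr0K hqK (hnA q (by omega))
    have hq1 : q ≤ r0 * q := Nat.le_mul_of_pos_left q hr0
    obtain ⟨w', hw'⟩ : ∃ w', r0 * q = w' + 1 := ⟨r0 * q - 1, by omega⟩
    have hw1K : m' * w' + 1 ∈ K := hM1 K hK m' w' hm'K (hw' ▸ hwK) (hnB w' (by omega))
    have hw'mod : w' ≡ r1 [MOD N] := by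
      have h1 : w' + 1 ≡ r1 + 1 [MOD N] := by
        rw [← hw', ← hr1]
        simpa using (Nat.ModEq.refl r0).mul hq
      exact Nat.ModEq.add_right_cancel' 1 h1
    refine ⟨m' * w' + 1, hw1K, by omega, ?_, ?_⟩
    · have h1 : m' * w' + 1 ≡ c2 * r1 + 1 [MOD 2 ^ s] :=
        (Nat.ModEq.mul ((hm'm.of_dvd hdN).trans hm1) (hw'mod.of_dvd hdN)).add_right 1
      have h2 : c2 * r1 + 1 = r1 * c2 + 1 := by ring
      rw [h2] at h1
      exact Nat.modEq_zero_iff_dvd.1 (h1.trans (Nat.modEq_zero_iff_dvd.2 hc2'))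
    · refine Nat.coprime_of_dvd ?_
      intro p hp hpw hpM
      have hp1 : ¬ p ∣ 1 := fun h => hp.one_lt.ne' (Nat.dvd_one.1 h)
      have hpN : p ∣ N := hpM.trans hMN
      by_cases hpr : p ∣ r0
      · have h1 : m' * w' + 1 ≡ 2 * r1 + 1 [MOD p] :=
          (Nat.ModEq.mul ((hm'm.of_dvd hpN).trans ((hm3 p hp hpM).1 hpr))
            (hw'mod.of_dvd hpN)).add_right 1
        have h2 : p ∣ 2 * r1 + 1 :=
          Nat.modEq_zero_iff_dvd.1 (h1.symm.trans (Nat.modEq_zero_iff_dvd.2 hpw))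
        have h3 : p ∣ 2 * r0 := Dvd.dvd.mul_left hpr 2
        have h4 : 2 * r0 = 2 * r1 + 1 + 1 := by omega
        rw [h4] at h3
        exact hp1 ((Nat.dvd_add_right h2).1 h3)
      · have h1 : m' * w' + 1 ≡ 1 * r1 + 1 [MOD p] :=
          (Nat.ModEq.mul ((hm'm.of_dvd hpN).trans ((hm3 p hp hpM).2 hpr))
            (hw'mod.of_dvd hpN)).add_right 1
        have h2 : p ∣ 1 * r1 + 1 :=
          Nat.modEq_zero_iff_dvd.1 (h1.symm.trans (Nat.modEq_zero_iff_dvd.2 hpw))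
        rw [one_mul, ← hr1] at h2
        exact hpr h2
  -- Step 2
  obtain ⟨r1, hr1⟩ : ∃ r1, r₀ + N = r1 + 1 := ⟨r₀ + N - 1, by omega⟩
  obtain ⟨c2, hc2odd, hc2a, hc2b⟩ : ∃ c2, Odd c2 ∧ (Odd (r1 + 1) → c2 + r1 ≡ r1 + 1 [MOD 2 ^ s]) ∧
      (Even (r1 + 1) → 2 ^ s ∣ c2 + r1) := by
    by_cases hpar : Odd (r1 + 1)
    · refine ⟨1, odd_one, fun _ => by rw [add_comm], fun h => ?_⟩
      exact absurd hpar (Nat.not_odd_iff_even.2 h)
    · have hev := Nat.not_odd_iff_even.1 hpar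
      have hr1o : Odd r1 := by
        rcases hev with ⟨t, ht⟩
        exact ⟨t - 1, by omega⟩
      have hso : Odd (2 ^ s - 1) := by
        obtain ⟨t, ht⟩ := h2s
        have : 1 ≤ 2 ^ s := Nat.one_le_two_pow
        exact ⟨t - 1, by omega⟩
      refine ⟨(2 ^ s - 1) * r1, hso.mul hr1o, fun h => absurd h hpar, fun _ => ?_⟩
      have h1 : (2 ^ s - 1) * r1 + r1 = 2 ^ s * r1 := by
        have : 2 ^ s = (2 ^ s - 1) + 1 := (Nat.sub_add_cancel (Nat.one_le_two_pow)).symm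
        conv_rhs => rw [this]
        ring
      rw [h1]
      exact dvd_mul_right _ _
  obtain ⟨m, hm1, hm2, hm3⟩ := meetsAll_pick s M (r1 + 1) c2 hModd
  obtain ⟨m', hm'K, hm'1, hm'm⟩ := hU N m 1 hNpos (hcopN m (hmodd m c2 hm1 hc2odd) hm2)
  have hm'odd : Odd m' := hmodd m' c2 ((hm'm.of_dvd hdN).trans hm1) hc2odd
  have hm'co : Nat.Coprime m' N := by
    have h1 : Nat.gcd m' N = Nat.gcd m N := hm'm.gcd_eq
    rw [Nat.coprime_iff_gcd_eq_one, h1]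
    exact hcopN m (hmodd m c2 hm1 hc2odd) hm2
  -- the residue of `w2`
  obtain ⟨w0, hw0⟩ := meetsAll_div N m' (m' + r1) hNpos hm'co
  have hgM : Nat.Coprime (m' + r1) M := by
    refine Nat.coprime_of_dvd ?_
    intro p hp hpg hpM
    have hp1 : ¬ p ∣ 1 := fun h => hp.one_lt.ne' (Nat.dvd_one.1 h)
    have hpN : p ∣ N := hpM.trans hMN
    by_cases hpr : p ∣ r1 + 1
    · have h1 : m' + r1 ≡ 2 + r1 [MOD p] :=
        ((hm'm.of_dvd hpN).trans ((hm3 p hp hpM).1 hpr)).add_right r1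
      have h2 : p ∣ 2 + r1 :=
        Nat.modEq_zero_iff_dvd.1 (h1.symm.trans (Nat.modEq_zero_iff_dvd.2 hpg))
      have h4 : 2 + r1 = r1 + 1 + 1 := by omega
      rw [h4] at h2
      exact hp1 ((Nat.dvd_add_right hpr).1 h2)
    · have h1 : m' + r1 ≡ 1 + r1 [MOD p] :=
        ((hm'm.of_dvd hpN).trans ((hm3 p hp hpM).2 hpr)).add_right r1
      have h2 : p ∣ 1 + r1 :=
        Nat.modEq_zero_iff_dvd.1 (h1.symm.trans (Nat.modEq_zero_iff_dvd.2 hpg))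
      rw [add_comm] at h2
      exact hpr h2
  have hw0M : Nat.Coprime w0 M := by
    have h1 : Nat.gcd (m' * w0) M = Nat.gcd (m' + r1) M := (hw0.of_dvd hMN).gcd_eq
    have h2 : Nat.Coprime (m' * w0) M := by
      rw [Nat.coprime_iff_gcd_eq_one, h1]; exact hgM
    exact Nat.Coprime.coprime_mul_left h2
  obtain ⟨nC, hnC⟩ := hT m'
  obtain ⟨w2, hw2K, hw2B, hw2⟩ : ∃ w2 ∈ K, nC + B + 1 ≤ w2 ∧ w2 ≡ w0 [MOD N] := by
    by_cases hpar : Odd (r1 + 1)
    · have hgodd : Odd (m' + r1) := by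
        refine hmodd _ (r1 + 1) ?_ hpar
        exact (((hm'm.of_dvd hdN).trans hm1).add_right r1).trans (hc2a hpar)
      have hw0odd : Odd w0 := by
        have h1 : Odd (m' * w0) := by
          have h3 : m' * w0 ≡ m' + r1 [MOD 2] := hw0.of_dvd (h2s.trans hdN)
          rw [Nat.odd_iff] at hgodd ⊢
          rw [← hgodd]; exact h3
        exact (Nat.odd_mul.1 h1).2
      exact hU N w0 (nC + B + 1) hNpos (hcopN w0 hw0odd hw0M)
    · have hev := Nat.not_odd_iff_even.1 hpar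
      have hgs : 2 ^ s ∣ m' + r1 := by
        have h1 : m' + r1 ≡ c2 + r1 [MOD 2 ^ s] := ((hm'm.of_dvd hdN).trans hm1).add_right r1
        exact Nat.modEq_zero_iff_dvd.1 (h1.trans (Nat.modEq_zero_iff_dvd.2 (hc2b hev)))
      have hw0s : 2 ^ s ∣ w0 := by
        have h1 : 2 ^ s ∣ m' * w0 :=
          Nat.modEq_zero_iff_dvd.1 ((hw0.of_dvd hdN).trans (Nat.modEq_zero_iff_dvd.2 hgs))
        exact (Nat.Coprime.dvd_of_dvd_mul_left
          ((Nat.Coprime.pow_right s (Nat.coprime_two_right.2 hm'odd)).symm) h1)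
      obtain ⟨x, hx⟩ := meetsAll_div M w1 w0 (Nat.pos_of_ne_zero (by rintro rfl; simp at hModd)) hw1M
      have hxM : Nat.Coprime x M := by
        have h1 : Nat.gcd (w1 * x) M = Nat.gcd w0 M := hx.gcd_eq
        have h2 : Nat.Coprime (w1 * x) M := by
          rw [Nat.coprime_iff_gcd_eq_one, h1]; exact hw0M
        exact Nat.Coprime.coprime_mul_left h2
      obtain ⟨q, hq1, hq2⟩ := Nat.chineseRemainder hco 1 x
      have hqM : Nat.Coprime q M := by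
        have h1 : Nat.gcd q M = Nat.gcd x M := hq2.gcd_eq
        rw [Nat.coprime_iff_gcd_eq_one, h1]; exact hxM
      obtain ⟨nD, hnD⟩ := hT w1
      obtain ⟨q', hq'K, hq'B, hq'⟩ := hU N q (nD + nC + B + 1) hNpos
        (hcopN q (hmodd q 1 hq1 odd_one) hqM)
      have hwK : w1 * q' ∈ K := hM K hK w1 q' hw1K hq'K (hnD q' (by omega))
      have hqle : q' ≤ w1 * q' := Nat.le_mul_of_pos_left q' hw1pos
      refine ⟨w1 * q', hwK, by omega, ?_⟩
      have hA : w1 * q' ≡ w0 [MOD 2 ^ s] := by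
        have h1 : 2 ^ s ∣ w1 * q' := Dvd.dvd.mul_right hw1s _
        exact (Nat.modEq_zero_iff_dvd.2 h1).trans (Nat.modEq_zero_iff_dvd.2 hw0s).symm
      have hB : w1 * q' ≡ w0 [MOD M] :=
        ((Nat.ModEq.refl w1).mul ((hq'.of_dvd hMN).trans hq2)).trans hx
      rw [hN]
      exact (Nat.modEq_and_modEq_iff_modEq_mul hco).1 ⟨hA, hB⟩
  obtain ⟨w', hw'⟩ : ∃ w', w2 = w' + 1 := ⟨w2 - 1, by omega⟩
  have hvK : m' * w' + 1 ∈ K := hM1 K hK m' w' hm'K (hw' ▸ hw2K) (hnC w' (by omega))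
  have hle : w' ≤ m' * w' := Nat.le_mul_of_pos_left w' hm'1
  refine ⟨m' * w' + 1, hvK, by omega, ?_⟩
  have h1 : m' * w' + 1 + (m' + r1) ≡ r₀ + N + (m' + r1) [MOD N] := by
    have h2 : m' * w' + 1 + (m' + r1) = m' * w2 + (r1 + 1) := by rw [hw']; ring
    have h3 : m' * w2 ≡ m' + r1 [MOD N] := ((Nat.ModEq.refl m').mul hw2).trans hw0
    rw [h2, hr1, add_comm (r1 + 1) (m' + r1)]
    exact h3.add_right (r1 + 1)
  have h4 : m' * w' + 1 ≡ r₀ + N [MOD N] := Nat.ModEq.add_right_cancel' _ h1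
  have h5 : r₀ + N ≡ r₀ [MOD N] := by
    simp [Nat.ModEq]
  exact (h4.trans h5).of_dvd ⟨2, by rw [hNN]; ring⟩

end Pool.Agent.Helper69.WV
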