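import Mathlib
import Pool.Agent.Helper69.WV.St
import Pool.Agent.Helper69.WV.Basic

/-!
Project WV, piece MO: a closed set which meets all unit classes meets all odd residue classes
modulo even numbers.
-/

set_option autoImplicit false

namespace Pool.Agent.Helper69.WV

/-- Prescribed residues modulo all prime divisors: `2` if `p` divides `r`, else `1`. -/
private theorem meetsOdd_pick (N r : ℕ) (hN : 0 < N) :
    ∃ x, ∀ p, p.Prime → p ∣ N → x ≡ (if p ∣ r then 2 else 1) [MOD p] := by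
  classical
  obtain ⟨x, hx⟩ := Nat.chineseRemainderOfFinset (fun p => if p ∣ r then 2 else 1) id N.primeFactors
    (fun i hi => (Nat.prime_of_mem_primeFactors hi).ne_zero)
    (fun i hi j hj hij => (Nat.coprime_primes (Nat.prime_of_mem_primeFactors hi)
      (Nat.prime_of_mem_primeFactors hj)).2 hij)
  exact ⟨x, fun p hp hpN => hx p (Nat.mem_primeFactors.2 ⟨hp, hpN, hN.ne'⟩)⟩

theorem meetsOdd (hT : TDLarge) (hM : CMul1) : MeetsOdd := by
  intro K hK hU N r B hN _ hr
  obtain ⟨r', rfl⟩ : ∃ r', r = r' + 1 := ⟨r - 1, by rcases hr with ⟨t, ht⟩; omega⟩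
  obtain ⟨m0, hm0⟩ := meetsOdd_pick N (r' + 1) hN
  have hodd : ∀ p, p ∣ r' + 1 → ¬ p ∣ 2 ∨ p = 1 := by
    intro p hp
    by_contra hcon
    push Not at hcon
    have : p = 2 := by
      rcases (Nat.dvd_prime Nat.prime_two).1 hcon.1 with h | h
      · exact absurd h hcon.2
      · exact h
    subst this
    exact (Nat.not_even_iff_odd.2 hr) (even_iff_two_dvd.2 hp)
  have hc1 : Nat.Coprime m0 N := by
    refine Nat.coprime_of_dvd ?_
    intro p hp hpm hpN
    have h1 := hm0 p hp hpN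
    have h0 : m0 ≡ 0 [MOD p] := Nat.modEq_zero_iff_dvd.2 hpm
    by_cases h : p ∣ r' + 1
    · rw [if_pos h] at h1
      have h2 : p ∣ 2 := Nat.modEq_zero_iff_dvd.1 (h1.symm.trans h0)
      rcases hodd p h with h3 | h3
      · exact h3 h2
      · exact hp.one_lt.ne' h3
    · rw [if_neg h] at h1
      have h2 : p ∣ 1 := Nat.modEq_zero_iff_dvd.1 (h1.symm.trans h0)
      exact hp.one_lt.ne' (Nat.dvd_one.1 h2)
  have hc2 : Nat.Coprime (m0 + r') N := by
    refine Nat.coprime_of_dvd ?_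
    intro p hp hpm hpN
    have h1 := hm0 p hp hpN
    by_cases h : p ∣ r' + 1
    · rw [if_pos h] at h1
      have h2 : m0 + r' ≡ 2 + r' [MOD p] := h1.add_right r'
      have h3 : p ∣ 2 + r' :=
        Nat.modEq_zero_iff_dvd.1 (h2.symm.trans (Nat.modEq_zero_iff_dvd.2 hpm))
      have h4 : p ∣ 1 := by
        have h5 : 2 + r' = (r' + 1) + 1 := by ring
        rw [h5] at h3
        exact (Nat.dvd_add_right h).1 h3
      exact hp.one_lt.ne' (Nat.dvd_one.1 h4)
    · rw [if_neg h] at h1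
      have h2 : m0 + r' ≡ 1 + r' [MOD p] := h1.add_right r'
      have h3 : p ∣ 1 + r' :=
        Nat.modEq_zero_iff_dvd.1 (h2.symm.trans (Nat.modEq_zero_iff_dvd.2 hpm))
      rw [Nat.add_comm] at h3
      exact h h3
  -- the quotient
  obtain ⟨x, hx1, hx2⟩ := Nat.chineseRemainder hc1 0 (m0 + r')
  obtain ⟨w0, rfl⟩ := Nat.modEq_zero_iff_dvd.1 hx1
  have hc3 : Nat.Coprime w0 N := by
    have h1 : Nat.gcd (m0 * w0) N = Nat.gcd (m0 + r') N := hx2.gcd_eq
    have h2 : Nat.Coprime (m0 * w0) N := by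
      unfold Nat.Coprime
      rw [h1]
      exact hc2
    exact Nat.Coprime.coprime_mul_left h2
  obtain ⟨m, hmK, hm1, hmm⟩ := hU N m0 1 hN hc1
  obtain ⟨n0, hn0⟩ := hT m
  obtain ⟨w, hwK, hwB, hww⟩ := hU N w0 (n0 + B + 1) hN hc3
  obtain ⟨w', rfl⟩ : ∃ w', w = w' + 1 := ⟨w - 1, by omega⟩
  refine ⟨m * w' + 1, hM K hK m w' hmK hwK (hn0 w' (by omega)), ?_, ?_⟩
  · have h1 : w' ≤ m * w' := Nat.le_mul_of_pos_left w' hm1
    omega
  · have h1 : m * (w' + 1) ≡ m0 * w0 [MOD N] := hmm.mul hww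
    have h2 : m * (w' + 1) ≡ m0 + r' [MOD N] := h1.trans hx2
    have h3 : m0 + r' ≡ m + r' [MOD N] := hmm.symm.add_right r'
    have h4 : m * w' + m ≡ r' + m [MOD N] := by
      have h5 := h2.trans h3
      rw [Nat.mul_add, Nat.mul_one] at h5
      rw [Nat.add_comm r' m]
      exact h5
    exact (Nat.ModEq.add_right_cancel' m h4).add_right 1

end Pool.Agent.Helper69.WV
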