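import Mathlib
import Pool.Agent.Helper69.WV.St
import Pool.Agent.Helper69.WV.Basic

/-!
Project WV, piece NP: arbitrarily large primes in every unit class with a nice design
(Dirichlet's theorem). Choose a prime `e` above `C ^ 2 + N + 3`; by the Chinese remainder theorem
and Dirichlet there is a large prime `q` with `q ≡ r` modulo `N` and `q ≡ 1` modulo `e`; being odd,
`q ≡ 1` modulo `2 * e`.
-/

set_option autoImplicit false

namespace Pool.Agent.Helper69.WV

theorem nicePrimes_fin {n l q : ℕ} (hq : q ≠ 0) (h : Nice n l (ZMod q)) : Nice n l (Fin q) := by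
  cases q with
  | zero => exact absurd rfl hq
  | succ q => exact h

theorem nicePrimes (hC : Cyclo) : NicePrimes := by
  intro n l hl N r B hN hr
  obtain ⟨e, he1, hep⟩ := Nat.exists_infinite_primes (((n + 3) * (n + 2) / 2) ^ 2 + N + 3)
  obtain ⟨q0, hq0⟩ := hC n l e hl (le_trans (by rw [add_assoc]; exact Nat.le_add_right _ _) he1)
  have he3 : N + 3 ≤ e := le_trans (by rw [add_assoc]; exact Nat.le_add_left _ _) he1
  have hNe : Nat.Coprime N e := by
    rw [Nat.coprime_comm, Nat.Prime.coprime_iff_not_dvd hep]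
    intro hd
    have := Nat.le_of_dvd hN hd
    omega
  obtain ⟨k, hk1, hk2⟩ := Nat.chineseRemainder hNe r 1
  have hkN : Nat.Coprime k N := by
    have h : Nat.gcd k N = Nat.gcd r N := Nat.ModEq.gcd_eq hk1
    unfold Nat.Coprime
    rw [h]
    exact hr
  have hke : Nat.Coprime k e := by
    have h : Nat.gcd k e = Nat.gcd 1 e := Nat.ModEq.gcd_eq hk2
    unfold Nat.Coprime
    rw [h]
    exact Nat.gcd_one_left e
  have hk : Nat.Coprime k (N * e) := Nat.Coprime.mul_right hkN hke
  have hNe0 : N * e ≠ 0 := Nat.mul_ne_zero hN.ne' hep.ne_zero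
  obtain ⟨q, hq1, hqp, hqk⟩ := Nat.forall_exists_prime_gt_and_modEq (B + q0 + 3) hNe0 hk
  have hqN : q ≡ r [MOD N] := (hqk.of_mul_right e).trans hk1
  have hqe : q ≡ 1 [MOD e] := (hqk.of_mul_left N).trans hk2
  have hq2 : q ≡ 1 [MOD 2] := by
    have h2 : q ≠ 2 := by omega
    exact Nat.odd_iff.1 (hqp.odd_of_ne_two h2)
  have he2 : Nat.Coprime 2 e := by
    rw [Nat.Prime.coprime_iff_not_dvd Nat.prime_two]
    intro hd
    have := (Nat.prime_dvd_prime_iff_eq Nat.prime_two hep).1 hd
    omega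
  have hq2e : q ≡ 1 [MOD 2 * e] := (Nat.modEq_and_modEq_iff_modEq_mul he2).1 ⟨hq2, hqe⟩
  exact ⟨q, hqp, by omega, hqN, nicePrimes_fin hqp.ne_zero (hq0 q hqp (by omega) hq2e)⟩

end Pool.Agent.Helper69.WV
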