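import Mathlib
import Pool.Agent.Helper69.WV.St
import Pool.Agent.Helper69.WV.Basic

/-!
Project WV: the number-theoretic lemma.
-/

set_option autoImplicit false

namespace Pool.Agent.Helper69.WV

/-- The odd primes below `M`. -/
private def numberLemma_S (M : ℕ) : Finset ℕ :=
  (Finset.range M).filter fun p => p.Prime ∧ p ≠ 2

private theorem numberLemma_mem {M p : ℕ} (hp : p.Prime) (h2 : p ≠ 2) (hM : p < M) :
    p ∈ numberLemma_S M := by
  simp [numberLemma_S, hp, h2, hM]

private theorem numberLemma_mem' {M p : ℕ} (h : p ∈ numberLemma_S M) :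
    p.Prime ∧ p ≠ 2 ∧ p < M := by
  simp only [numberLemma_S, Finset.mem_filter, Finset.mem_range] at h
  exact ⟨h.2.1, h.2.2, h.1⟩

private def numberLemma_Q (M : ℕ) : ℕ := ∏ p ∈ numberLemma_S M, p

private theorem numberLemma_Qpos (M : ℕ) : 0 < numberLemma_Q M :=
  Finset.prod_pos fun _ hp => (numberLemma_mem' hp).1.pos

private theorem numberLemma_dvd {M p : ℕ} (h : p ∈ numberLemma_S M) : p ∣ numberLemma_Q M :=
  Finset.dvd_prod_of_mem _ h

private theorem numberLemma_cop (M e : ℕ) : Nat.Coprime (2 ^ e) (numberLemma_Q M) := by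
  apply Nat.Coprime.pow_left
  apply Nat.Coprime.prod_right
  intro p hp
  obtain ⟨h1, h2, -⟩ := numberLemma_mem' hp
  exact (Nat.coprime_primes Nat.prime_two h1).2 (Ne.symm h2)

/-- The residues modulo the odd primes below `M`. -/
private theorem numberLemma_crt (M : ℕ) (f : ℕ → ℕ) :
    ∃ c : ℕ, ∀ p ∈ numberLemma_S M, c ≡ f p [MOD p] := by
  have key : ∀ s : Finset ℕ, (∀ p ∈ s, p.Prime) → ∃ c : ℕ, ∀ p ∈ s, c ≡ f p [MOD p] := by
    intro s
    induction s using Finset.induction_on with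
    | empty => intro _; exact ⟨0, by simp⟩
    | insert a s ha ih =>
      intro hs
      obtain ⟨c, hc⟩ := ih fun p hp => hs p (Finset.mem_insert_of_mem hp)
      have hcop : Nat.Coprime (∏ p ∈ s, p) a := by
        apply Nat.Coprime.prod_left
        intro p hp
        refine (Nat.coprime_primes (hs p (Finset.mem_insert_of_mem hp))
          (hs a (Finset.mem_insert_self _ _))).2 ?_
        rintro rfl
        exact ha hp
      obtain ⟨d, hd1, hd2⟩ := Nat.chineseRemainder hcop c (f a)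
      refine ⟨d, ?_⟩
      intro p hp
      rcases Finset.mem_insert.1 hp with rfl | hp
      · exact hd2
      · exact (hd1.of_dvd (Finset.dvd_prod_of_mem _ hp)).trans (hc p hp)
  exact key _ fun p hp => (numberLemma_mem' hp).1

private theorem numberLemma_pow {M n : ℕ} (hn : 0 < n) (h : 2 ^ (M + 1) ∣ n) :
    ∃ i m, n = 2 ^ i * m ∧ M ≤ 2 ^ i ∧ ¬ 2 ∣ m := by
  obtain ⟨i, m, hm, hi⟩ := Nat.exists_eq_two_pow_mul_odd hn.ne'
  refine ⟨i, m, hi, ?_, ?_⟩
  · have h1 : 2 ^ (M + 1) ∣ 2 ^ i := by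
      rw [hi] at h
      refine Nat.Coprime.dvd_of_dvd_mul_right ?_ h
      exact (Nat.coprime_two_left.2 hm).pow_left _
    have h2 : 2 ^ (M + 1) ≤ 2 ^ i := Nat.le_of_dvd (by positivity) h1
    have h3 : M + 1 < 2 ^ (M + 1) := Nat.lt_two_pow_self
    omega
  · intro h2
    have := hm.not_two_dvd_nat
    exact this h2

theorem numberLemma : NumberLemma := by
  intro M
  set E := 2 ^ (M + 1) with hE
  set Q := numberLemma_Q M with hQ
  have hE2 : 2 ∣ E := dvd_pow_self 2 (by omega)
  have hEpos : 0 < E := by positivity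
  have hQpos : 0 < Q := numberLemma_Qpos M
  have hEQ : Nat.Coprime E Q := numberLemma_cop M _
  -- the number a
  obtain ⟨a0, ha1, ha2⟩ := Nat.chineseRemainder hEQ (E - 1) 1
  obtain ⟨a, hapos, haE, haQ⟩ : ∃ a : ℕ, 0 < a ∧ a ≡ E - 1 [MOD E] ∧ a ≡ 1 [MOD Q] := by
    refine ⟨a0 + E * Q, by positivity, ?_, ?_⟩
    · have : a0 + E * Q ≡ a0 [MOD E] := by
        simp [Nat.ModEq]
      exact this.trans ha1
    · have : a0 + E * Q ≡ a0 [MOD Q] := by
        simp [Nat.ModEq]
      exact this.trans ha2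
  have haE' : E ∣ a + 1 := by
    have h1 : a + 1 ≡ E - 1 + 1 [MOD E] := haE.add_right 1
    have h2 : E - 1 + 1 = E := by omega
    rw [h2] at h1
    exact (Nat.modEq_zero_iff_dvd.1 (h1.trans (by simp [Nat.ModEq])))
  have ha2 : ¬ 2 ∣ a := by
    intro h
    have h1 : 2 ∣ a + 1 := hE2.trans haE'
    omega
  have hap : ∀ p ∈ numberLemma_S M, a ≡ 1 [MOD p] := fun p hp =>
    haQ.of_dvd (numberLemma_dvd hp)
  have hEa : Nat.Coprime E a := by
    rw [hE]
    exact Nat.Coprime.pow_left _ ((Nat.Prime.coprime_iff_not_dvd Nat.prime_two).2 ha2)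
  have hQa : Nat.Coprime Q a := by
    have h1 : Nat.gcd a Q = Nat.gcd 1 Q := haQ.gcd_eq
    rw [Nat.gcd_one_left] at h1
    exact (Nat.coprime_comm.1 h1)
  -- small multiples of p
  have small : ∀ p ∈ numberLemma_S M, ∀ x : ℕ, (x ≡ 1 [MOD p] ∨ x ≡ 2 [MOD p]) → ¬ p ∣ x := by
    intro p hp x hx hd
    obtain ⟨h1, h2, -⟩ := numberLemma_mem' hp
    have h3 : 3 ≤ p := by
      have := h1.two_le
      omega
    rcases hx with hx | hx
    · have := (hx.dvd_iff (dvd_refl p)).1 hd
      have := Nat.le_of_dvd (by norm_num) this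
      omega
    · have := (hx.dvd_iff (dvd_refl p)).1 hd
      have := Nat.le_of_dvd (by norm_num) this
      omega
  refine ⟨a, (a + 1) * (2 * (E * Q * a)), ⟨hapos, ?_, fun h => absurd h ha2⟩,
    ⟨by omega, ?_, fun _ => numberLemma_pow (by omega) haE'⟩, ?_⟩
  · intro p hp hpa
    by_contra hcon
    push Not at hcon
    have hS := numberLemma_mem hp hcon.1 hcon.2
    exact small p hS a (Or.inl (hap p hS)) hpa
  · intro p hp hpa
    by_contra hcon
    push Not at hcon
    have hS := numberLemma_mem hp hcon.1 hcon.2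
    exact small p hS (a + 1) (Or.inr ((hap p hS).add_right 1)) hpa
  intro n hn
  classical
  -- the residues
  obtain ⟨c, hc⟩ := numberLemma_crt M fun p => if n ≡ 1 [MOD p] then 2 else 1
  have hEQa : Nat.Coprime (E * Q) a := Nat.Coprime.mul_left hEa hQa
  obtain ⟨d, hd1, hd2⟩ := Nat.chineseRemainder hEQ (if 2 ∣ n then 1 else n) c
  obtain ⟨u0, hu1, hu2⟩ := Nat.chineseRemainder hEQa d n
  set P := E * Q * a with hP
  have hPpos : 0 < P := by positivity
  obtain ⟨u, hupos, hule, huP⟩ : ∃ u : ℕ, 0 < u ∧ u ≤ 2 * P ∧ u ≡ u0 [MOD P] := by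
    refine ⟨u0 % P + P, by omega, ?_, ?_⟩
    · have := Nat.mod_lt u0 hPpos
      omega
    · simp [Nat.ModEq]
  have huE : u ≡ (if 2 ∣ n then 1 else n) [MOD E] := by
    have h1 : u ≡ u0 [MOD E] := huP.of_dvd (by rw [hP, mul_assoc]; exact dvd_mul_right _ _)
    have h2 : u0 ≡ d [MOD E] := hu1.of_dvd (dvd_mul_right _ _)
    exact (h1.trans h2).trans hd1
  have huQ : u ≡ c [MOD Q] := by
    have h1 : u ≡ u0 [MOD Q] := huP.of_dvd (by
      rw [hP]; exact (dvd_mul_left Q E).trans (dvd_mul_right _ _))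
    have h2 : u0 ≡ d [MOD Q] := hu1.of_dvd (dvd_mul_left _ _)
    exact (h1.trans h2).trans hd2
  have hua : u ≡ n [MOD a] := by
    have h1 : u ≡ u0 [MOD a] := huP.of_dvd (by rw [hP]; exact dvd_mul_left _ _)
    exact h1.trans hu2
  have hup : ∀ p ∈ numberLemma_S M, u ≡ (if n ≡ 1 [MOD p] then 2 else 1) [MOD p] := by
    intro p hp
    exact (huQ.of_dvd (numberLemma_dvd hp)).trans (hc p hp)
  have hun : (a + 1) * u ≤ n := le_trans (Nat.mul_le_mul_left _ hule) hn
  have hun' : u ≤ n := le_trans (Nat.le_mul_of_pos_left _ (by omega)) hun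
  obtain ⟨t, ht⟩ : a ∣ n - u := (Nat.modEq_iff_dvd' hun').1 hua
  have hnt : n = a * t + u := by omega
  have hut : u ≤ t := by
    have h1 : a * u + u ≤ a * t + u := by
      rw [← hnt]
      calc a * u + u = (a + 1) * u := by ring
        _ ≤ n := hun
    exact Nat.le_of_mul_le_mul_left (by omega) hapos
  have hu2 : ¬ 2 ∣ u := by
    by_cases hn2 : 2 ∣ n
    · rw [if_pos hn2] at huE
      have h1 : u ≡ 1 [MOD 2] := huE.of_dvd hE2
      intro h
      have := (h1.dvd_iff (dvd_refl 2)).1 h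
      omega
    · rw [if_neg hn2] at huE
      have h1 : u ≡ n [MOD 2] := huE.of_dvd hE2
      intro h
      exact hn2 ((h1.dvd_iff (dvd_refl 2)).1 h)
  refine ⟨t, u, hnt, hut, ⟨lt_of_lt_of_le hupos hut, ?_, ?_⟩, ⟨hupos, ?_, fun h => absurd h hu2⟩⟩
  · intro p hp hpt
    by_contra hcon
    push Not at hcon
    have hS := numberLemma_mem hp hcon.1 hcon.2
    have h1 : n ≡ u [MOD p] := by
      rw [hnt]
      have : a * t ≡ 0 [MOD p] := (Nat.modEq_zero_iff_dvd).2 (hpt.mul_left a)
      simpa using this.add_right u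
    have h2 := h1.trans (hup p hS)
    have h3 : 3 ≤ p := by
      have := hp.two_le
      have := hcon.1
      omega
    by_cases h4 : n ≡ 1 [MOD p]
    · rw [if_pos h4] at h2
      have h5 : 1 ≡ 2 [MOD p] := h4.symm.trans h2
      have h6 := Nat.ModEq.eq_of_lt_of_lt h5 (by omega) (by omega)
      omega
    · rw [if_neg h4] at h2
      exact h4 h2
  · intro h2t
    have hn2 : ¬ 2 ∣ n := by
      intro h
      apply hu2
      have h1 : 2 ∣ a * t := h2t.mul_left a
      omega
    rw [if_neg hn2] at huE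
    have h1 : E ∣ n - u := (Nat.modEq_iff_dvd' hun').1 huE
    rw [ht] at h1
    exact numberLemma_pow (lt_of_lt_of_le hupos hut) (hEa.dvd_of_dvd_mul_left h1)
  · intro p hp hpu
    by_contra hcon
    push Not at hcon
    have hS := numberLemma_mem hp hcon.1 hcon.2
    refine small p hS u ?_ hpu
    have := hup p hS
    by_cases h4 : n ≡ 1 [MOD p]
    · rw [if_pos h4] at this
      exact Or.inr this
    · rw [if_neg h4] at this
      exact Or.inl this

end Pool.Agent.Helper69.WV
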