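import Mathlib
import Pool.Agent.Helper69.WV.St
import Pool.Agent.Helper69.WV.Basic

/-!
Project WV: orthogonal arrays over finite fields and products of orthogonal arrays.
-/

set_option autoImplicit false

namespace Pool.Agent.Helper69.WV

theorem oaField : OAField := by
  intro m F _ _ hm
  have hc : ∃ c : Fin m → F, Function.Injective c := by
    obtain ⟨e⟩ : Nonempty (F ≃ Fin (Nat.card F)) := ⟨Finite.equivFin F⟩
    exact ⟨fun i => e.symm (Fin.castLE hm i),
      e.symm.injective.comp (Fin.castLE_injective hm)⟩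
  obtain ⟨c, hc⟩ := hc
  refine ⟨{f | ∃ s t : F, f = fun i => s + c i * t}, ?_⟩
  intro i j hij a b
  have hne : c i - c j ≠ 0 := sub_ne_zero.2 fun h => hij (hc h)
  refine ⟨fun r => (a - c i * ((a - b) / (c i - c j))) + c r * ((a - b) / (c i - c j)),
    ⟨⟨_, _, rfl⟩, ?_, ?_⟩, ?_⟩
  · ring
  · field_simp
    ring
  · rintro g ⟨⟨s, t, rfl⟩, ha, hb⟩
    have ht : t = (a - b) / (c i - c j) := by
      rw [eq_div_iff hne, ← ha, ← hb]
      ring
    have hs : s = a - c i * t := by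
      rw [← ha]
      ring
    funext r
    rw [← ht, ← hs]

theorem oaMul : OAMul := by
  intro m X Y hX hY
  obtain ⟨B, hB⟩ := hX
  obtain ⟨C, hC⟩ := hY
  refine ⟨{g | (fun i => (g i).1) ∈ B ∧ (fun i => (g i).2) ∈ C}, ?_⟩
  intro i j hij a b
  obtain ⟨f, ⟨hf, hfa, hfb⟩, hf'⟩ := hB i j hij a.1 b.1
  obtain ⟨g, ⟨hg, hga, hgb⟩, hg'⟩ := hC i j hij a.2 b.2
  refine ⟨fun r => (f r, g r), ⟨⟨hf, hg⟩, Prod.ext hfa hga, Prod.ext hfb hgb⟩, ?_⟩
  rintro h ⟨⟨h1, h2⟩, ha, hb⟩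
  have e1 := hf' (fun i => (h i).1) ⟨h1, by simp only [ha], by simp only [hb]⟩
  have e2 := hg' (fun i => (h i).2) ⟨h2, by simp only [ha], by simp only [hb]⟩
  funext r
  exact Prod.ext (congrFun e1 r) (congrFun e2 r)

end Pool.Agent.Helper69.WV
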