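import Mathlib
import Pool.Agent.Helper69.WV.Small

/-!
Project WV: all large odd orders.
-/

set_option autoImplicit false

namespace Pool.Agent.Helper69.WV

/-- An even positive number is a power of two (at least two) times an odd number. -/
theorem oddLarge_split (w : ℕ) (hw : 0 < w) : ∃ s w', w = 2 ^ s * w' ∧ Odd w' := by
  obtain ⟨s, w', h1, h2⟩ := Nat.exists_eq_two_pow_mul_odd hw.ne'
  exact ⟨s, w', h2, h1⟩

theorem oddLarge_card (V : Type) [Finite V] (t w u h m : ℕ)
    (γ : (Fin m × (Fin t × Fin w)) ⊕ (Fin u × Fin h) → Option (Fin m))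
    (hγ : γ = Sum.elim (fun p => some p.1) (fun _ => none)) (i : Option (Fin m)) :
    Nat.card {x // γ x = i} = t * w ∨ Nat.card {x // γ x = i} = u * h := by
  subst hγ
  cases i with
  | some i =>
    left
    rw [Nat.card_congr (β := Fin t × Fin w) ?_]
    · simp
    · exact
        { toFun := fun x => match x with
            | ⟨Sum.inl p, _⟩ => p.2
            | ⟨Sum.inr p, hp⟩ => absurd hp (by simp)
          invFun := fun a => ⟨Sum.inl (i, a), rfl⟩
          left_inv := by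
            rintro ⟨p | p, hp⟩
            · simp only [Sum.elim_inl, Option.some.injEq] at hp
              subst hp
              rfl
            · simp at hp
          right_inv := fun _ => rfl }
  | none =>
    right
    rw [Nat.card_congr (β := Fin u × Fin h) ?_]
    · simp
    · exact
        { toFun := fun x => match x with
            | ⟨Sum.inl p, hp⟩ => absurd hp (by simp)
            | ⟨Sum.inr p, _⟩ => p
          invFun := fun a => ⟨Sum.inr a, rfl⟩
          left_inv := by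
            rintro ⟨p | p, hp⟩
            · simp at hp
            · rfl
          right_inv := fun _ => rfl }

theorem oddLarge (hCK : ClosedK) (hTr : TruncGdd) (hF1 : Fill1) (hTD : TDLarge) (hMO : MeetsOdd)
    (hNP : NicePrimes) (hHG : HoleGroup) (hR : RAll) : OddLarge := by
  intro n l hl
  have hl2 : 2 ≤ l := by rcases hl with h | h <;> omega
  obtain ⟨w, hw0, hwe, hwK, n1, hn1⟩ := hR n l hl
  have hUC : UnitClasses (KS (n + 3) l) := by
    intro N r B hN hr
    obtain ⟨q, -, hqB, hqm, hqN⟩ := hNP n l hl2 N r B hN hr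
    exact ⟨q, nice_ks hqN, hqB, hqm⟩
  obtain ⟨s, w', hws, hw'⟩ := oddLarge_split w hw0
  obtain ⟨T1, hT1⟩ := hTD (w + 1)
  -- the prime `m`
  have hcop : Nat.Coprime 4 w' := by
    have : Nat.Coprime (2 ^ 2) w' := Nat.Coprime.pow_left 2 (Nat.coprime_two_left.2 hw')
    exact this
  obtain ⟨r, hr4, hrw⟩ := Nat.chineseRemainder hcop 3 2
  have hw'0 : 0 < w' := hw'.pos
  have hrc : Nat.Coprime r (4 * w') := by
    apply Nat.Coprime.mul_right
    · have h1 : Nat.gcd r 4 = Nat.gcd 3 4 := hr4.gcd_eq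
      exact h1.trans (by decide)
    · have h1 : Nat.gcd r w' = Nat.gcd 2 w' := hrw.gcd_eq
      exact h1.trans (Nat.coprime_two_left.2 hw')
  obtain ⟨m, hmp, hmB, hmm, hmN⟩ := hNP n l hl2 (4 * w') r (n1 + T1 + 3) (by omega) hrc
  have hmK : m ∈ KS (n + 3) l := nice_ks hmN
  have hm4 : m ≡ 3 [MOD 4] := (hmm.of_mul_right w').trans hr4
  have hmw : m ≡ 2 [MOD w'] := (hmm.of_mul_left 4).trans hrw
  have hm2 : 2 ≤ m := hmp.two_le
  have hD0 : m ∈ RS (n + 3) l w := hn1 m (by omega)
  have hD1 := hHG (n + 3) l w m hwK hmK (by omega) (hT1 m (by omega))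
  -- the number `h = m - 1 = 2 h'`
  obtain ⟨h', hh'⟩ : ∃ h', m = 2 * h' + 1 ∧ Odd h' := by
    have h1 : m % 4 = 3 := hm4
    exact ⟨m / 2, by omega, by rw [Nat.odd_iff]; omega⟩
  obtain ⟨hmh, hh'o⟩ := hh'
  have hcop2 : Nat.Coprime h' (w * m) := by
    apply Nat.Coprime.mul_right
    · rw [hws]
      apply Nat.Coprime.mul_right
      · exact Nat.Coprime.pow_right s (Nat.coprime_two_right.2 hh'o)
      · have h1 : 2 * h' ≡ 1 [MOD w'] := by
          have h2 : 2 * h' + 1 ≡ 1 + 1 [MOD w'] := by rw [← hmh]; exact hmw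
          exact Nat.ModEq.add_right_cancel' 1 h2
        have h2 : Nat.gcd (2 * h') w' = Nat.gcd 1 w' := h1.gcd_eq
        have h3 : Nat.Coprime (2 * h') w' := h2.trans (Nat.gcd_one_left _)
        exact Nat.Coprime.coprime_mul_left h3
    · rw [hmh]
      have h1 : Nat.Coprime h' (1 + h' * 2) := by simp
      rw [show 2 * h' + 1 = 1 + h' * 2 by ring]
      exact h1
  -- the representatives
  have hh'0 : 0 < h' := hh'o.pos
  have hrep : ∀ c : ℕ, ∃ u, 2 * h' * u + 1 ∈ KS (n + 3) l ∧ 2 * h' * u ≡ 2 * c [MOD w * m] := by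
    intro c
    have hNpos : 0 < w * m := Nat.mul_pos hw0 (by omega)
    -- solve `h' u0 ≡ c`
    obtain ⟨u0, hu0⟩ : ∃ u0, h' * u0 ≡ c [MOD w * m] := by
      obtain ⟨v, hv1, hv2⟩ := Nat.chineseRemainder hcop2 0 c
      obtain ⟨u0, hu0⟩ := (Nat.modEq_zero_iff_dvd.1 hv1)
      exact ⟨u0, by rw [← hu0]; exact hv2⟩
    obtain ⟨x, hxK, hx1, hxm⟩ := hMO (KS (n + 3) l) (hCK (n + 3) l) hUC (2 * h' * (w * m))
      (2 * h' * u0 + 1) 1 (by positivity) ⟨h' * (w * m), by ring⟩ ⟨h' * u0, by ring⟩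
    have hx2 : 2 * h' ∣ x - 1 := by
      have h1 : x ≡ 2 * h' * u0 + 1 [MOD 2 * h'] := hxm.of_mul_right (w * m)
      have h2 : 2 * h' * u0 + 1 ≡ 1 [MOD 2 * h'] := by
        have h3 : 2 * h' * u0 ≡ 0 [MOD 2 * h'] := Nat.modEq_zero_iff_dvd.2 (Dvd.intro _ rfl)
        exact h3.add_right 1
      exact (Nat.modEq_iff_dvd' hx1).1 (h1.trans h2).symm
    obtain ⟨u, hu⟩ := hx2
    have hxu : x = 2 * h' * u + 1 := by omega
    refine ⟨u, by rw [← hxu]; exact hxK, ?_⟩
    have h1 : 2 * h' * u + 1 ≡ 2 * h' * u0 + 1 [MOD w * m] := by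
      rw [← hxu]
      exact hxm.of_mul_left (2 * h')
    have h2 : 2 * h' * u ≡ 2 * h' * u0 [MOD w * m] := Nat.ModEq.add_right_cancel' 1 h1
    refine h2.trans ?_
    rw [Nat.mul_assoc]
    exact hu0.mul_left 2
  choose u hu1 hu2 using hrep
  obtain ⟨T2, hT2⟩ := hTD (m + 1)
  set X : ℕ := ∑ c ∈ Finset.range (w * m), (2 * h' * u c + 1) with hX
  have hXle : ∀ c, c < w * m → 2 * h' * u c + 1 ≤ X := by
    intro c hc
    exact Finset.single_le_sum (f := fun c => 2 * h' * u c + 1) (fun _ _ => Nat.zero_le _)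
      (Finset.mem_range.2 hc)
  refine ⟨X + w * m * (n1 + T2 + X + 1), ?_⟩
  intro v hv hvo
  obtain ⟨z, hz⟩ := hvo
  have hNpos : 0 < w * m := Nat.mul_pos hw0 (by omega)
  set c : ℕ := z % (w * m) with hc
  have hcl : c < w * m := Nat.mod_lt _ hNpos
  have hxX := hXle c hcl
  have hmod : 2 * h' * u c ≡ 2 * z [MOD w * m] :=
    (hu2 c).trans ((Nat.mod_modEq z (w * m)).mul_left 2)
  have hle : 2 * h' * u c ≤ 2 * z := by
    have : 0 ≤ w * m * (n1 + T2 + X + 1) := Nat.zero_le _
    omega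
  obtain ⟨t, ht⟩ := (Nat.modEq_iff_dvd' hle).1 hmod
  have htz : 2 * z = w * m * t + 2 * h' * u c := by omega
  have htbig : n1 + T2 + X + 1 ≤ t := by
    by_contra hcon
    push Not at hcon
    have h1 : w * m * t ≤ w * m * (n1 + T2 + X + 1) := Nat.mul_le_mul_left _ hcon.le
    have h2 : w * m * (t + 1) ≤ w * m * (n1 + T2 + X + 1) := Nat.mul_le_mul_left _ hcon
    rw [Nat.mul_add, Nat.mul_one] at h2
    omega
  have hut : u c ≤ t := by
    have h1 : u c ≤ 2 * h' * u c := Nat.le_mul_of_pos_left _ (by omega)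
    omega
  have hm1 : m - 1 = 2 * h' := by omega
  rw [hm1] at hD1
  have hG := hTr (n + 3) l m t (u c) w (2 * h') hm2 hut (hT2 t (by omega)) hD0 hD1
  have hfin := hF1 (n + 3) l _ _ inferInstance _ hG ?_
  · have hcard : Nat.card ((Fin m × (Fin t × Fin w)) ⊕ (Fin (u c) × Fin (2 * h'))) + 1 = v := by
      simp only [Nat.card_eq_fintype_card, Fintype.card_sum, Fintype.card_prod, Fintype.card_fin]
      rw [hz, htz]
      ring
    rw [hcard] at hfin
    exact hfin
  · intro i
    rcases oddLarge_card (Fin 1) t w (u c) (2 * h') m _ rfl i with h | h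
    · rw [h]
      exact ks_of_rs hF1 (hn1 t (by omega)) hwK
    · rw [h, Nat.mul_comm]
      exact hu1 c

end Pool.Agent.Helper69.WV
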