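import Mathlib
import Pool.Agent.Helper69.WV.Small

/-!
Project WV: `RS k l w` contains all large numbers, for a suitable even `w`.
-/

set_option autoImplicit false

namespace Pool.Agent.Helper69.WV

theorem rAll (hIn : Inflate) (hTD : TDLarge) (hAL : AllLarge) (hCR : ClosedR) (hC : Cyclo)
    (hGP : GPrime) (hNP : NicePrimes) (hEE : EvenElt) : RAll := by
  intro n l hl
  have hl2 : 2 ≤ l := by rcases hl with h | h <;> omega
  set E : ℕ := ((n + 3) * (n + 2) / 2) ^ 2 with hE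
  obtain ⟨q0, hq0⟩ := hC n l (2 ^ E) hl2 (Nat.lt_two_pow_self).le
  obtain ⟨t0, ht0⟩ := hTD (n + 3)
  obtain ⟨q', hq'p, hq'B, -, hq'N⟩ := hNP n l hl2 1 0 t0 one_pos (by simp)
  obtain ⟨q1, hq1⟩ := hGP n l q' (E + 1) hl hq'N
  have hTq' : TD (n + 3) q' := ht0 q' hq'B
  -- all large primes lie in `RS k l q'`
  have hprime : ∀ q, q.Prime → max q0 q1 ≤ q → q ∈ RS (n + 3) l q' := by
    intro q hq hqB
    by_cases h : q ≡ 1 [MOD 2 ^ (E + 1)]
    · have h2 : q ≡ 1 [MOD 2 * 2 ^ E] := by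
        rw [pow_succ, Nat.mul_comm] at h
        exact h
      have h3 := hq0 q hq (le_trans (le_max_left _ _) hqB) h2
      haveI : NeZero q := ⟨hq.ne_zero⟩
      have h4 : Nice n l (Fin q) := nice_congr h3 (ZMod.finEquiv q).toEquiv.symm
      exact ks_rs hIn (nice_ks h4) hTq'
    · exact hq1 q hq (le_trans (le_max_right _ _) hqB) h
  -- the prime `q''`
  obtain ⟨q2, hq2p, hq2B, hq2m, hq2N⟩ := hNP n l hl2 q' 1 (q' * t0 + 3) hq'p.pos (by simp)
  have hdvd : q' ∣ q2 - 1 := (Nat.modEq_iff_dvd' (by omega)).1 hq2m.symm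
  obtain ⟨m, hm⟩ := hdvd
  have hmt : t0 ≤ m := by
    by_contra hlt
    push Not at hlt
    have h1 : q' * m ≤ q' * t0 := Nat.mul_le_mul_left _ hlt.le
    omega
  have hTm : TD (n + 3) m := ht0 m hmt
  have hodd : Odd q2 := hq2p.odd_of_ne_two (by omega)
  have hw1 : q2 - 1 + 1 = q2 := by omega
  refine ⟨q2 - 1, by omega, ?_, ?_, ?_⟩
  · obtain ⟨c, hc⟩ := hodd
    exact ⟨c, by omega⟩
  · rw [hw1]
    exact nice_ks hq2N
  · refine hAL (RS (n + 3) l (q2 - 1)) (hCR (n + 3) l (q2 - 1)) ⟨max q0 q1, ?_⟩ (q2 + 1)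
      (by omega) ?_ (hEE (n + 3) l q2 hq2p (nice_ks hq2N))
    · intro p hp hpB
      rw [hm]
      exact rs_mul hIn (hprime p hp hpB) hTm
    · obtain ⟨c, hc⟩ := hodd
      exact ⟨c + 1, by omega⟩

end Pool.Agent.Helper69.WV
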