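import Mathlib
import Pool.Agent.Helper69.WV.St
import Pool.Agent.Helper69.WV.Basic

/-!
Project WV: the truncated product of transversal designs.
-/

set_option autoImplicit false

namespace Pool.Agent.Helper69.WV

private def tDWilson_row1 {m : ℕ} {M T : Type} (P : T → Prop) (f : Fin m → M)
    (g : Fin (m + 1) → T) : Fin m → (M × T) ⊕ {s : T // P s} :=
  fun i => Sum.inl (f i, g i.castSucc)

private def tDWilson_row2 {m : ℕ} {M T : Type} (P : T → Prop) (f : Fin m → Option M)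
    (g : Fin (m + 1) → T) (s : {s : T // P s}) : Fin m → (M × T) ⊕ {s : T // P s} :=
  fun i => (f i).elim (Sum.inr s) (fun x => Sum.inl (x, g i.castSucc))

private theorem tDWilson_row2_inl {m : ℕ} {M T : Type} {P : T → Prop} {f : Fin m → Option M}
    {g : Fin (m + 1) → T} {s : {s : T // P s}} {i : Fin m} {x : M} {p : T} :
    tDWilson_row2 P f g s i = Sum.inl (x, p) ↔ f i = some x ∧ g i.castSucc = p := by
  unfold tDWilson_row2
  rcases h : f i with _ | y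
  · simp
  · simp

private theorem tDWilson_row2_inr {m : ℕ} {M T : Type} {P : T → Prop} {f : Fin m → Option M}
    {g : Fin (m + 1) → T} {s : {s : T // P s}} {i : Fin m} {z : {s : T // P s}} :
    tDWilson_row2 P f g s i = Sum.inr z ↔ f i = none ∧ s = z := by
  unfold tDWilson_row2
  rcases h : f i with _ | y
  · simp
  · simp

private def tDWilson_rows {m : ℕ} {M T : Type} (P : T → Prop) (A : Set (Fin m → M))
    (B : Set (Fin m → Option M)) (C : Set (Fin (m + 1) → T)) (D : Set (Fin m → {s : T // P s})) :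
    Set (Fin m → (M × T) ⊕ {s : T // P s}) :=
  {h | (∃ g ∈ C, ¬ P (g (Fin.last m)) ∧ ∃ f ∈ A, h = tDWilson_row1 P f g) ∨
    (∃ g ∈ C, ∃ s : {s : T // P s}, g (Fin.last m) = s.1 ∧ ∃ f ∈ B, f ≠ (fun _ => none) ∧
      h = tDWilson_row2 P f g s) ∨
    ∃ f ∈ D, h = fun i => Sum.inr (f i)}

private theorem tDWilson_mixed {m : ℕ} {M T : Type} (P : T → Prop) (A : Set (Fin m → M))
    (B : Set (Fin m → Option M)) (C : Set (Fin (m + 1) → T)) (D : Set (Fin m → {s : T // P s}))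
    (hB : ∀ i j, i ≠ j → ∀ a b, ∃! f, f ∈ B ∧ f i = a ∧ f j = b)
    (hC : ∀ i j, i ≠ j → ∀ a b, ∃! f, f ∈ C ∧ f i = a ∧ f j = b)
    (i j : Fin m) (hij : i ≠ j) (x : M) (p : T) (s : {s : T // P s}) :
    ∃! h, h ∈ tDWilson_rows P A B C D ∧ h i = Sum.inl (x, p) ∧ h j = Sum.inr s := by
  obtain ⟨g, ⟨hg, hgi, hgj⟩, hgu⟩ := hC i.castSucc (Fin.last m) (Fin.castSucc_lt_last i).ne p s.1
  obtain ⟨f, ⟨hf, hfi, hfj⟩, hfu⟩ := hB i j hij (some x) none
  have hfne : f ≠ fun _ => none := by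
    intro h
    rw [h] at hfi
    simp at hfi
  refine ⟨tDWilson_row2 P f g s, ⟨Or.inr (Or.inl ⟨g, hg, s, hgj, f, hf, hfne, rfl⟩),
    tDWilson_row2_inl.2 ⟨hfi, hgi⟩, tDWilson_row2_inr.2 ⟨hfj, rfl⟩⟩, ?_⟩
  rintro h ⟨hR, hi, hj⟩
  rcases hR with ⟨g', hg', _, f', hf', rfl⟩ | ⟨g', hg', s', hgs, f', hf', _, rfl⟩ | ⟨f', hf', rfl⟩
  · simp [tDWilson_row1] at hj
  · rw [tDWilson_row2_inl] at hi
    rw [tDWilson_row2_inr] at hj
    obtain ⟨hj1, rfl⟩ := hj
    rw [hfu f' ⟨hf', hi.1, hj1⟩, hgu g' ⟨hg', hi.2, hgs⟩]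
  · simp at hi

private theorem tDWilson_core (m : ℕ) (M T : Type) (P : T → Prop) (A : Set (Fin m → M))
    (B : Set (Fin m → Option M)) (C : Set (Fin (m + 1) → T)) (D : Set (Fin m → {s : T // P s}))
    (hA : ∀ i j, i ≠ j → ∀ a b, ∃! f, f ∈ A ∧ f i = a ∧ f j = b)
    (hB : ∀ i j, i ≠ j → ∀ a b, ∃! f, f ∈ B ∧ f i = a ∧ f j = b)
    (hBn : (fun _ => none) ∈ B)
    (hC : ∀ i j, i ≠ j → ∀ a b, ∃! f, f ∈ C ∧ f i = a ∧ f j = b)
    (hD : ∀ i j, i ≠ j → ∀ a b, ∃! f, f ∈ D ∧ f i = a ∧ f j = b) :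
    OA m ((M × T) ⊕ {s : T // P s}) := by
  refine ⟨tDWilson_rows P A B C D, ?_⟩
  rintro i j hij (⟨x, p⟩ | s) (⟨y, r⟩ | s')
  · -- two points of the first part
    have hij' : i.castSucc ≠ j.castSucc := fun h => hij (Fin.castSucc_injective m h)
    obtain ⟨g, ⟨hg, hgi, hgj⟩, hgu⟩ := hC i.castSucc j.castSucc hij' p r
    by_cases hP : P (g (Fin.last m))
    · obtain ⟨f, ⟨hf, hfi, hfj⟩, hfu⟩ := hB i j hij (some x) (some y)
      have hfne : f ≠ fun _ => none := by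
        intro h
        rw [h] at hfi
        simp at hfi
      refine ⟨tDWilson_row2 P f g ⟨g (Fin.last m), hP⟩,
        ⟨Or.inr (Or.inl ⟨g, hg, ⟨g (Fin.last m), hP⟩, rfl, f, hf, hfne, rfl⟩),
        tDWilson_row2_inl.2 ⟨hfi, hgi⟩, tDWilson_row2_inl.2 ⟨hfj, hgj⟩⟩, ?_⟩
      rintro h ⟨hR, hi, hj⟩
      rcases hR with ⟨g', hg', hP', f', hf', rfl⟩ | ⟨g', hg', s', hgs, f', hf', _, rfl⟩ |
        ⟨f', hf', rfl⟩
      · simp only [tDWilson_row1, Sum.inl.injEq, Prod.mk.injEq] at hi hj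
        rw [hgu g' ⟨hg', hi.2, hj.2⟩] at hP'
        exact absurd hP hP'
      · rw [tDWilson_row2_inl] at hi hj
        have h1 := hgu g' ⟨hg', hi.2, hj.2⟩
        subst h1
        have h2 := hfu f' ⟨hf', hi.1, hj.1⟩
        subst h2
        congr 1
        exact Subtype.ext hgs.symm
      · simp at hi
    · obtain ⟨f, ⟨hf, hfi, hfj⟩, hfu⟩ := hA i j hij x y
      refine ⟨tDWilson_row1 P f g, ⟨Or.inl ⟨g, hg, hP, f, hf, rfl⟩, ?_, ?_⟩, ?_⟩
      · simp [tDWilson_row1, hfi, hgi]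
      · simp [tDWilson_row1, hfj, hgj]
      rintro h ⟨hR, hi, hj⟩
      rcases hR with ⟨g', hg', hP', f', hf', rfl⟩ | ⟨g', hg', s', hgs, f', hf', _, rfl⟩ |
        ⟨f', hf', rfl⟩
      · simp only [tDWilson_row1, Sum.inl.injEq, Prod.mk.injEq] at hi hj
        rw [hgu g' ⟨hg', hi.2, hj.2⟩, hfu f' ⟨hf', hi.1, hj.1⟩]
      · rw [tDWilson_row2_inl] at hi hj
        have h1 := hgu g' ⟨hg', hi.2, hj.2⟩
        subst h1
        exact absurd (by rw [hgs]; exact s'.2) hP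
      · simp at hi
  · exact tDWilson_mixed P A B C D hB hC i j hij x p s'
  · obtain ⟨h, ⟨h1, h2, h3⟩, hu⟩ := tDWilson_mixed P A B C D hB hC j i (Ne.symm hij) y r s
    exact ⟨h, ⟨h1, h3, h2⟩, fun h' hh => hu h' ⟨hh.1, hh.2.2, hh.2.1⟩⟩
  · -- two points of the second part
    obtain ⟨f, ⟨hf, hfi, hfj⟩, hfu⟩ := hD i j hij s s'
    refine ⟨fun k => Sum.inr (f k), ⟨Or.inr (Or.inr ⟨f, hf, rfl⟩), by simp [hfi],
      by simp [hfj]⟩, ?_⟩
    rintro h ⟨hR, hi, hj⟩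
    rcases hR with ⟨g', hg', hP', f', hf', rfl⟩ | ⟨g', hg', s', hgs, f', hf', hne, rfl⟩ |
      ⟨f', hf', rfl⟩
    · simp [tDWilson_row1] at hj
    · rw [tDWilson_row2_inr] at hi hj
      exact absurd ((hB i j hij none none).unique ⟨hf', hi.1, hj.1⟩ ⟨hBn, rfl, rfl⟩) hne
    · simp only [Sum.inr.injEq] at hi hj
      rw [hfu f' ⟨hf', hi, hj⟩]

/-- Permuting the symbols in every column. -/
private theorem tDWilson_perm (m : ℕ) (X : Type) (h : OA m X) (z : X) :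
    ∃ B : Set (Fin m → X), (∀ i j, i ≠ j → ∀ a b, ∃! f, f ∈ B ∧ f i = a ∧ f j = b) ∧
      (2 ≤ m → (fun _ => z) ∈ B) := by
  classical
  by_cases hm : 2 ≤ m
  swap
  · obtain ⟨B, hB⟩ := h
    exact ⟨B, hB, fun h => absurd h hm⟩
  obtain ⟨B, hB⟩ := h
  obtain ⟨f0, ⟨hf0, -, -⟩, -⟩ := hB ⟨0, by omega⟩ ⟨1, by omega⟩ (by simp) z z
  refine ⟨{g | (fun i => Equiv.swap (f0 i) z (g i)) ∈ B}, ?_, fun _ => ?_⟩
  · intro i j hij a b
    obtain ⟨f, ⟨hf, hfa, hfb⟩, huniq⟩ := hB i j hij (Equiv.swap (f0 i) z a) (Equiv.swap (f0 j) z b)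
    refine ⟨fun k => Equiv.swap (f0 k) z (f k), ⟨?_, ?_, ?_⟩, ?_⟩
    · simpa using hf
    · simp [hfa]
    · simp [hfb]
    · rintro g ⟨hg, hga, hgb⟩
      have := huniq (fun k => Equiv.swap (f0 k) z (g k)) ⟨hg, by simp [hga], by simp [hgb]⟩
      funext k
      have h2 : Equiv.swap (f0 k) z (g k) = f k := congrFun this k
      rw [← h2]
      simp
  · simpa using hf0

theorem tdWilson : TDWilson := by
  intro m a t u hut h1 h2 h3 h4
  by_cases hm : 2 ≤ m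
  swap
  · refine ⟨∅, ?_⟩
    intro i j hij
    exact absurd (Fin.ext (by omega)) hij
  have hcardU : Nat.card {s : Fin t // s.1 < u} = u := by
    rw [Nat.card_eq_fintype_card, Fintype.card_subtype]
    have : (Finset.univ.filter fun s : Fin t => s.1 < u) =
        Finset.univ.map (Fin.castLEEmb hut) := by
      ext s
      simp only [Finset.mem_filter, Finset.mem_univ, true_and, Finset.mem_map]
      constructor
      · intro hs
        exact ⟨⟨s.1, hs⟩, rfl⟩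
      · rintro ⟨k, rfl⟩
        exact k.2
    rw [this]
    simp
  obtain ⟨A, hA⟩ := h1
  have h2' : OA m (Option (Fin a)) := by
    rw [TD_iff]
    simpa [Nat.card_eq_fintype_card] using h2
  obtain ⟨B, hB, hBn⟩ := tDWilson_perm m _ h2' none
  obtain ⟨C, hC⟩ := h3
  have h4' : OA m {s : Fin t // s.1 < u} := by
    rw [TD_iff, hcardU]
    exact h4
  obtain ⟨D, hD⟩ := h4'
  have h5 := tDWilson_core m (Fin a) (Fin t) (fun s => s.1 < u) A B C D hA hB (hBn hm) hC hD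
  rw [TD_iff, Nat.card_sum, Nat.card_prod, hcardU] at h5
  simpa using h5

end Pool.Agent.Helper69.WV
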