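import Mathlib
import Pool.Agent.Helper69.WV.St
import Pool.Agent.Helper69.WV.St2
import Pool.Agent.Helper69.WV.Basic

/-!
Project WV, piece TG: a truncated transversal design with weights.
-/

set_option autoImplicit false

namespace Pool.Agent.Helper69.WV

section

variable {m t u w h : ℕ}

/-- The column of a point. -/
private def truncGdd_col (m t u w h : ℕ) :
    (Fin m × (Fin t × Fin w)) ⊕ (Fin u × Fin h) → Fin (m + 1) :=
  Sum.elim (fun p => Fin.castSucc p.1) (fun _ => Fin.last m)

/-- The symbol of a point. -/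
private def truncGdd_sym (hut : u ≤ t) (m w h : ℕ) :
    (Fin m × (Fin t × Fin w)) ⊕ (Fin u × Fin h) → Fin t :=
  Sum.elim (fun p => p.2.1) (fun a => Fin.castLE hut a.1)

/-- The points of the piece of a row. -/
private def truncGdd_W (u w h : ℕ) (f : Fin (m + 1) → Fin t) : Type :=
  (Fin m × Fin w) ⊕ {a : Fin u × Fin h // a.1.val = (f (Fin.last m)).val}

private def truncGdd_d (u w h : ℕ) (f : Fin (m + 1) → Fin t) :
    truncGdd_W u w h f → Option (Fin m) :=
  Sum.elim (fun p => some p.1) (fun _ => none)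

private def truncGdd_e (u w h : ℕ) (f : Fin (m + 1) → Fin t) :
    truncGdd_W u w h f → (Fin m × (Fin t × Fin w)) ⊕ (Fin u × Fin h) :=
  Sum.elim (fun p => Sum.inl (p.1, (f (Fin.castSucc p.1), p.2))) (fun a => Sum.inr a.1)

private theorem truncGdd_col_ne (x y : (Fin m × (Fin t × Fin w)) ⊕ (Fin u × Fin h))
    (hxy : (Sum.elim (fun p => some p.1) (fun _ => none) : _ → Option (Fin m)) x ≠
      (Sum.elim (fun p => some p.1) (fun _ => none) : _ → Option (Fin m)) y) :
    truncGdd_col m t u w h x ≠ truncGdd_col m t u w h y := by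
  rcases x with x | x <;> rcases y with y | y
  · simp only [Sum.elim_inl, ne_eq, Option.some.injEq] at hxy
    simpa only [truncGdd_col, Sum.elim_inl, ne_eq, Fin.castSucc_inj] using hxy
  · simpa [truncGdd_col] using (Fin.castSucc_lt_last x.1).ne
  · simpa [truncGdd_col] using (Fin.castSucc_lt_last y.1).ne'
  · simp at hxy

private theorem truncGdd_mem (hut : u ≤ t) (f : Fin (m + 1) → Fin t)
    (x : (Fin m × (Fin t × Fin w)) ⊕ (Fin u × Fin h)) :
    (∃ x', truncGdd_e u w h f x' = x) ↔
      f (truncGdd_col m t u w h x) = truncGdd_sym hut m w h x := by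
  rcases x with x | x
  · constructor
    · rintro ⟨x' | x', hx'⟩
      · simp only [truncGdd_e, Sum.elim_inl, Sum.inl.injEq] at hx'
        subst hx'
        simp [truncGdd_col, truncGdd_sym]
      · simp [truncGdd_e] at hx'
    · intro hf
      refine ⟨Sum.inl (x.1, x.2.2), ?_⟩
      simp only [truncGdd_col, truncGdd_sym, Sum.elim_inl] at hf
      simp [truncGdd_e, hf]
  · constructor
    · rintro ⟨x' | x', hx'⟩
      · simp [truncGdd_e] at hx'
      · simp only [truncGdd_e, Sum.elim_inr, Sum.inr.injEq] at hx'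
        subst hx'
        apply Fin.ext
        simp only [truncGdd_col, truncGdd_sym, Sum.elim_inr, Fin.val_castLE]
        exact x'.2.symm
    · intro hf
      refine ⟨Sum.inr ⟨x, ?_⟩, ?_⟩
      · have h2 := congrArg Fin.val hf
        simp only [truncGdd_col, truncGdd_sym, Sum.elim_inr, Fin.val_castLE] at h2
        exact h2.symm
      · simp [truncGdd_e]

private theorem truncGdd_inj (f : Fin (m + 1) → Fin t) :
    Function.Injective (truncGdd_e u w h f) := by
  rintro (x | x) (y | y) hxy
  · simp only [truncGdd_e, Sum.elim_inl, Sum.inl.injEq, Prod.mk.injEq] at hxy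
    exact congrArg Sum.inl (Prod.ext hxy.1 hxy.2.2)
  · simp [truncGdd_e] at hxy
  · simp [truncGdd_e] at hxy
  · simp only [truncGdd_e, Sum.elim_inr, Sum.inr.injEq] at hxy
    exact congrArg Sum.inr (Subtype.ext hxy)

private theorem truncGdd_group (f : Fin (m + 1) → Fin t) (x : truncGdd_W u w h f) :
    (Sum.elim (fun p => some p.1) (fun _ => none) :
      (Fin m × (Fin t × Fin w)) ⊕ (Fin u × Fin h) → Option (Fin m)) (truncGdd_e u w h f x) =
      truncGdd_d u w h f x := by
  rcases x with x | x <;> rfl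

private theorem truncGdd_piece (k l : ℕ) (hm : m ∈ RS k l w)
    (hD : DD k l (Sum.elim (fun p => some p.1) (fun _ => none) :
      (Fin m × Fin w) ⊕ Fin h → Option (Fin m))) (f : Fin (m + 1) → Fin t) :
    DD k l (truncGdd_d u w h f) := by
  by_cases hu : (f (Fin.last m)).val < u
  · let e0 : Fin h ≃ {a : Fin u × Fin h // a.1.val = (f (Fin.last m)).val} :=
      { toFun := fun a => ⟨(⟨(f (Fin.last m)).val, hu⟩, a), rfl⟩
        invFun := fun a => a.1.2
        left_inv := fun a => rfl
        right_inv := fun a => Subtype.ext (Prod.ext (Fin.ext a.2.symm) rfl) }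
    refine hD.congr ((Equiv.refl _).sumCongr e0 : _ ≃ truncGdd_W u w h f) ?_
    rintro (x | x) (y | y) <;> exact Iff.rfl
  · have : IsEmpty {a : Fin u × Fin h // a.1.val = (f (Fin.last m)).val} :=
      ⟨fun a => hu (a.2 ▸ a.1.1.2)⟩
    refine DD.congr (γ := (Prod.fst : Fin m × Fin w → Fin m)) hm
      ((Equiv.sumEmpty (Fin m × Fin w)
        {a : Fin u × Fin h // a.1.val = (f (Fin.last m)).val}).symm : _ ≃ truncGdd_W u w h f) ?_
    intro x y
    exact (Option.some_inj (a := x.1) (b := y.1)).symm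

end

/-- From designs of the types `w^m` and `w^m h^1` and a transversal design, a design of the type
`(w t)^m (h u)^1`. -/
theorem truncGdd (hG : Glue) : TruncGdd := by
  intro k l m t u w h _ hut hTD hm hD
  obtain ⟨R, hR⟩ := hTD
  refine hG k l ((Fin m × (Fin t × Fin w)) ⊕ (Fin u × Fin h)) (Option (Fin m)) inferInstance
    (Sum.elim (fun p => some p.1) (fun _ => none)) {f // f ∈ R} inferInstance
    (fun f => truncGdd_W u w h f.1) (fun _ => Option (Fin m)) (fun f => truncGdd_d u w h f.1)
    (fun f => truncGdd_e u w h f.1) (fun f => truncGdd_inj f.1)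
    (fun f => truncGdd_piece k l hm hD f.1) ?_ ?_
  · intro x y hxy
    obtain ⟨f, ⟨hf, hfx, hfy⟩, huniq⟩ := hR _ _ (truncGdd_col_ne x y hxy)
      (truncGdd_sym hut m w h x) (truncGdd_sym hut m w h y)
    obtain ⟨x', hx'⟩ := (truncGdd_mem hut f x).2 hfx
    obtain ⟨y', hy'⟩ := (truncGdd_mem hut f y).2 hfy
    refine ⟨⟨f, hf⟩, ⟨x', y', hx', hy', ?_⟩, ?_⟩
    · intro h2
      apply hxy
      rw [← hx', ← hy', truncGdd_group, truncGdd_group]
      exact h2
    · rintro ⟨g, hg⟩ ⟨x1, y1, hx1, hy1, -⟩
      apply Subtype.ext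
      exact huniq g ⟨hg, (truncGdd_mem hut g x).1 ⟨x1, hx1⟩, (truncGdd_mem hut g y).1 ⟨y1, hy1⟩⟩
  · intro f x' y' hne
    rw [truncGdd_group, truncGdd_group]
    exact hne

end Pool.Agent.Helper69.WV
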