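import Mathlib
import Pool.Agent.Helper69.WV.Main
import Pool.Agent.Helper69.WV.Glue
import Pool.Agent.Helper69.WV.ClosedKR
import Pool.Agent.Helper69.WV.Fill
import Pool.Agent.Helper69.WV.Inflate
import Pool.Agent.Helper69.WV.OABasic
import Pool.Agent.Helper69.WV.TDWilson
import Pool.Agent.Helper69.WV.NumberLemma
import Pool.Agent.Helper69.WV.TDLarge
import Pool.Agent.Helper69.WV.CMul
import Pool.Agent.Helper69.WV.CTrunc
import Pool.Agent.Helper69.WV.MeetsOdd
import Pool.Agent.Helper69.WV.MeetsAll
import Pool.Agent.Helper69.WV.AllLarge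
import Pool.Agent.Helper69.WV.Greedy
import Pool.Agent.Helper69.WV.Cyclo
import Pool.Agent.Helper69.WV.GAlg
import Pool.Agent.Helper69.WV.GPrime
import Pool.Agent.Helper69.WV.GField
import Pool.Agent.Helper69.WV.NicePrimes
import Pool.Agent.Helper69.WV.EvenElt
import Pool.Agent.Helper69.WV.HoleGroup
import Pool.Agent.Helper69.WV.TruncGdd
import Pool.Agent.Helper69.WV.RAll
import Pool.Agent.Helper69.WV.OddLarge

/-!
Project WV: all pieces together.
-/

set_option autoImplicit false

namespace Pool.Agent.Helper69.WV

theorem hTD : TDLarge := tdLarge oaField oaMul tdWilson numberLemma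

theorem hC : Cyclo := cyclo greedy

theorem hNP : NicePrimes := nicePrimes hC

theorem hMO : MeetsOdd := meetsOdd hTD cMul1

theorem hAL : AllLarge := allLarge oaField oaMul hTD cMul cTrunc (meetsAll hTD cMul cMul1)

theorem hRA : RAll :=
  rAll inflate hTD hAL (closedR glue) hC (gPrime gAlg greedy) hNP (evenElt glue)

theorem hOL : OddLarge :=
  oddLarge (closedK glue) (truncGdd glue) (fill1 glue) hTD hMO hNP (holeGroup glue) hRA

theorem main : Main := main_of (closedK glue) hAL (gField gAlg) hNP (fill0 glue) hOL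

end Pool.Agent.Helper69.WV
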