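import Mathlib
import Pool.Agent.Helper69.WV.St
import Pool.Agent.Helper69.WV.Basic

/-!
Project WV, piece AL: a closed set containing all large primes and a positive even number contains
all large numbers.
-/

set_option autoImplicit false

namespace Pool.Agent.Helper69.WV

private theorem allLarge_one (M : ℕ) : TD M 1 := by
  refine ⟨Set.univ, ?_⟩
  intro i j _ a b
  refine ⟨fun _ => 0, ⟨trivial, Subsingleton.elim _ _, Subsingleton.elim _ _⟩, ?_⟩
  intro g _
  funext t
  exact Subsingleton.elim _ _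

private theorem allLarge_td (h1 : OAField) (h2 : OAMul) (M : ℕ) :
    ∀ n : ℕ, 0 < n → (∀ p, p.Prime → p ∣ n → M ≤ p) → TD M n := by
  intro n
  induction n using Nat.strong_induction_on with
  | _ n ih =>
    intro hn hp
    rcases Nat.lt_or_ge 1 n with h | h
    · have hne : n ≠ 1 := by omega
      have hpr := Nat.minFac_prime hne
      have hdvd := Nat.minFac_dvd n
      have hq : 0 < n / n.minFac := Nat.div_pos (Nat.minFac_le hn) hpr.pos
      have hlt : n / n.minFac < n := Nat.div_lt_self hn hpr.one_lt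
      have h3 : TD M (n / n.minFac) := ih _ hlt hq fun p hpp hpd =>
        hp p hpp (hpd.trans (Nat.div_dvd_of_dvd hdvd))
      have : Fact n.minFac.Prime := ⟨hpr⟩
      have hc : Nat.card (ZMod n.minFac) = n.minFac := Nat.card_zmod _
      have h4 : TD M n.minFac := by
        have h := TD_iff.1 (h1 M (ZMod n.minFac) inferInstance inferInstance
          (by rw [hc]; exact hp _ hpr hdvd))
        rwa [hc] at h
      have h5 := TD_iff.1 (h2 M (Fin n.minFac) (Fin (n / n.minFac)) h4 h3)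
      have h6 : Nat.card (Fin n.minFac × Fin (n / n.minFac)) = n := by
        simp [Nat.mul_div_cancel' hdvd]
      rwa [h6] at h5
    · have : n = 1 := by omega
      rw [this]
      exact allLarge_one M

private theorem allLarge_mem (h1 : OAField) (h2 : OAMul) (hMul : CMul) {K : Set ℕ}
    (hK : Closed K) {M : ℕ} (hM : ∀ p, p.Prime → M ≤ p → p ∈ K) :
    ∀ n : ℕ, 0 < n → (∀ p, p.Prime → p ∣ n → M ≤ p) → n ∈ K := by
  intro n
  induction n using Nat.strong_induction_on with
  | _ n ih =>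
    intro hn hp
    rcases Nat.lt_or_ge 1 n with h | h
    · have hne : n ≠ 1 := by omega
      have hpr := Nat.minFac_prime hne
      have hdvd := Nat.minFac_dvd n
      have hq : 0 < n / n.minFac := Nat.div_pos (Nat.minFac_le hn) hpr.pos
      have hlt : n / n.minFac < n := Nat.div_lt_self hn hpr.one_lt
      have h3 : n / n.minFac ∈ K := ih _ hlt hq fun p hpp hpd =>
        hp p hpp (hpd.trans (Nat.div_dvd_of_dvd hdvd))
      have h4 : TD n.minFac (n / n.minFac) := allLarge_td h1 h2 _ _ hq fun p hpp hpd =>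
        Nat.minFac_le_of_dvd hpp.two_le (hpd.trans (Nat.div_dvd_of_dvd hdvd))
      have h5 := hMul K hK _ _ (hM _ hpr (hp _ hpr hdvd)) h3 h4
      rwa [Nat.mul_div_cancel' hdvd] at h5
    · have : n = 1 := by omega
      rw [this]
      exact hK.2.1

theorem allLarge (h1 : OAField) (h2 : OAMul) (hT : TDLarge) (hMul : CMul) (hTr : CTrunc)
    (hMA : MeetsAll) : AllLarge := by
  intro K hK hq r0 hr0 hr0e hr0K
  obtain ⟨q1, hq1⟩ := hq
  have hU : UnitClasses K := by
    intro N r B hN hr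
    obtain ⟨q, hq, hqp, hqr⟩ := Nat.forall_exists_prime_gt_and_modEq (B + q1) hN.ne' hr
    exact ⟨q, hq1 q hqp (by omega), by omega, hqr⟩
  have hmeet := hMA K hK hU r0 hr0 hr0e hr0K
  obtain ⟨Q, hQpos, hQ2, hQdvd⟩ : ∃ Q : ℕ, 0 < Q ∧ Nat.Coprime 2 Q ∧
      ∀ p, p.Prime → p ≠ 2 → p < q1 → p ∣ Q := by
    refine ⟨∏ p ∈ (Finset.range q1).filter (fun p => p.Prime ∧ p ≠ 2), p, ?_, ?_, ?_⟩
    · refine Finset.prod_pos fun p hp => ?_
      exact (Finset.mem_filter.1 hp).2.1.pos
    · refine Nat.Coprime.prod_right fun p hp => ?_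
      obtain ⟨-, h3, h4⟩ := Finset.mem_filter.1 hp
      exact (Nat.coprime_primes Nat.prime_two h3).2 (Ne.symm h4)
    · intro p hp hp2 hpM
      exact Finset.dvd_prod_of_mem (fun p => p) (Finset.mem_filter.2
        ⟨Finset.mem_range.2 hpM, hp, hp2⟩)
  have hmem : ∀ n : ℕ, 0 < n → ¬ 2 ∣ n → Nat.Coprime n Q → n ∈ K := by
    intro n hn hn2 hnQ
    refine allLarge_mem h1 h2 hMul hK hq1 n hn ?_
    intro p hp hpn
    by_contra hcon
    have hp2 : p ≠ 2 := by
      rintro rfl
      exact hn2 hpn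
    have h3 := hQdvd p hp hp2 (by omega)
    have h4 := Nat.dvd_gcd hpn h3
    rw [hnQ] at h4
    exact hp.one_lt.ne' (Nat.dvd_one.1 h4)
  -- the element `a`
  obtain ⟨ra, hra1, hra2⟩ := Nat.chineseRemainder hQ2 0 1
  obtain ⟨a, haK, hapos, har⟩ := hmeet (2 * Q) ra 1 (by omega)
  have ha2 : a ≡ 0 [MOD 2] := (har.of_mul_right Q).trans hra1
  have haQ : a ≡ 1 [MOD Q] := (har.of_mul_left 2).trans hra2
  have ha1K : a + 1 ∈ K := by
    refine hmem (a + 1) (by omega) ?_ ?_
    · intro h
      have := Nat.modEq_zero_iff_dvd.1 ha2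
      omega
    · have h3 : Nat.gcd (a + 1) Q = Nat.gcd 2 Q := Nat.ModEq.gcd_eq (haQ.add_right 1)
      unfold Nat.Coprime
      rw [h3]
      exact hQ2
  have hacQ : Nat.Coprime a Q := by
    have h3 : Nat.gcd a Q = Nat.gcd 1 Q := Nat.ModEq.gcd_eq haQ
    unfold Nat.Coprime
    rw [h3]
    exact Nat.gcd_one_left Q
  have hN : 0 < 2 * a * Q := Nat.mul_pos (by omega) hQpos
  choose u huK hu1 hur using fun c : ℕ => hmeet (2 * a * Q) c 1 hN
  obtain ⟨U, hUle⟩ : ∃ U, ∀ c, c < 2 * a * Q → u c ≤ U :=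
    ⟨(Finset.range (2 * a * Q)).sup u, fun c hc => Finset.le_sup (Finset.mem_range.2 hc)⟩
  obtain ⟨n0, hn0⟩ := hT (a + 1)
  refine ⟨a * (n0 + U + 1) + U, ?_⟩
  intro n hn
  have h2a : Nat.Coprime (2 * a) Q := Nat.Coprime.mul_left hQ2 hacQ
  obtain ⟨c, hc1, hc2⟩ := Nat.chineseRemainder h2a (n + a) (n - 1)
  obtain ⟨v, hvK, hvU, hvc⟩ : ∃ v ∈ K, v ≤ U ∧ v ≡ c [MOD 2 * a * Q] := by
    refine ⟨u (c % (2 * a * Q)), huK _, hUle _ (Nat.mod_lt _ hN), ?_⟩
    exact (hur _).trans (Nat.mod_modEq _ _)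
  have hv1 : v ≡ n + a [MOD 2 * a] := (hvc.of_mul_right Q).trans hc1
  have hv2 : v ≡ n - 1 [MOD Q] := (hvc.of_mul_left (2 * a)).trans hc2
  have hbig : a * (n0 + U + 1) + U ≤ n := hn
  have hpos : 1 ≤ a * (n0 + U + 1) := Nat.mul_pos hapos (by omega)
  have hvn : v ≤ n := by omega
  have hva : v ≡ n [MOD a] := by
    have h3 : v ≡ n + a [MOD a] := hv1.of_mul_left 2
    exact h3.trans (by simp [Nat.ModEq])
  obtain ⟨t, ht⟩ := (Nat.modEq_iff_dvd' hvn).1 hva
  have hnt : n = a * t + v := by omega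
  have htbig : n0 + U + 1 ≤ t := by
    by_contra hcon
    have h3 : t ≤ n0 + U := by omega
    have h4 : a * t ≤ a * (n0 + U) := Nat.mul_le_mul_left a h3
    have h5 : a * (n0 + U + 1) = a * (n0 + U) + a := by ring
    omega
  have htK : t ∈ K := by
    refine hmem t (by omega) ?_ ?_
    · rintro ⟨s, rfl⟩
      have h3 : v ≡ a * (2 * s) + v + a [MOD 2 * a] := by
        rw [← hnt]
        exact hv1
      have h4 : a * (2 * s) + v + a ≡ v + a [MOD 2 * a] := by
        have : a * (2 * s) + v + a = 2 * a * s + (v + a) := by ring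
        rw [this]
        simp [Nat.ModEq, Nat.add_mod]
      have h5 : v + 0 ≡ v + a [MOD 2 * a] := by
        rw [add_zero]
        exact h3.trans h4
      have h6 := (Nat.modEq_iff_dvd' (Nat.zero_le a)).1 (Nat.ModEq.add_left_cancel' v h5)
      have h7 := Nat.le_of_dvd (by omega) h6
      omega
    · have h3 : a * t + v ≡ 1 + v [MOD Q] := by
        rw [← hnt]
        have h4 : n = (n - 1) + 1 := by omega
        have h5 : 1 + v ≡ n [MOD Q] := by
          rw [add_comm 1 v]
          conv_rhs => rw [h4]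
          exact hv2.add_right 1
        exact h5.symm
      have h4 : a * t ≡ 1 [MOD Q] := Nat.ModEq.add_right_cancel' v h3
      have h5 : Nat.gcd (a * t) Q = Nat.gcd 1 Q := Nat.ModEq.gcd_eq h4
      have h6 : Nat.Coprime (a * t) Q := by
        unfold Nat.Coprime
        rw [h5]
        exact Nat.gcd_one_left Q
      exact Nat.Coprime.coprime_mul_left h6
  rw [hnt]
  exact hTr K hK a t v haK ha1K htK hvK (by omega) (hn0 t (by omega))

end Pool.Agent.Helper69.WV
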