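import Mathlib
import Pool.Agent.Helper69.WV.St
import Pool.Agent.Helper69.WV.Basic

/-!
Project WV: the fundamental construction of Wilson.
-/

set_option autoImplicit false

namespace Pool.Agent.Helper69.WV

theorem wfc (hG : Glue) : Wfc := by
  intro k l V I hV γ B Y hY hB1 hB2 hDD
  have : ∀ x, Finite (Y x) := hY
  refine hG k l (Σ x : V, Y x) I inferInstance (fun p => γ p.1) (↥B) inferInstance
    (fun b => Σ x : ↥b.1, Y x.1) (fun b => ↥b.1) (fun b p => p.1) (fun b p => ⟨p.1.1, p.2⟩)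
    ?_ ?_ ?_ ?_
  · rintro b ⟨⟨x, hx⟩, s⟩ ⟨⟨y, hy⟩, t⟩ h
    simp only [Sigma.mk.injEq] at h
    obtain ⟨rfl, h2⟩ := h
    rw [heq_eq_eq] at h2
    subst h2
    rfl
  · intro b
    exact hDD b.1 b.2
  · rintro ⟨x, s⟩ ⟨y, t⟩ hxy
    have hxy' : γ x ≠ γ y := hxy
    obtain ⟨b, ⟨hbB, hxb, hyb⟩, huniq⟩ := hB1 x y hxy'
    refine ⟨⟨b, hbB⟩, ⟨⟨⟨x, hxb⟩, s⟩, ⟨⟨y, hyb⟩, t⟩, rfl, rfl, ?_⟩, ?_⟩
    · intro h
      have : x = y := congrArg Subtype.val h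
      exact hxy' (congrArg γ this)
    · rintro ⟨b', hb'⟩ ⟨⟨⟨x', hx'⟩, s'⟩, ⟨⟨y', hy'⟩, t'⟩, h1, h2, -⟩
      simp only [Sigma.mk.injEq] at h1 h2
      obtain ⟨rfl, -⟩ := h1
      obtain ⟨rfl, -⟩ := h2
      exact Subtype.ext (huniq b' ⟨hb', hx', hy'⟩)
  · rintro ⟨b, hb⟩ ⟨⟨x', hx'⟩, s'⟩ ⟨⟨y', hy'⟩, t'⟩ hne
    exact hB2 b hb x' hx' y' hy' (fun h => hne (Subtype.ext h))

end Pool.Agent.Helper69.WV
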